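import Pool.Agent.Lib.MP_d3d358_ag.K.Cy

/-! Forms (global sections of line bundles), their action on extension classes, and classes that
are killed by a multiplicative family of forms. -/

set_option autoImplicit false

open CategoryTheory Limits Abelian

namespace Pool.Agent.Lib.MP_d3d358_ag.Bkr

open Pool.Agent.Lib.MP_cd184e_ag.T Pool.Agent.Lib.MP_cd184e_ag.T.Coh
open Pool.Agent.Lib.MP_d3d358_ag.K Pool.Agent.Lib.MP_d3d358_ag.K.Cy

variable {k K : Type} [Field k] [Field K] [Algebra k K] {X : ProjVar k K}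

/-- A global section `r` of the line bundle `d`. -/
@[ext] structure Fm (X : ProjVar k K) where
  r : K
  d : Cy X
  reg : Reg r 1 d

namespace Fm

theorem regAt (σ : Fm X) {a b : Cy X} (h : b = a * σ.d) : Reg σ.r a b := by
  have := σ.reg.shift a
  rwa [mul_one, ← h] at this

noncomputable instance : One (Fm X) := ⟨⟨1, 1, Reg.refl 1⟩⟩

noncomputable instance : Mul (Fm X) :=
  ⟨fun σ τ => ⟨σ.r * τ.r, σ.d * τ.d, σ.reg.mul (τ.regAt rfl)⟩⟩

@[simp] theorem one_r : (1 : Fm X).r = 1 := rfl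
@[simp] theorem one_d : (1 : Fm X).d = 1 := rfl
@[simp] theorem mul_r (σ τ : Fm X) : (σ * τ).r = σ.r * τ.r := rfl
@[simp] theorem mul_d (σ τ : Fm X) : (σ * τ).d = σ.d * τ.d := rfl

noncomputable instance : CommMonoid (Fm X) where
  mul_assoc a b c := Fm.ext (mul_assoc _ _ _) (mul_assoc _ _ _)
  one_mul a := Fm.ext (one_mul _) (one_mul _)
  mul_one a := Fm.ext (mul_one _) (mul_one _)
  mul_comm a b := Fm.ext (mul_comm _ _) (mul_comm _ _)

@[simp] theorem pow_r (σ : Fm X) (n : ℕ) : (σ ^ n).r = σ.r ^ n := by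
  induction n with
  | zero => simp
  | succ n ih => rw [pow_succ, pow_succ, mul_r, ih]

@[simp] theorem pow_d (σ : Fm X) (n : ℕ) : (σ ^ n).d = σ.d ^ n := by
  induction n with
  | zero => simp
  | succ n ih => rw [pow_succ, pow_succ, mul_d, ih]

/-- The function that gives the form on the open set of index `s`. -/
noncomputable def sec (σ : Fm X) (s : X.Idx) : X.A s.1 := σ.reg.sec s

theorem coe_sec (σ : Fm X) (s : X.Idx) : (σ.sec s : K) = σ.r / σ.d.fp s := by
  simp [sec]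

@[simp] theorem one_sec (s : X.Idx) : (1 : Fm X).sec s = 1 := Subtype.ext (by simp [coe_sec])

@[simp] theorem mul_sec (σ τ : Fm X) (s : X.Idx) : (σ * τ).sec s = σ.sec s * τ.sec s :=
  Subtype.ext (by simp [coe_sec, div_mul_div_comm])

@[simp] theorem pow_sec (σ : Fm X) (n : ℕ) (s : X.Idx) : (σ ^ n).sec s = σ.sec s ^ n := by
  induction n with
  | zero => simp
  | succ n ih => rw [pow_succ, pow_succ, mul_sec, ih]

theorem regAt_sec (σ : Fm X) {a b : Cy X} (h : b = a * σ.d) (s : X.Idx) :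
    (σ.regAt h).sec s = σ.sec s := by
  subst h
  have := a.fp_ne s
  have := σ.d.fp_ne s
  refine Subtype.ext ?_
  simp only [Reg.coe_sec, coe_sec, mul_fp]
  field_simp

/-- Multiplication by a form. -/
noncomputable def mu (σ : Fm X) (N : Coh X) {a b : Cy X} (h : b = a * σ.d) :
    (twc a).obj N ⟶ (twc b).obj N := muc N (σ.regAt h)

theorem mu_app (σ : Fm X) (N : Coh X) {a b : Cy X} (h : b = a * σ.d) (s : X.Idx) (x : N.obj s) :
    (σ.mu N h).app s x = σ.sec s • x := by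
  rw [mu, muc_app, regAt_sec σ h]

/-- The action of a form on extension classes. -/
noncomputable def ac (σ : Fm X) {G N : Coh X} {i : ℕ} {a : Cy X} (x : Ext G ((twc a).obj N) i) :
    Ext G ((twc (a * σ.d)).obj N) i := act x (σ.regAt rfl)

end Fm

/-- The class `x` is killed by a form of the family `S`. -/
def Nul (S : Submonoid (Fm X)) {G N : Coh X} {i : ℕ} {a : Cy X} (x : Ext G ((twc a).obj N) i) :
    Prop := ∃ σ ∈ S, σ.ac x = 0

/-- Powers of the form `u` kill the classes of positive degree out of `G`. -/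
def Kills (G : Coh X) (u : Fm X) : Prop :=
  ∀ (M : Coh X) (a : Cy X) (i : ℕ) (x : Ext G ((twc a).obj M) (i + 1)), ∃ t : ℕ, (u ^ t).ac x = 0

/-- The data and the chartwise hypotheses of the vanishing theorem. -/
structure Van (S : Submonoid (Fm X)) (G N : Coh X) where
  u0 : Fm X
  u1 : Fm X
  u2 : Fm X
  k0 : Kills G u0
  k1 : Kills G u1
  k2 : Kills G u2
  /-- the three forms have no common zero near the point -/
  null : ∀ t : ℕ, ∃ σ ∈ S, ∀ s : X.Idx,
    σ.sec s ∈ Ideal.span {u0.sec s ^ t, u1.sec s ^ t, u2.sec s ^ t}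
  inj0 : ∀ (s : X.Idx) (x : N.obj s), u0.sec s • x = 0 → x = 0
  /-- the pair `u0, u1` is regular near the point -/
  reg : ∃ σ ∈ S, ∀ (s : X.Idx) (x y : N.obj s), u1.sec s • x = u0.sec s • y →
    ∃ z, σ.sec s • x = u0.sec s • z
  D0 : Cy X → Prop
  D1 : Cy X → Prop
  D2 : Cy X → Prop
  D0_S : ∀ a, D0 a → ∀ σ ∈ S, D0 (a * σ.d)
  D1_S : ∀ a, D1 a → ∀ σ ∈ S, D1 (a * σ.d)
  D2_S : ∀ a, D2 a → ∀ σ ∈ S, D2 (a * σ.d)
  D0_u : ∀ a, D0 a → D0 (a * u0.d)
  D1_u : ∀ a, D1 a → D1 (a * u1.d)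
  D01 : ∀ a, D0 a → D1 (a * u0.d)
  D12 : ∀ a, D1 a → D2 (a * u1.d)
  A2 : ∀ a, D2 a → ∀ (t : ℕ) (n : G ⟶ (twc (a * u2.d ^ t)).obj N),
    ∃ σ ∈ S, ∃ (T : ℕ) (n0 : G ⟶ (twc (a * σ.d)).obj N), ∀ (s : X.Idx) (x : G.obj s),
      ∃ y0 y1 : N.obj s, (σ.sec s * u2.sec s ^ T) • (show N.obj s from n.app s x) =
        u2.sec s ^ (T + t) • (show N.obj s from n0.app s x) + u0.sec s • y0 + u1.sec s • y1
  A1 : ∀ a, D1 a → ∀ (t : ℕ) (n1 : G ⟶ (twc (a * u1.d ^ t)).obj N)
    (n2 : G ⟶ (twc (a * u2.d ^ t)).obj N),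
    (∀ (s : X.Idx) (x : G.obj s), ∃ y : N.obj s, u2.sec s ^ t • (show N.obj s from n1.app s x) =
      u1.sec s ^ t • (show N.obj s from n2.app s x) + u0.sec s • y) →
    ∃ σ ∈ S, ∃ (T : ℕ) (n0 : G ⟶ (twc (a * σ.d)).obj N), ∀ (s : X.Idx) (x : G.obj s),
      (∃ y : N.obj s, (σ.sec s * u1.sec s ^ T) • (show N.obj s from n1.app s x) =
        u1.sec s ^ (T + t) • (show N.obj s from n0.app s x) + u0.sec s • y) ∧
      ∃ y : N.obj s, (σ.sec s * u2.sec s ^ T) • (show N.obj s from n2.app s x) =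
        u2.sec s ^ (T + t) • (show N.obj s from n0.app s x) + u0.sec s • y

end Pool.Agent.Lib.MP_d3d358_ag.Bkr
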