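import Pool.Agent.Lib.MP_d3d358_ag.Th.ISec
import Pool.Agent.Lib.MP_d3d358_ag.K.Defs
import Pool.Agent.Lib.MP_d3d358_ag.Var.KD

/-! The functor from theta bundles to coherent sheaves on the Kummer fourfold. -/

set_option autoImplicit false

namespace Pool.Agent.Lib.MP_d3d358_ag.Bkr

open CategoryTheory Limits Matrix
open Pool.Agent.Lib.MP_cd184e_ag.T Pool.Agent.Lib.MP_d3d358_ag.K Cy
open Pool.Agent.Lib.MP_d3d358_ag.G (Sf)
open Pool.Agent.Lib.MP_d3d358_ag.Th (Obj ISec twObj Inv Theta)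
open Pool.Agent.Lib.MP_d3d358_ag.Var (V M Ent emb Good gU emb_inj)

noncomputable section

variable {A : Sf}

theorem emb_eq_sum {κ : Type} [Fintype κ] (F : Ent) (a b : κ → Ent)
    (h : ∀ z, F.1 z = ∑ k, (a k).1 z * (b k).1 z) : emb F = ∑ k, emb (a k) * emb (b k) := by
  have e : F = ∑ k, a k * b k := Ent.ext fun z => by rw [Ent.sum_apply]; exact h z
  rw [e, map_sum]; exact Finset.sum_congr rfl fun k _ => map_mul emb _ _

/-- A vector of entire functions as a vector of meromorphic functions. -/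
def vM {ι : Type} (s : V → ι → ℂ) (hs : ∀ i, Differentiable ℂ fun z => s z i) : ι → M :=
  fun i => emb ⟨fun z => s z i, hs i⟩

/-- Invariant sections of `E(m)` as vectors of meromorphic functions. -/
def secM (E : Obj A.cr) (m : ℤ) : ISec E m →ₗ[ℂ] (E.ι → M) where
  toFun s := vM s.1 (ISec.diff s.2)
  map_add' s t := funext fun i =>
    map_add emb ⟨fun z => s.1 z i, ISec.diff s.2 i⟩ ⟨fun z => t.1 z i, ISec.diff t.2 i⟩
  map_smul' c s := funext fun i => map_smul emb c ⟨fun z => s.1 z i, ISec.diff s.2 i⟩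

/-- The space of invariant sections of `E(m)`. -/
def Gam (E : Obj A.cr) (m : ℤ) : Submodule ℂ (E.ι → M) := LinearMap.range (secM E m)

theorem mem_Gam {E : Obj A.cr} {m : ℤ} {x : E.ι → M} :
    x ∈ Gam E m ↔ ∃ s, ∃ hs : s ∈ ISec E m, x = vM s (ISec.diff hs) :=
  ⟨fun ⟨s, e⟩ => ⟨s.1, s.2, e.symm⟩, fun ⟨s, hs, e⟩ => ⟨⟨s, hs⟩, e.symm⟩⟩

instance (E : Obj A.cr) (m : ℤ) : FiniteDimensional ℂ (Gam E m) :=
  inferInstanceAs (FiniteDimensional ℂ (LinearMap.range (secM E m)))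

theorem Gam_tw (E : Obj A.cr) {a m b : ℤ} (h : a + m = b) : Gam (twObj a E) m = Gam E b := by
  ext x
  simp only [mem_Gam, Th.ISec_tw E h]

theorem Gam_smul {E : Obj A.cr} {a d b : ℤ} (h : a + d = b) {y : Ent} (hy : y.1 ∈ Inv A.cr d)
    {x : E.ι → M} (hx : x ∈ Gam E a) : emb y • x ∈ Gam E b := by
  obtain ⟨s, hs, rfl⟩ := mem_Gam.1 hx
  exact mem_Gam.2 ⟨_, ISec.smul h hy hs, funext fun i =>
    (map_mul emb y ⟨fun z => s z i, ISec.diff hs i⟩).symm⟩

/-- The matrix of meromorphic functions of a morphism. -/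
def mM {E F : Obj A.cr} (u : E ⟶ F) : Matrix F.ι E.ι M :=
  of fun i j => emb ⟨fun z => Th.val u z i j, Th.val_diff u i j⟩

theorem mM_apply {E F : Obj A.cr} (u : E ⟶ F) (i : F.ι) (j : E.ι) :
    mM u i j = emb ⟨fun z => Th.val u z i j, Th.val_diff u i j⟩ := rfl

theorem mM_vM {E F : Obj A.cr} (u : E ⟶ F) (s : V → E.ι → ℂ)
    (hs : ∀ i, Differentiable ℂ fun z => s z i)
    (h : ∀ i, Differentiable ℂ fun z => (Th.val u z *ᵥ s z) i) :
    mM u *ᵥ vM s hs = vM (fun z => Th.val u z *ᵥ s z) h :=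
  funext fun i => (emb_eq_sum ⟨_, h i⟩ (fun j => ⟨_, Th.val_diff u i j⟩) (fun j => ⟨_, hs j⟩)
    fun _ => rfl).symm

theorem Gam_map {E F : Obj A.cr} (u : E ⟶ F) {a : ℤ} {x : E.ι → M} (hx : x ∈ Gam E a) :
    mM u *ᵥ x ∈ Gam F a := by
  obtain ⟨s, hs, rfl⟩ := mem_Gam.1 hx
  exact mem_Gam.2 ⟨_, ISec.map u hs, mM_vM u s _ _⟩

theorem mM_id (E : Obj A.cr) : mM (𝟙 E) = 1 := by
  ext i j
  rw [mM_apply, one_apply]
  split_ifs with h
  · rw [← map_one emb]; exact congrArg emb (Ent.ext fun z => by simp [h])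
  · rw [← map_zero emb]; exact congrArg emb (Ent.ext fun z => by simp [h])

theorem mM_comp {D E F : Obj A.cr} (u : D ⟶ E) (v : E ⟶ F) : mM (u ≫ v) = mM v * mM u :=
  Matrix.ext fun i j => emb_eq_sum ⟨_, Th.val_diff (u ≫ v) i j⟩ (fun k => ⟨_, Th.val_diff v i k⟩)
    (fun k => ⟨_, Th.val_diff u k j⟩) fun _ => rfl

theorem mM_add {E F : Obj A.cr} (u v : E ⟶ F) : mM (u + v) = mM u + mM v :=
  Matrix.ext fun i j => map_add emb ⟨fun z => Th.val u z i j, Th.val_diff u i j⟩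
    ⟨fun z => Th.val v z i j, Th.val_diff v i j⟩

theorem mM_smul {E F : Obj A.cr} (c : ℂ) (u : E ⟶ F) : mM (c • u) = c • mM u :=
  Matrix.ext fun i j => map_smul emb c ⟨fun z => Th.val u z i j, Th.val_diff u i j⟩

theorem mM_of_val {E F : Obj A.cr} (u : E ⟶ F) (y : Ent) (N : Matrix F.ι E.ι ℂ)
    (h : ∀ z, Th.val u z = y.1 z • N) : mM u = emb y • N.map (algebraMap ℂ M) := by
  ext i j
  rw [mM_apply, Matrix.smul_apply, map_apply, smul_eq_mul, ← emb.commutes, ← map_mul]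
  exact congrArg emb (Ent.ext fun z => congrFun (congrFun (h z) i) j)

variable {X : ProjVar ℂ M} (g : Cy X)

/-- The module of sections over the open set `s`. -/
def aM (E : Obj A.cr) (s : X.Idx) : Submodule (X.A s.1) (E.ι → M) :=
  Submodule.span (X.A s.1) {x | ∃ m : ℤ, ∃ σ ∈ Gam E m, x = (g.fp s ^ m)⁻¹ • σ}

variable {g}

theorem coe_smul_vec {ι : Type} {s : Finset (Fin X.n)} (a : X.A s) (x : ι → M) :
    a • x = (a : M) • x := rfl

theorem gen_mem {E : Obj A.cr} (s : X.Idx) {m : ℤ} {σ : E.ι → M} (h : σ ∈ Gam E m) :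
    (g.fp s ^ m)⁻¹ • σ ∈ aM g E s := Submodule.subset_span ⟨m, σ, h, rfl⟩

theorem smul_mem_aM {E : Obj A.cr} {s : X.Idx} {a : M} (ha : a ∈ X.A s.1) {x : E.ι → M}
    (hx : x ∈ aM g E s) : a • x ∈ aM g E s := Submodule.smul_mem _ (⟨a, ha⟩ : X.A s.1) hx

theorem aM_ind {E : Obj A.cr} {s : X.Idx} {P : (E.ι → M) → Prop}
    (h1 : ∀ m, ∀ σ ∈ Gam E m, P ((g.fp s ^ m)⁻¹ • σ)) (h0 : P 0)
    (h2 : ∀ x y, P x → P y → P (x + y)) (h3 : ∀ a ∈ X.A s.1, ∀ x, P x → P (a • x))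
    {x : E.ι → M} (hx : x ∈ aM g E s) : P x := by
  induction hx using Submodule.span_induction with
  | mem x hx => obtain ⟨m, σ, h, rfl⟩ := hx; exact h1 m σ h
  | zero => exact h0
  | add x y _ _ hx hy => exact h2 x y hx hy
  | smul a x _ hx => exact h3 a a.2 x hx

theorem gen_eq {ι : Type} (s t : X.Idx) (m : ℤ) (σ : ι → M) :
    (g.fp s ^ m)⁻¹ • σ = (g.fp t ^ m / g.fp s ^ m) • (g.fp t ^ m)⁻¹ • σ := by
  have := zpow_ne_zero m (g.fp_ne t)
  rw [smul_smul]; congr 1; field_simp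

theorem aM_mono {E : Obj A.cr} {s t : X.Idx} (h : s ≤ t) {x : E.ι → M} (hx : x ∈ aM g E s) :
    x ∈ aM g E t := by
  refine aM_ind (P := (· ∈ aM g E t)) (fun m σ hσ => ?_) (zero_mem _) (fun _ _ => add_mem)
    (fun a ha x => smul_mem_aM (X.A_mono h ha)) hx
  rw [gen_eq s t]
  refine smul_mem_aM ?_ (gen_mem t hσ)
  simpa [div_eq_mul_inv, mul_comm] using ((g ^ m)⁻¹.tr h).2

theorem aM_den {E : Obj A.cr} {s t : X.Idx} (h : s ≤ t) {y : E.ι → M} (hy : y ∈ aM g E t) :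
    ∃ a : X.A s.1, IsUnit (X.inc h a) ∧ (a : M) • y ∈ aM g E s := by
  have key : ∀ c ∈ X.A t.1, ∀ x, (∃ a : X.A s.1, IsUnit (X.inc h a) ∧ (a : M) • x ∈ aM g E s) →
      ∃ a : X.A s.1, IsUnit (X.inc h a) ∧ (a : M) • c • x ∈ aM g E s := by
    rintro c hc x ⟨a, ha, hx⟩
    obtain ⟨b, d, hb, e⟩ := X.exists_denominator h ⟨c, hc⟩
    have e' : (b : M) * c = d := by simpa using congrArg Subtype.val e
    refine ⟨b * a, by rw [map_mul]; exact hb.mul ha, ?_⟩
    rw [smul_smul, MulMemClass.coe_mul, mul_right_comm, e', mul_smul]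
    exact smul_mem_aM d.2 hx
  refine aM_ind (P := fun y => ∃ a : X.A s.1, IsUnit (X.inc h a) ∧ (a : M) • y ∈ aM g E s)
    (fun m σ hσ => ?_) ⟨1, by simp, by simp⟩ ?_ key hy
  · rw [gen_eq t s]
    refine key _ (by simpa using ((g ^ m).tr h).2) _ ⟨1, by simp, ?_⟩
    rw [OneMemClass.coe_one, one_smul]; exact gen_mem s hσ
  · rintro x y ⟨a, ha, hx⟩ ⟨b, hb, hy⟩
    refine ⟨a * b, by rw [map_mul]; exact ha.mul hb, ?_⟩
    rw [MulMemClass.coe_mul, smul_add]
    refine add_mem ?_ (by rw [mul_smul]; exact smul_mem_aM a.2 hy)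
    rw [mul_comm, mul_smul]; exact smul_mem_aM b.2 hx

theorem aM_map {E F : Obj A.cr} (u : E ⟶ F) {s : X.Idx} {x : E.ι → M} (hx : x ∈ aM g E s) :
    mM u *ᵥ x ∈ aM g F s := by
  refine aM_ind (P := fun x => mM u *ᵥ x ∈ aM g F s) (fun m σ hσ => ?_) ?_ (fun x y hx hy => ?_)
    (fun a ha x hx => ?_) hx
  · rw [mulVec_smul]; exact gen_mem s (Gam_map u hσ)
  · rw [mulVec_zero]; exact zero_mem _
  · rw [mulVec_add]; exact add_mem hx hy
  · rw [mulVec_smul]; exact smul_mem_aM ha hx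

theorem aM_tw1 {E : Obj A.cr} {a : ℤ} {s : X.Idx} {x : E.ι → M} (hx : x ∈ aM g (twObj a E) s) :
    (g.fp s ^ a)⁻¹ • x ∈ aM g E s := by
  have h0 := g.fp_ne s
  refine aM_ind (E := twObj a E) (P := fun x => (g.fp s ^ a)⁻¹ • x ∈ aM g E s)
    (fun m σ hσ => ?_) ?_ (fun x y hx hy => ?_) (fun c hc x hx => ?_) hx
  · rw [smul_smul, ← mul_inv, ← zpow_add₀ h0]
    exact gen_mem s ((Gam_tw E rfl).le hσ)
  · rw [smul_zero]; exact zero_mem _
  · rw [smul_add]; exact add_mem hx hy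
  · rw [smul_comm]; exact smul_mem_aM hc hx

theorem aM_tw2 {E : Obj A.cr} (a : ℤ) {s : X.Idx} {x : E.ι → M} (hx : x ∈ aM g E s) :
    g.fp s ^ a • x ∈ aM g (twObj a E) s := by
  have h0 := g.fp_ne s
  refine aM_ind (E := E) (P := fun x : E.ι → M => g.fp s ^ a • x ∈ aM g (twObj a E) s)
    (fun m σ hσ => ?_) ?_ (fun x y hx hy => ?_) (fun c hc x hx => ?_) hx
  · have e : g.fp s ^ a * (g.fp s ^ m)⁻¹ = (g.fp s ^ (m - a))⁻¹ := by
      rw [zpow_sub₀ h0, inv_div, div_eq_mul_inv]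
    have h1 : σ ∈ Gam (twObj a E) (m - a) := (Gam_tw E (by omega : a + (m - a) = m)).ge hσ
    rw [smul_smul, e]
    exact gen_mem (E := twObj a E) s h1
  · rw [smul_zero]; exact zero_mem _
  · rw [smul_add]; exact add_mem hx hy
  · rw [smul_comm]; exact smul_mem_aM (E := twObj a E) hc hx

theorem aM_tw {E : Obj A.cr} {a : ℤ} {s : X.Idx} {x : E.ι → M} :
    x ∈ aM g (twObj a E) s ↔ (g.fp s ^ a)⁻¹ • x ∈ aM g E s :=
  ⟨aM_tw1, fun hx => by
    have := aM_tw2 a hx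
    rwa [smul_inv_smul₀ (zpow_ne_zero a (g.fp_ne s))] at this⟩

/-- The cocycle `g` consists of invariant theta functions of degree one, and some base point free
family of them is regular for `g`. -/
structure Ok (A : Sf) {X : ProjVar ℂ M} (g : Cy X) : Prop where
  inv : ∀ s : X.Idx, ∃ y : Ent, y.1 ∈ Inv A.cr 1 ∧ g.fp s = emb y
  bpf : ∃ (r : ℕ) (y : Fin r → Ent), (∀ i, (y i).1 ∈ Inv A.cr 1) ∧ (∀ z, ∃ i, (y i).1 z ≠ 0) ∧
    ∀ i s, emb (y i) / g.fp s ∈ X.A s.1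

theorem aM_fg (hg : Ok A g) (E : Obj A.cr) (s : X.Idx) : Module.Finite (X.A s.1) (aM g E s) := by
  obtain ⟨r, y, hy, h0, hr⟩ := hg.bpf
  obtain ⟨c, hc⟩ := Th.ISec_gen (fun i => (y i).1) hy h0 E
  obtain ⟨y0, hy0, e0⟩ := hg.inv s
  have hne := g.fp_ne s
  obtain ⟨T, hT⟩ : (Gam E c).FG := Module.Finite.iff_fg.1 inferInstance
  set N := Submodule.span (X.A s.1) ((fun σ => (g.fp s ^ c)⁻¹ • σ) '' (T : Set (E.ι → M)))
  have hN : ∀ a ∈ X.A s.1, ∀ x ∈ N, a • x ∈ N := fun a ha x hx =>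
    Submodule.smul_mem _ (⟨a, ha⟩ : X.A s.1) hx
  have h1 : ∀ σ ∈ Gam E c, (g.fp s ^ c)⁻¹ • σ ∈ N := fun σ hσ => by
    rw [← hT] at hσ
    induction hσ using Submodule.span_induction with
    | mem x hx => exact Submodule.subset_span ⟨x, hx, rfl⟩
    | zero => rw [smul_zero]; exact zero_mem _
    | add x y _ _ hx hy => rw [smul_add]; exact add_mem hx hy
    | smul a x _ hx => rw [smul_comm]; exact Submodule.smul_of_tower_mem _ a hx
  have h2 : ∀ m, ∀ σ ∈ Gam E m, (g.fp s ^ m)⁻¹ • σ ∈ N := fun m => by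
    induction m using Int.inductionOn' (b := c) with
    | zero => exact h1
    | succ m hm ih =>
      intro σ hσ
      obtain ⟨t, ht, rfl⟩ := mem_Gam.1 hσ
      obtain ⟨q, hq, e⟩ := hc m hm t ht
      have e1 : vM t (ISec.diff ht) = ∑ i, emb (y i) • vM (q i) (ISec.diff (hq i)) := by
        funext j
        rw [Finset.sum_apply]
        exact emb_eq_sum ⟨_, ISec.diff ht j⟩ y (fun i => ⟨_, ISec.diff (hq i) j⟩) fun z =>
          (congrFun (e z) j).trans (Finset.sum_apply j Finset.univ fun i => (y i).1 z • q i z)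
      rw [e1, Finset.smul_sum]
      refine Submodule.sum_mem _ fun i _ => ?_
      rw [smul_smul, show (g.fp s ^ (m + 1))⁻¹ * emb (y i) =
        emb (y i) / g.fp s * (g.fp s ^ m)⁻¹ by rw [zpow_add_one₀ hne]; field_simp, mul_smul]
      exact hN _ (hr i s) _ (ih _ (mem_Gam.2 ⟨_, hq i, rfl⟩))
    | pred m _ ih =>
      intro σ hσ
      have := ih _ (Gam_smul (sub_add_cancel m 1) hy0 hσ)
      rwa [smul_smul, ← e0, show (g.fp s ^ m)⁻¹ * g.fp s = (g.fp s ^ (m - 1))⁻¹ by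
        rw [zpow_sub_one₀ hne]; field_simp] at this
  have e : aM g E s = N := le_antisymm (Submodule.span_le.2 (by
    rintro _ ⟨m, σ, h, rfl⟩; exact h2 m σ h)) (Submodule.span_mono (by
    rintro _ ⟨σ, h, rfl⟩; exact ⟨c, σ, hT ▸ Submodule.subset_span h, rfl⟩))
  rw [e]
  exact Module.Finite.span_of_finite _ (T.finite_toSet.image _)

attribute [irreducible] aM

/-- Restriction of sections is the inclusion. -/
def aRes (E : Obj A.cr) {s t : X.Idx} (h : s ≤ t) : aM g E s →+ aM g E t where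
  toFun x := ⟨x.1, aM_mono h x.2⟩
  map_zero' := Subtype.ext rfl
  map_add' _ _ := Subtype.ext rfl

@[simp] theorem coe_aRes {E : Obj A.cr} {s t : X.Idx} (h : s ≤ t) (x : aM g E s) :
    (aRes E h x : E.ι → M) = x := Subtype.coe_mk _ (aM_mono h x.2)

theorem coe_aM_smul {E : Obj A.cr} {s : X.Idx} (a : X.A s.1) (x : aM g E s) :
    ((a • x : aM g E s) : E.ι → M) = (a : M) • x.1 := rfl

attribute [irreducible] aRes

/-- The coherent sheaf of a theta bundle. -/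
@[reducible] def aObj (hg : Ok A g) (E : Obj A.cr) : Coh X where
  obj s := aM g E s
  res h := aRes E h
  res_smul h a x := Subtype.ext (by
    rw [coe_aRes, coe_aM_smul, coe_aM_smul, coe_aRes, X.coe_inc])
  res_refl x := Subtype.ext (coe_aRes le_rfl x)
  res_res h h' x := Subtype.ext (by rw [coe_aRes, coe_aRes, coe_aRes])
  fg := aM_fg hg E
  surj h y := by
    obtain ⟨a, ha, hy⟩ := aM_den h y.2
    exact ⟨a, ⟨_, hy⟩, ha, Subtype.ext (by rw [coe_aRes, coe_aM_smul, X.coe_inc])⟩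
  inj h x hx := ⟨1, by rw [map_one]; exact isUnit_one, by
    have h1 : x.1 = 0 := (coe_aRes h x).symm.trans (congrArg Subtype.val hx)
    rw [one_smul]; exact Subtype.ext h1⟩

/-- The map on sections. -/
def aApp {E F : Obj A.cr} (u : E ⟶ F) (s : X.Idx) : aM g E s →ₗ[X.A s.1] aM g F s where
  toFun x := ⟨mM u *ᵥ x.1, aM_map u x.2⟩
  map_add' x y := Subtype.ext (mulVec_add (mM u) x.1 y.1)
  map_smul' a x := Subtype.ext (mulVec_smul (mM u) (a : M) x.1)

@[simp] theorem coe_aApp {E F : Obj A.cr} (u : E ⟶ F) (s : X.Idx) (x : aM g E s) :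
    (aApp u s x : F.ι → M) = mM u *ᵥ x.1 := Subtype.coe_mk _ (aM_map u x.2)

attribute [irreducible] aApp

/-- The functor. -/
@[reducible] def al (hg : Ok A g) : Obj A.cr ⥤ Coh X where
  obj := aObj hg
  map u := ⟨aApp u, fun h x => Subtype.ext (by
    change (aApp u _ (aRes _ h x)).1 = (aRes _ h (aApp u _ x)).1
    rw [coe_aApp, coe_aRes, coe_aRes, coe_aApp])⟩
  map_id E := Coh.hom_ext fun s x => Subtype.ext (by
    change (aApp (𝟙 E) s x).1 = x.1
    rw [coe_aApp, mM_id, one_mulVec])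
  map_comp u v := Coh.hom_ext fun s x => Subtype.ext (by
    change (aApp (u ≫ v) s x).1 = (aApp v s (aApp u s x)).1
    rw [coe_aApp, coe_aApp, coe_aApp, mM_comp, mulVec_mulVec])

theorem al_map_app (hg : Ok A g) {E F : Obj A.cr} (u : E ⟶ F) (s : X.Idx) (x : aM g E s) :
    ((al hg).map u).app s x = aApp u s x := rfl

instance (hg : Ok A g) : (al hg).Additive where
  map_add {E F u v} := Coh.hom_ext fun s x => Subtype.ext (by
    change (aApp (u + v) s x).1 = (aApp u s x).1 + (aApp v s x).1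
    rw [coe_aApp, coe_aApp, coe_aApp, mM_add, add_mulVec])

end

end Pool.Agent.Lib.MP_d3d358_ag.Bkr
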