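import Mathlib

/-! Objects of an abelian category that lie in a thick subcategory of the derived category. -/

set_option autoImplicit false

open CategoryTheory Limits Abelian

namespace Pool.Agent.Lib.MP_d3d358_ag.Bkr

variable {C : Type 1} [Category.{0} C] [Abelian C] [HasDerivedCategory.{1} C]

/-- `N` lies in the subcategory `P` of the derived category. -/
def InP (P : ObjectProperty (DerivedCategory C)) (N : C) : Prop :=
  P ((DerivedCategory.singleFunctor C 0).obj N)

variable {P : ObjectProperty (DerivedCategory C)} [P.IsTriangulated] [P.IsStableUnderRetracts]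

omit [P.IsTriangulated] in
theorem InP.retract {M N : C} (a : M ⟶ N) (b : N ⟶ M) (hab : a ≫ b = 𝟙 M) (h : InP P N) :
    InP P M :=
  P.prop_of_retract (Retract.map ⟨a, b, hab⟩ (DerivedCategory.singleFunctor C 0)) h

omit [P.IsTriangulated] in
theorem InP.of_iso {M N : C} (e : M ≅ N) (h : InP P M) : InP P N :=
  InP.retract e.inv e.hom e.inv_hom_id h

theorem InP.of_isZero {M : C} (h : IsZero M) : InP P M :=
  P.prop_of_isZero ((DerivedCategory.singleFunctor C 0).map_isZero h)

theorem InP.mid {S : ShortComplex C} (hS : S.ShortExact) (h1 : InP P S.X₁) (h3 : InP P S.X₃) :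
    InP P S.X₂ :=
  P.ext_of_isTriangulatedClosed₂ _ hS.singleTriangle_distinguished h1 h3

theorem InP.left {S : ShortComplex C} (hS : S.ShortExact) (h2 : InP P S.X₂) (h3 : InP P S.X₃) :
    InP P S.X₁ :=
  P.ext_of_isTriangulatedClosed₁ _ hS.singleTriangle_distinguished h2 h3

theorem InP.right {S : ShortComplex C} (hS : S.ShortExact) (h1 : InP P S.X₁) (h2 : InP P S.X₂) :
    InP P S.X₃ :=
  P.ext_of_isTriangulatedClosed₃ _ hS.singleTriangle_distinguished h1 h2

theorem InP.dec {N : C} {I : Type} [Fintype I] {F : I → C} (a : ∀ x, N ⟶ F x) (b : ∀ x, F x ⟶ N)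
    (hab : ∑ x, a x ≫ b x = 𝟙 N) (h : ∀ x, InP P (F x)) : InP P N := by
  classical
  have key : ∀ s : Finset I, ∃ (M : C) (a' : N ⟶ M) (b' : M ⟶ N), InP P M ∧
      a' ≫ b' = ∑ x ∈ s, a x ≫ b x := fun s => by
    induction s using Finset.induction_on with
    | empty => exact ⟨(⊤_ C), 0, 0, InP.of_isZero terminalIsTerminal.isZero, by simp⟩
    | insert x s hx ih =>
      obtain ⟨M, a', b', hM, e⟩ := ih
      exact ⟨F x ⊞ M, biprod.lift (a x) a', biprod.desc (b x) b',
        InP.mid (ShortComplex.Splitting.ofHasBinaryBiproduct (F x) M).shortExact (h x) hM,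
        by rw [biprod.lift_desc, e, Finset.sum_insert hx]⟩
  obtain ⟨M, a', b', hM, e⟩ := key Finset.univ
  exact InP.retract a' b' (e.trans hab) hM

/-- An object with a resolution by objects of the thick subcategory lies in it, as soon as the
extension group towards a far syzygy vanishes. -/
theorem InP.of_syzygy [HasExt.{1} C] (Z Q : ℕ → C) (i : ∀ n, Z (n + 1) ⟶ Q n)
    (p : ∀ n, Q n ⟶ Z n) (w : ∀ n, i n ≫ p n = 0)
    (hS : ∀ n, (ShortComplex.mk (i n) (p n) (w n)).ShortExact) (hP : ∀ n, InP P (Q n)) (m : ℕ)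
    (h : Subsingleton (Ext (Z 0) (Z m) m)) : InP P (Z 0) := by
  have key : ∀ n : ℕ, ∃ x : Ext (Z 0) (Z n) n, P.trW x.hom := fun n => by
    induction n with
    | zero =>
      refine ⟨Ext.mk₀ (𝟙 _), ?_⟩
      rw [Ext.mk₀_hom, ShiftedHom.mk₀]
      exact P.trW_of_isIso _
    | succ n ih =>
      obtain ⟨x, hx⟩ := ih
      have e : P.trW (hS n).extClass.hom := by
        rw [(hS n).extClass_hom]
        exact ObjectProperty.trW.mk' P (Pretriangulated.rot_of_distTriang _
          (hS n).singleTriangle_distinguished) (hP n)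
      refine ⟨x.comp (hS n).extClass rfl, ?_⟩
      have := Ext.comp_hom x (hS n).extClass rfl
      exact this ▸ P.trW.comp_mem _ _ hx (P.trW.comp_mem _ _ (e.shift _) (P.trW_of_isIso _))
  obtain ⟨x, hx⟩ := key m
  rw [Subsingleton.elim x 0, Ext.zero_hom, ObjectProperty.trW_iff'] at hx
  obtain ⟨X, f, g, hT, hX⟩ := hx
  obtain ⟨r, hr⟩ := Pretriangulated.Triangle.coyoneda_exact₂ _ hT (𝟙 _) comp_zero
  exact P.prop_of_retract ⟨r, f, hr.symm⟩ hX

/-- The same with a coresolution. -/
theorem InP.of_cosyzygy [HasExt.{1} C] (Z Q : ℕ → C) (i : ∀ n, Z n ⟶ Q n)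
    (p : ∀ n, Q n ⟶ Z (n + 1)) (w : ∀ n, i n ≫ p n = 0)
    (hS : ∀ n, (ShortComplex.mk (i n) (p n) (w n)).ShortExact) (hP : ∀ n, InP P (Q n)) (m : ℕ)
    (h : Subsingleton (Ext (Z m) (Z 0) m)) : InP P (Z 0) := by
  have key : ∀ n : ℕ, ∃ x : Ext (Z n) (Z 0) n, P.trW x.hom := fun n => by
    induction n with
    | zero =>
      refine ⟨Ext.mk₀ (𝟙 _), ?_⟩
      rw [Ext.mk₀_hom, ShiftedHom.mk₀]
      exact P.trW_of_isIso _
    | succ n ih =>
      obtain ⟨x, hx⟩ := ih
      have e : P.trW (hS n).extClass.hom := by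
        rw [(hS n).extClass_hom]
        exact ObjectProperty.trW.mk' P (Pretriangulated.rot_of_distTriang _
          (hS n).singleTriangle_distinguished) (hP n)
      refine ⟨(hS n).extClass.comp x (add_comm 1 n), ?_⟩
      have := Ext.comp_hom (hS n).extClass x (add_comm 1 n)
      exact this ▸ P.trW.comp_mem _ _ e (P.trW.comp_mem _ _ (hx.shift _) (P.trW_of_isIso _))
  obtain ⟨x, hx⟩ := key m
  rw [Subsingleton.elim x 0, Ext.zero_hom, ObjectProperty.trW_iff] at hx
  obtain ⟨X, f, g, hT, hX⟩ := hx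
  obtain ⟨r, hr⟩ := Pretriangulated.Triangle.yoneda_exact₂ _ hT (𝟙 _) zero_comp
  have h1 : P (((DerivedCategory.singleFunctor C 0).obj (Z 0))⟦(m : ℤ)⟧) :=
    P.prop_of_retract ⟨f, r, hr.symm⟩ hX
  exact P.prop_of_iso ((shiftEquiv _ (m : ℤ)).unitIso.app _).symm (P.le_shift (-(m : ℤ)) _ h1)

open DerivedCategory in
theorem InP.bounded (h : ∀ N : C, InP P N) (Y : DerivedCategory C)
    (hY : ∃ a b : ℤ, Y.IsGE a ∧ Y.IsLE b) : P Y := by
  have one : ∀ (a : ℤ) (Y : DerivedCategory C), Y.IsGE a → Y.IsLE a → P Y := by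
    intro a Y _ _
    obtain ⟨N, ⟨e⟩⟩ := Y.exists_iso_singleFunctor_obj_of_isGE_of_isLE a
    exact P.prop_of_iso (((singleFunctors C).shiftIso (-a) a 0 (neg_add_cancel a)).app N ≪≫
      e.symm) (P.le_shift (-a) _ (h N))
  obtain ⟨a, b, ha, hb⟩ := hY
  have key : ∀ (d : ℕ) (Y : DerivedCategory C), Y.IsGE a → Y.IsLE (a + d) → P Y := by
    intro d
    induction d with
    | zero => exact fun Y h1 h2 => one a Y h1 (by simpa using h2)
    | succ d ih =>
      intro Y h1 h2
      refine P.ext_of_isTriangulatedClosed₂ _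
        (TStructure.t.triangleLTGE_distinguished (a + (d + 1 : ℕ)) Y) (ih _ ?_ ?_)
        (one (a + (d + 1 : ℕ)) _ ?_ ?_)
      · exact inferInstanceAs (TStructure.t.IsGE ((TStructure.t.truncLT _).obj Y) a)
      · exact TStructure.t.isLE_truncLT_obj Y _ _ (by lia)
      · exact TStructure.t.isGE_truncGE_obj Y _ _ le_rfl
      · exact inferInstanceAs (TStructure.t.IsLE ((TStructure.t.truncGE _).obj Y) _)
  exact key (b - a).toNat Y ha (TStructure.t.isLE_of_le Y b _ (by lia))

end Pool.Agent.Lib.MP_d3d358_ag.Bkr
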