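import Pool.Agent.Lib.MP_d3d358_ag.Bkr.Wn
import Pool.Agent.Lib.MP_d3d358_ag.Bkr.Thk
import Pool.Agent.Lib.MP_d3d358_ag.Th.HDefs
import Pool.Agent.Lib.MP_d3d358_ag.G.CohLin

/-! The structure `BKR` on coherent sheaves from a functor that is compatible with the twist by a
line bundle: the natural maps, the vanishing `B3`, and the translation of `B2` and `B4`. -/

set_option autoImplicit false

open CategoryTheory Limits Abelian

namespace Pool.Agent.Lib.MP_d3d358_ag.Bkr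

open Pool.Agent.Lib.MP_cd184e_ag.T Pool.Agent.Lib.MP_cd184e_ag.T.Coh
open Pool.Agent.Lib.MP_d3d358_ag.K Pool.Agent.Lib.MP_d3d358_ag.K.Cy

section Gen

variable {k K : Type} [Field k] [Field K] [Algebra k K] {X : ProjVar k K}

/-- Multiplication by a section of the line bundle `H`, as a natural transformation. -/
noncomputable def muN {r : K} {H : Cy X} (hr : Reg r 1 H) : 𝟭 (Coh X) ⟶ twc H where
  app N := (twc1 N).inv ≫ muc N hr
  naturality _ _ φ := hom_ext fun s x => ((φ.app s).map_smul (hr.sec s) x).symm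

theorem muN_app {r : K} {H : Cy X} (hr : Reg r 1 H) (N : Coh X) (s : X.Idx) (x : N.obj s) :
    ((muN hr).app N).app s x = hr.sec s • x := rfl

theorem npow_inj {r : K} {H : Cy X} (hr : Reg r 1 H) (M : Coh X) {s : X.Idx}
    (hu : IsUnit (hr.sec s)) (m : ℕ) : Function.Injective ((Th.npow (muN hr) M m).app s) := by
  induction m with
  | zero => exact fun _ _ h => h
  | succ m ih =>
    have : Function.Injective (((muN hr).app ((Th.pw (twc H) m).obj M)).app s) :=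
      fun x y h => hu.smul_left_cancel.1 h
    exact this.comp ih

/-- A sheaf that is killed by powers of sections one of which is a unit on each chart is zero. -/
theorem b3_of {I : Type} {f : I → K} {H : Cy X} (hf : ∀ i, Reg (f i) 1 H)
    (hu : ∀ j : X.J, ∃ i, IsUnit ((hf i).sec (X.one j))) (M : Coh X)
    (h : ∀ i, ∃ m, Th.npow (muN (hf i)) M m = 0) : IsZero M := by
  refine isZero_of (eq_zero_of_one fun j x => ?_)
  obtain ⟨i, hi⟩ := hu j
  obtain ⟨m, hm⟩ := h i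
  refine npow_inj (hf i) M hi m ?_
  rw [hm]; rfl

end Gen

open Th

variable {K : Type} [Field K] [Algebra ℂ K] {n : ℕ}

/-- A functor from theta bundles to coherent sheaves that is compatible with the twists. -/
structure Pre (C : Cr n) (X : ProjVar ℂ K) where
  α : Obj C ⥤ Coh X
  [add : α.Additive]
  [lin : α.Linear ℂ]
  [faith : α.Faithful]
  r : ℕ
  y : Fin r → (Fin n → ℂ) → ℂ
  y_mem : ∀ i, y i ∈ Inv C 1
  bpf : ∀ z, ∃ i, y i z ≠ 0
  H : Cy X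
  f : Fin r → K
  reg : ∀ i, Reg (f i) 1 H
  unit : ∀ j : X.J, ∃ i, IsUnit ((reg i).sec (X.one j))
  e : Th.tw C 1 ⋙ α ≅ α ⋙ twc H
  μ_α : ∀ i E, α.map ((nat (y i) (y_mem i)).app E) ≫ e.hom.app E = (muN (reg i)).app (α.obj E)

attribute [instance] Pre.add Pre.lin Pre.faith

namespace Pre

variable {C : Cr n} {X : ProjVar ℂ K} (Q : Pre C X)

/-- The sections as forms. -/
def fm (i : Fin Q.r) : Fm X := ⟨Q.f i, Q.H, Q.reg i⟩

/-- One step of the twist. -/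
noncomputable def step (E : Obj C) (b c : ℤ) (h : b + 1 = c) :
    Q.α.obj (Th.twObj c E) ≅ (twc Q.H).obj (Q.α.obj (Th.twObj b E)) :=
  Q.α.mapIso (Th.twtw E b 1 c h).symm ≪≫ Q.e.app (Th.twObj b E)

theorem nonempty_tw (E : Obj C) (b : ℤ) :
    Nonempty (Q.α.obj (Th.twObj b E) ≅ (twc (Q.H ^ b)).obj (Q.α.obj E)) := by
  induction b using Int.induction_on with
  | zero => exact ⟨Q.α.mapIso (Th.tw0 E).symm ≪≫ (twc1 _).symm ≪≫ eqToIso (by rw [zpow_zero])⟩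
  | succ b ih =>
    obtain ⟨ε⟩ := ih
    exact ⟨Q.step E b _ rfl ≪≫ (twc Q.H).mapIso ε ≪≫ twctwc _ _ _ _ (zpow_add_one _ _).symm⟩
  | pred b ih =>
    obtain ⟨ε⟩ := ih
    exact ⟨(twc1 _).symm ≪≫ (twctwc _ Q.H Q.H⁻¹ 1 (mul_inv_cancel _)).symm ≪≫
      (twc Q.H⁻¹).mapIso ((Q.step E (-b - 1) (-b) (by ring)).symm ≪≫ ε) ≪≫
      twctwc _ _ _ _ (zpow_sub_one _ _).symm⟩

/-- Multiplication by a power of a theta function is multiplication by the power of the form. -/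
theorem exists_pow (i : Fin Q.r) (E : Obj C) (b : ℤ) {N : Coh X} {a : Cy X}
    (ε : Q.α.obj (Th.twObj b E) ≅ (twc a).obj N) (m : ℕ) (c : ℤ) (h : b + m = c) (a' : Cy X)
    (ha : a' = a * (Q.fm i ^ m).d) :
    ∃ ε' : Q.α.obj (Th.twObj c E) ≅ (twc a').obj N,
      Q.α.map (mul E b c (Q.y i ^ m) (Inv.pow_mem (Q.y_mem i) m) h) ≫ ε'.hom =
        ε.hom ≫ (Q.fm i ^ m).mu N ha := by
  induction m generalizing c a' with
  | zero =>
    obtain rfl : b = c := by simpa using h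
    obtain rfl : a' = a := by simpa using ha
    have e1 : mul E b b (Q.y i ^ 0) (Inv.pow_mem (Q.y_mem i) 0) h = 𝟙 _ :=
      Th.hom_ext fun z => by simp
    have e2 : (Q.fm i ^ 0).mu N ha = 𝟙 _ := Coh.hom_ext fun s x => by
      rw [Fm.mu_app, pow_zero, Fm.one_sec, one_smul]; rfl
    exact ⟨ε, by rw [e1, e2, Q.α.map_id, Category.id_comp, Category.comp_id]⟩
  | succ m ih =>
    obtain ⟨ε₁, h₁⟩ := ih (b + m) rfl _ rfl
    have hc : b + m + 1 = c := by rw [← h]; push_cast; ring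
    have hH : a * (Q.fm i ^ m).d * Q.H = a' := by rw [ha, pow_succ, Fm.mul_d, mul_assoc]; rfl
    refine ⟨Q.step E (b + m) c hc ≪≫ (twc Q.H).mapIso ε₁ ≪≫ twctwc N _ _ _ hH, ?_⟩
    have e1 : mul E b c (Q.y i ^ (m + 1)) (Inv.pow_mem (Q.y_mem i) (m + 1)) h ≫
        (Th.twtw E (b + m) 1 c hc).inv =
        mul E b (b + m) (Q.y i ^ m) (Inv.pow_mem (Q.y_mem i) m) rfl ≫
          (nat (Q.y i) (Q.y_mem i)).app (Th.twObj (b + m) E) := Th.hom_ext fun z => by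
      change (1 : Matrix E.ι E.ι ℂ) * ((Q.y i ^ (m + 1)) z • (1 : Matrix E.ι E.ι ℂ)) =
        (Q.y i z • (1 : Matrix E.ι E.ι ℂ)) * ((Q.y i ^ m) z • (1 : Matrix E.ι E.ι ℂ))
      simp [smul_smul, pow_succ]
    have e2 : Q.α.map (mul E b c (Q.y i ^ (m + 1)) (Inv.pow_mem (Q.y_mem i) (m + 1)) h) ≫
        (Q.step E (b + m) c hc).hom =
        Q.α.map (mul E b (b + m) (Q.y i ^ m) (Inv.pow_mem (Q.y_mem i) m) rfl) ≫
          (muN (Q.reg i)).app (Q.α.obj (Th.twObj (b + m) E)) := by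
      rw [← Q.μ_α, ← Category.assoc, ← Q.α.map_comp, ← e1, Q.α.map_comp, Category.assoc]; rfl
    have e3 : (muN (Q.reg i)).app (Q.α.obj (Th.twObj (b + m) E)) ≫ (twc Q.H).map ε₁.hom =
        ε₁.hom ≫ (muN (Q.reg i)).app _ := ((muN (Q.reg i)).naturality ε₁.hom).symm
    have e4 : (Q.fm i ^ m).mu N rfl ≫ (muN (Q.reg i)).app _ ≫ (twctwc N _ _ _ hH).hom =
        (Q.fm i ^ (m + 1)).mu N ha := Coh.hom_ext fun s x => by
      rw [Fm.mu_app, pow_succ', Fm.mul_sec, mul_smul, ← Fm.mu_app (Q.fm i ^ m) N rfl]; rfl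
    rw [Iso.trans_hom, Iso.trans_hom, Functor.mapIso_hom, reassoc_of% e2, reassoc_of% e3,
      reassoc_of% h₁, e4]

/-- The translation of `B2`. -/
theorem b2_of {P : Coh X} (ε : Q.α.obj (F0 C) ≅ P) (i : Fin Q.r)
    (h : ∀ (a b : ℤ) (j : ℕ) (x : Ext ((twc (Q.H ^ a)).obj P) ((twc (Q.H ^ b)).obj P) (j + 1)),
      ∃ m : ℕ, (Q.fm i ^ m).ac x = 0) (a b : ℤ) (j : ℕ)
    (x : Ext (Q.α.obj (Th.twObj a (F0 C))) (Q.α.obj (Th.twObj b (F0 C))) (j + 1)) :
    ∃ m : ℕ, x.comp (Ext.mk₀ (Q.α.map (mul (F0 C) b (b + m) (Q.y i ^ m)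
      (Inv.pow_mem (Q.y_mem i) m) rfl))) (add_zero _) = 0 := by
  obtain ⟨εa⟩ := Q.nonempty_tw (F0 C) a
  obtain ⟨εb⟩ := Q.nonempty_tw (F0 C) b
  let ea := εa ≪≫ (twc _).mapIso ε
  let eb := εb ≪≫ (twc _).mapIso ε
  obtain ⟨m, hm⟩ := h a b j (po ((Ext.mk₀ ea.inv).comp x (zero_add _)) eb.hom)
  obtain ⟨ε', h'⟩ := Q.exists_pow i (F0 C) b eb m _ rfl _ rfl
  refine ⟨m, ?_⟩
  have h1 : po ((Ext.mk₀ ea.inv).comp x (zero_add _)) (Q.α.map (mul (F0 C) b (b + m) (Q.y i ^ m)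
      (Inv.pow_mem (Q.y_mem i) m) rfl)) = 0 := by
    rw [← po_id (po _ _), ← ε'.hom_inv_id, ← po_po, po_po _ _ ε'.hom, h', ← po_po]
    exact (congrArg (po · ε'.inv) hm).trans (zero_po _)
  have h2 : x = (Ext.mk₀ ea.hom).comp ((Ext.mk₀ ea.inv).comp x (zero_add _)) (zero_add _) := by
    rw [Ext.mk₀_comp_mk₀_assoc, ea.hom_inv_id, Ext.mk₀_id_comp]
  rw [h2, Ext.comp_assoc_of_third_deg_zero]
  exact (congrArg (fun w => (Ext.mk₀ ea.hom).comp w (zero_add _)) h1).trans (Ext.comp_zero ..)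

/-- The translation of `B4`. -/
theorem b4_of {P : Coh X} (ε : Q.α.obj (F0 C) ≅ P)
    (h : ∀ (T : ObjectProperty (DerivedCategory (Coh X))) [T.IsTriangulated]
      [T.IsStableUnderRetracts], (∀ a : ℤ, InP T ((twc (Q.H ^ a)).obj P)) →
      ∀ Z, DerivedCategory.TStructure.t.bounded Z → T Z)
    (Z : DerivedCategory (Coh X)) (hZ : DerivedCategory.TStructure.t.bounded Z) :
    ObjectProperty.triangEnvelope (fun W => ∃ a : ℤ,
      W = (DerivedCategory.singleFunctor (Coh X) 0).obj (Q.α.obj (Th.twObj a (F0 C)))) Z := by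
  let S : ObjectProperty (DerivedCategory (Coh X)) := fun W => ∃ a : ℤ,
    W = (DerivedCategory.singleFunctor (Coh X) 0).obj (Q.α.obj (Th.twObj a (F0 C)))
  have : S.Nonempty := ⟨_, 0, rfl⟩
  refine h S.triangEnvelope (fun a => ?_) Z hZ
  obtain ⟨εa⟩ := Q.nonempty_tw (F0 C) a
  exact InP.of_iso (εa ≪≫ (twc _).mapIso ε) (S.le_triangEnvelope _ ⟨a, rfl⟩)

/-- The structure `BKR` from the three statements on the sheaf `P`. -/
noncomputable def bkr {P : Coh X} (ε : Q.α.obj (F0 C) ≅ P)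
    (h1 : ∀ a b : ℤ, Function.Surjective
      (Q.α.map : (Th.twObj a (F0 C) ⟶ Th.twObj b (F0 C)) →
        (Q.α.obj (Th.twObj a (F0 C)) ⟶ Q.α.obj (Th.twObj b (F0 C)))))
    (h2 : ∀ (i : Fin Q.r) (a b : ℤ) (j : ℕ)
      (x : Ext ((twc (Q.H ^ a)).obj P) ((twc (Q.H ^ b)).obj P) (j + 1)),
      ∃ m : ℕ, (Q.fm i ^ m).ac x = 0)
    (h4 : ∀ (T : ObjectProperty (DerivedCategory (Coh X))) [T.IsTriangulated]
      [T.IsStableUnderRetracts], (∀ a : ℤ, InP T ((twc (Q.H ^ a)).obj P)) →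
      ∀ Z, DerivedCategory.TStructure.t.bounded Z → T Z) : BKR C (Coh X) where
  α := Q.α
  r := Q.r
  y := Q.y
  y_mem := Q.y_mem
  bpf := Q.bpf
  Tw := twc Q.H
  e := Q.e
  μ i := muN (Q.reg i)
  μ_α := Q.μ_α
  B1 := h1
  B2 a b i j x := Q.b2_of ε i (h2 i) a b j x
  B3 := b3_of Q.reg Q.unit
  B4 := Q.b4_of ε h4

end Pre

end Pool.Agent.Lib.MP_d3d358_ag.Bkr
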