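import Pool.Agent.Lib.MP_d3d358_ag.Bkr.Al
import Pool.Agent.Lib.MP_d3d358_ag.Bkr.TwMu
import Pool.Agent.Lib.MP_d3d358_ag.Var.QuoD
import Pool.Agent.Lib.MP_d3d358_ag.Var.MirrorK

/-! The functor of invariant sections is linear, faithful and compatible with the twists. -/

set_option autoImplicit false

namespace Pool.Agent.Lib.MP_d3d358_ag.Bkr

open CategoryTheory Limits Matrix
open Pool.Agent.Lib.MP_cd184e_ag.T Pool.Agent.Lib.MP_d3d358_ag.K Cy
open Pool.Agent.Lib.MP_d3d358_ag.G (Sf)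
open Pool.Agent.Lib.MP_d3d358_ag.Th (Obj ISec twObj Inv Theta)
open Pool.Agent.Lib.MP_d3d358_ag.Var (V M Ent emb Good gU fW idx emb_inj gv Lam)

noncomputable section

variable {A : Sf}

/-- At a free point the invariant sections of the twists take every value. -/
theorem exists_ISec (E : Obj A.cr) {z : V} (hz : z ∈ Var.Free (Lam A)) (x : E.ι → ℂ) :
    ∃ m, ∃ s ∈ ISec E m, s z = x := by
  classical
  obtain ⟨d, hd⟩ := Th.ev_surj A.cr.toLat (Fintype.card E.ι)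
  obtain ⟨c, hc⟩ := Th.exists_int_ge E d
  obtain ⟨s, hs, rfl⟩ := hd (twObj c E).toObjL le_rfl (hc c le_rfl) z x
  have h1 : ∀ g h : Var.G, gv g z - gv h z ∈ Lam A → g = h := fun g h e => by
    have := Var.gv_mem_Lam A g⁻¹ e
    rw [Var.gv_sub, Var.gv_inv_gv, ← Var.gv_mul] at this
    exact inv_mul_eq_one.1 (hz _ this)
  obtain ⟨m, hm⟩ := Var.exists_jets_R (A := A) (Finset.univ.image fun g : Var.G => gv g z) (by
    simp only [Finset.mem_image, Finset.mem_univ, true_and]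
    rintro _ ⟨g, rfl⟩ _ ⟨h, rfl⟩ e
    rw [h1 g h e])
  obtain ⟨F, hF, hv⟩ := hm m le_rfl (fun a => if a = z then 1 else 0) 0
  have hv' : ∀ g : Var.G, F.1 (gv g z) = if g = 1 then 1 else 0 := fun g => by
    rw [(hv _ (Finset.mem_image_of_mem _ (Finset.mem_univ g))).1]
    refine if_congr ⟨fun e => h1 g 1 ?_, fun e => by rw [e, Var.gv_one]⟩ rfl rfl
    rw [e, Var.gv_one, sub_self]; exact zero_mem _
  have hF' : F.1 ∈ Theta A.cr.toLat ((m : ℤ) * A.cr.k) := by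
    rw [Int.cast_natCast]; exact Var.mem_R.1 hF
  have hs' := Th.Sec.theta_smul (E := E) (a := c) (d := m) (b := c + m) rfl hF' hs
  refine ⟨c + m, _, ISec.sum hs', ?_⟩
  change ∑ g : Var.G, E.σ g *ᵥ F.1 (gv g⁻¹ z) • s (gv g⁻¹ z) = s z
  rw [Finset.sum_eq_single 1 (fun g _ hg => by
    rw [hv', if_neg (inv_ne_one.2 hg), zero_smul, mulVec_zero]) (by simp), hv', if_pos inv_one,
    one_smul, inv_one, Var.gv_one]
  exact (congrArg (· *ᵥ s z) E.σ_one).trans (one_mulVec _)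

theorem eq_of_Gam {E F : Obj A.cr} {u v : E ⟶ F}
    (h : ∀ m, ∀ σ ∈ Gam E m, mM u *ᵥ σ = mM v *ᵥ σ) : u = v := by
  refine Th.hom_ext fun z => Matrix.ext fun i j => ?_
  refine congrFun (Continuous.ext_on (Var.dense_free (L := Lam A)) (Th.val_diff u i j).continuous
    (Th.val_diff v i j).continuous fun w hw => ?_) z
  obtain ⟨m, s, hs, e⟩ := exists_ISec E hw (Pi.single j 1)
  have h1 := h m _ (mem_Gam.2 ⟨s, hs, rfl⟩)
  rw [mM_vM u s _ (ISec.diff (ISec.map u hs)), mM_vM v s _ (ISec.diff (ISec.map v hs))] at h1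
  have h2 : (Th.val u w *ᵥ s w) i = (Th.val v w *ᵥ s w) i :=
    congrFun (congrArg Subtype.val (emb_inj (congrFun h1 i))) w
  rw [e, mulVec_single_one, mulVec_single_one] at h2
  exact h2

variable {X : ProjVar ℂ M} {g : Cy X}

instance (hg : Ok A g) : (al hg).Linear ℂ where
  map_smul u c := Coh.hom_ext fun s x => Subtype.ext (by
    change (aApp (c • u) s x).1 = (algebraMap ℂ (X.A s.1) c • aApp u s x).1
    rw [coe_aM_smul, coe_aApp, coe_aApp, mM_smul, smul_mulVec]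
    exact (algebraMap_smul M c _).symm)

instance (hg : Ok A g) : (al hg).Faithful where
  map_injective {E F u v} h := eq_of_Gam fun m σ hσ => by
    obtain ⟨j, hj⟩ := X.nonempty
    have h1 : aApp u (X.one ⟨j, hj⟩) ⟨_, gen_mem _ hσ⟩ = aApp v (X.one ⟨j, hj⟩) ⟨_, gen_mem _ hσ⟩ :=
      LinearMap.congr_fun (congrFun (congrArg Coh.Hom.app h) (X.one ⟨j, hj⟩)) _
    have h2 := congrArg Subtype.val h1
    rw [coe_aApp, coe_aApp, mulVec_smul, mulVec_smul] at h2
    exact smul_right_injective _ (inv_ne_zero (zpow_ne_zero _ (g.fp_ne _))) h2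

theorem aM_tw_one {E : Obj A.cr} {s : X.Idx} {x : E.ι → M} (hx : x ∈ aM g (twObj 1 E) s) :
    (g.fp s)⁻¹ • x ∈ aM g E s := by simpa only [zpow_one] using aM_tw1 hx

theorem aM_tw_one' {E : Obj A.cr} {s : X.Idx} {x : E.ι → M} (hx : x ∈ aM g E s) :
    g.fp s • x ∈ aM g (twObj 1 E) s := by simpa only [zpow_one] using aM_tw2 1 hx

/-- Division by the generator. -/
def eHom (E : Obj A.cr) (s : X.Idx) : aM g (twObj 1 E) s →ₗ[X.A s.1] aM g E s where
  toFun x := ⟨(g.fp s)⁻¹ • x.1, aM_tw_one x.2⟩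
  map_add' x y := Subtype.ext (smul_add (g.fp s)⁻¹ x.1 y.1)
  map_smul' a x := Subtype.ext (smul_comm (g.fp s)⁻¹ (a : M) x.1)

theorem coe_eHom (E : Obj A.cr) (s : X.Idx) (x : aM g (twObj 1 E) s) :
    (eHom E s x : E.ι → M) = (g.fp s)⁻¹ • x.1 := Subtype.coe_mk _ (aM_tw_one x.2)

/-- Multiplication by the generator. -/
def eInv (E : Obj A.cr) (s : X.Idx) : aM g E s →ₗ[X.A s.1] aM g (twObj 1 E) s where
  toFun x := ⟨g.fp s • x.1, aM_tw_one' x.2⟩
  map_add' x y := Subtype.ext (smul_add (g.fp s) x.1 y.1)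
  map_smul' a x := Subtype.ext (smul_comm (g.fp s) (a : M) x.1)

theorem coe_eInv (E : Obj A.cr) (s : X.Idx) (x : aM g E s) :
    (eInv E s x : E.ι → M) = g.fp s • x.1 := Subtype.coe_mk _ (aM_tw_one' x.2)

attribute [irreducible] eHom eInv

theorem eHom_res (E : Obj A.cr) {s t : X.Idx} (h : s ≤ t) (x : aM g (twObj 1 E) s) :
    eHom E t (aRes (twObj 1 E) h x) = g.tr h • aRes E h (eHom E s x) := Subtype.ext (by
  rw [coe_aM_smul, coe_eHom, coe_aRes, coe_aRes, coe_eHom, coe_tr, smul_smul, div_eq_mul_inv,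
    mul_right_comm, mul_inv_cancel₀ (g.fp_ne s), one_mul])

theorem eInv_res (E : Obj A.cr) {s t : X.Idx} (h : s ≤ t) (x : aM g E s) :
    eInv E t (g.tr h • aRes E h x) = aRes (twObj 1 E) h (eInv E s x) := Subtype.ext (by
  rw [coe_eInv, coe_aM_smul, coe_aRes, coe_aRes, coe_eInv, coe_tr, smul_smul,
    mul_div_cancel₀ _ (g.fp_ne t)])

theorem eInv_eHom (E : Obj A.cr) (s : X.Idx) (x : aM g (twObj 1 E) s) :
    eInv E s (eHom E s x) = x :=
  Subtype.ext (by rw [coe_eInv, coe_eHom, smul_inv_smul₀ (g.fp_ne s)])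

theorem eHom_eInv (E : Obj A.cr) (s : X.Idx) (x : aM g E s) : eHom E s (eInv E s x) = x :=
  Subtype.ext (by rw [coe_eHom, coe_eInv, inv_smul_smul₀ (g.fp_ne s)])

theorem mM_tw {E F : Obj A.cr} (a : ℤ) (u : E ⟶ F) :
    mM (E := twObj a E) (F := twObj a F) ((Th.tw A.cr a).map u) = mM u :=
  Matrix.ext fun i j => (mM_apply _ i j).trans (mM_apply u i j).symm

theorem eHom_nat {E F : Obj A.cr} (u : E ⟶ F) (s : X.Idx) (x : aM g (twObj 1 E) s) :
    eHom F s (aApp (E := twObj 1 E) (F := twObj 1 F) ((Th.tw A.cr 1).map u) s x) =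
      aApp u s (eHom E s x) := Subtype.ext (by
  rw [coe_eHom, coe_aApp, coe_aApp, coe_eHom, mulVec_smul, mM_tw])

/-- The functor commutes with the twists. -/
def eIso (hg : Ok A g) : Th.tw A.cr 1 ⋙ al hg ≅ al hg ⋙ twc g :=
  NatIso.ofComponents (fun E =>
    { hom := ⟨eHom E, eHom_res E⟩
      inv := ⟨eInv E, eInv_res E⟩
      hom_inv_id := Coh.hom_ext (eInv_eHom E)
      inv_hom_id := Coh.hom_ext (eHom_eInv E) })
    fun u => Coh.hom_ext (eHom_nat u)

theorem eHom_nat_y {y : Ent} (hy : y.1 ∈ Inv A.cr 1) (hr : Reg (emb y) 1 g) (E : Obj A.cr)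
    (s : X.Idx) (x : aM g E s) :
    eHom E s (aApp (E := E) (F := twObj 1 E) ((Th.nat y.1 hy).app E) s x) = hr.sec s • x :=
  Subtype.ext (by
  have e : mM (E := E) (F := twObj 1 E) ((Th.nat y.1 hy).app E) =
      emb y • (1 : Matrix E.ι E.ι ℂ).map (algebraMap ℂ M) :=
    mM_of_val (E := E) (F := twObj 1 E) _ y (1 : Matrix E.ι E.ι ℂ) fun _ => rfl
  rw [coe_eHom, coe_aApp, coe_aM_smul, e, Matrix.map_one _ (map_zero _) (map_one _), smul_mulVec,
    one_mulVec, smul_smul, Reg.coe_sec, one_fp, mul_one, div_eq_inv_mul])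

/-- The functor with its twists, for a family `y` of sections of `g`. -/
@[reducible] def preOf (hg : Ok A g) {r : ℕ} (y : Fin r → Ent) (hy : ∀ i, (y i).1 ∈ Inv A.cr 1)
    (h0 : ∀ z, ∃ i, (y i).1 z ≠ 0) (hr : ∀ i, Reg (emb (y i)) 1 g)
    (hu : ∀ j : X.J, ∃ i, IsUnit ((hr i).sec (X.one j))) : Pre A.cr X where
  α := al hg
  r := r
  y i := (y i).1
  y_mem := hy
  bpf := h0
  H := g
  f i := emb (y i)
  reg := hr
  unit := hu
  e := eIso hg
  μ_α i E := Coh.hom_ext (eHom_nat_y (hy i) (hr i) E)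

theorem inv_of_U {F : Ent} (h : F ∈ Var.U A) : F.1 ∈ Inv A.cr 1 :=
  ⟨by simpa using Var.mem_R.1 h.1, fun g z => by
    have := congrFun (congrArg Subtype.val (h.2 g⁻¹)) z
    rwa [Ent.smul_apply, inv_inv] at this⟩

variable (hA : Good A) (T : Cy (Var.X hA)) (hT : ∀ i j h, T.l ⟨idx i j, h⟩ = emb (gU hA j))

theorem al_gU_ne (b : V) : ∃ j, (gU hA j).1 b ≠ 0 := by
  by_contra! h
  obtain ⟨F, hF, h0⟩ := hA.bpf b
  rw [← Var.span_gU hA] at hF
  refine h0 (Submodule.span_induction (p := fun F _ => F.1 b = 0) ?_ rfl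
    (fun _ _ _ _ hx hy => by rw [Ent.add_apply, hx, hy, add_zero])
    (fun _ _ _ hx => by rw [Ent.csmul_apply, hx, mul_zero]) hF)
  rintro _ ⟨j, rfl⟩; exact h j

include hT

theorem T_l (l : (Var.X hA).J) : ∃ i j, l.1 = idx i j ∧ T.l l = emb (gU hA j) := by
  obtain ⟨l, hl⟩ := l
  obtain ⟨i, j, rfl⟩ := Var.exists_idx l
  exact ⟨i, j, rfl, hT i j hl⟩

theorem reg_T (i : Fin (Var.nU A)) : Reg (emb (gU hA i)) 1 T := Reg.of_one fun l => by
  obtain ⟨a, j, e, h⟩ := T_l hA T hT l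
  have := (Var.X hA).div_mem (idx a i) (Finset.mem_singleton_self l.1)
  rw [Var.X_f] at this
  nth_rewrite 2 [e] at this
  rw [Var.X_f, map_mul, map_mul, mul_div_mul_left _ _ (Var.emb_ne (Var.fW_ne hA a))] at this
  rwa [one_l, mul_one, h]

theorem ok_T : Ok A T where
  inv s := by
    obtain ⟨_, j, -, h⟩ := T_l hA T hT ((Var.X hA).pt s)
    exact ⟨_, inv_of_U (Var.gU_mem hA j), h⟩
  bpf := ⟨_, gU hA, fun i => inv_of_U (Var.gU_mem hA i), al_gU_ne hA, fun i s => by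
    simpa using reg_T hA T hT i s⟩

theorem unit_T (l : (Var.X hA).J) : ∃ i, IsUnit ((reg_T hA T hT i).sec ((Var.X hA).one l)) := by
  obtain ⟨_, j, -, h⟩ := T_l hA T hT l
  refine ⟨j, ?_⟩
  rw [show (reg_T hA T hT j).sec ((Var.X hA).one l) = 1 from Subtype.ext (by
    rw [Reg.coe_sec, one_fp, mul_one, fp_one, h, div_self (Var.emb_ne (Var.gU_ne hA j))]; rfl)]
  exact isUnit_one

/-- The functor of invariant sections on the Kummer fourfold. -/
@[reducible] def preT : Pre A.cr (Var.X hA) :=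
  preOf (ok_T hA T hT) (gU hA) (fun i => inv_of_U (Var.gU_mem hA i)) (al_gU_ne hA) (reg_T hA T hT)
    (unit_T hA T hT)

end

end Pool.Agent.Lib.MP_d3d358_ag.Bkr
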