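import Pool.Agent.Lib.MP_d3d358_ag.Bkr.AlE0
import Pool.Agent.Lib.MP_d3d358_ag.Bkr.Al

/-! The sheaves of the twists of the regular object, inside the field of meromorphic functions. -/

set_option autoImplicit false

open CategoryTheory

namespace Pool.Agent.Lib.MP_d3d358_ag.K.AlE

open Pool.Agent.Lib.MP_cd184e_ag.T Cy Matrix
open Pool.Agent.Lib.MP_d3d358_ag.Var Pool.Agent.Lib.MP_d3d358_ag.Bkr
open Pool.Agent.Lib.MP_d3d358_ag.G (Sf lat3)
open Pool.Agent.Lib.MP_d3d358_ag.Th (Theta twObj F0 ISec_F0 homG val_homG_one)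

variable {A : Sf}

theorem mem_Gam_F0 {a m : ℤ} {σ : G → M} : σ ∈ Gam (twObj a (F0 A.cr)) m ↔
    ∃ θ : Ent, θ.1 ∈ Theta (lat3 A.toLat) ((a + m : ℤ) * A.k) ∧ σ = fun g => g • emb θ := by
  rw [Gam_tw (F0 A.cr) rfl]
  refine mem_Gam.trans ⟨?_, ?_⟩
  · rintro ⟨s, hs, rfl⟩
    obtain ⟨f, hf, rfl⟩ := ISec_F0.1 hs
    exact ⟨⟨f, hf.1⟩, hf, funext fun g => (smul_emb g ⟨f, hf.1⟩).symm⟩
  · rintro ⟨θ, hθ, rfl⟩
    exact ⟨_, ISec_F0.2 ⟨θ.1, hθ, rfl⟩, funext fun g => smul_emb g θ⟩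

variable {hA : Good A} {T : Cy (X hA)} (hT : ∀ i j h, T.l ⟨idx i j, h⟩ = emb (gU hA j))
include hT

theorem zdiv_mem_Sec {a m : ℤ} {θ : Ent}
    (hθ : θ.1 ∈ Theta (lat3 A.toLat) ((a + m : ℤ) * A.k)) (s : (X hA).Idx) :
    emb θ / T.fp s ^ m ∈ Sec ((R A 1).map emb.toLinearMap) T (T ^ a) s := by
  obtain ⟨i, j, -, e⟩ := exists_fp hT s
  obtain ⟨N, r, hr⟩ : ∃ N r : ℕ, m + N = r := ⟨(-m).toNat, m.toNat, by omega⟩
  have h := Th.Theta.mul_mem hθ (mem_R.1 (pow_mem_R (gU_mem hA j).1 N))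
  rw [← add_mul, mul_one, ← Int.cast_natCast N, ← Int.cast_add, add_assoc, hr] at h
  have h0 := T.fp_ne s
  have h1 := div_mem_Sec hT (θ := θ * gU hA j ^ N) h s
  rwa [map_mul, map_pow, ← e, ← zpow_natCast (T.fp s) r, ← hr, zpow_add₀ h0, zpow_natCast,
    mul_div_mul_right _ _ (pow_ne_zero _ h0)] at h1

theorem orb_div (m : ℤ) (s : (X hA).Idx) (y : M) :
    (T.fp s ^ m)⁻¹ • (fun g : G => g • y) = fun g : G => g • (y / T.fp s ^ m) := funext fun g => by
  have e : g • T.fp s ^ m = T.fp s ^ m :=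
    (map_zpow₀ (MulSemiringAction.toRingHom G M g) _ _).trans
      (congrArg (· ^ m) (smul_fp hT g s))
  rw [smul_div₀', e, Pi.smul_apply, smul_eq_mul, div_eq_inv_mul]

omit hT in
theorem orb_mul {s : (X hA).Idx} {c : M} (hc : c ∈ (X hA).A s.1) (y : M) :
    c • (fun g : G => g • y) = fun g : G => g • (c * y) := funext fun g => by
  rw [smul_mul', A_le_invM hA s.1 hc g, Pi.smul_apply, smul_eq_mul]

/-- The sections of a twist of the regular object are the orbits of the elements of the lattice. -/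
theorem mem_aM_F0 {a : ℤ} {s : (X hA).Idx} {x : G → M} : x ∈ aM T (twObj a (F0 A.cr)) s ↔
    ∃ z ∈ Sec ((R A 1).map emb.toLinearMap) T (T ^ a) s, x = fun g => g • z := by
  constructor
  · intro hx
    refine aM_ind (E := twObj a (F0 A.cr)) (P := fun x : G → M =>
      ∃ z ∈ Sec ((R A 1).map emb.toLinearMap) T (T ^ a) s, x = fun g => g • z)
      (fun m σ hσ => ?_) ⟨0, zero_mem _, funext fun g => (smul_zero g).symm⟩ ?_ ?_ hx
    · obtain ⟨θ, hθ, rfl⟩ := mem_Gam_F0.1 hσ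
      exact ⟨_, zdiv_mem_Sec hT hθ s, orb_div hT m s _⟩
    · rintro _ _ ⟨y, hy, rfl⟩ ⟨z, hz, rfl⟩
      exact ⟨y + z, add_mem hy hz, funext fun g => (smul_add g y z).symm⟩
    · rintro c hc _ ⟨y, hy, rfl⟩
      exact ⟨c * y, mul_mem_Sec hc hy, orb_mul hc y⟩
  · rintro ⟨z, hz, rfl⟩
    refine Sec_induction hT (P := fun z => (fun g : G => g • z) ∈ aM T (twObj a (F0 A.cr)) s)
      (fun m θ hθ c hc => ?_) (fun x y hx hy => ?_) hz
    · have h := smul_mem_aM hc (gen_mem (g := T) (E := twObj a (F0 A.cr)) s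
        (mem_Gam_F0.2 ⟨θ, hθ, rfl⟩))
      have e : c • (T.fp s ^ (m : ℤ))⁻¹ • (fun g : G => g • emb θ) =
          fun g : G => g • (c * (emb θ / T.fp s ^ m)) := by
        rw [orb_div hT, orb_mul hc, zpow_natCast]
      exact e ▸ h
    · have e : (fun g : G => g • x) + (fun g : G => g • y) = fun g : G => g • (x + y) :=
        funext fun g => (smul_add g x y).symm
      exact e ▸ add_mem hx hy

theorem aM_orb {a : ℤ} {s : (X hA).Idx} {x : G → M} (hx : x ∈ aM T (twObj a (F0 A.cr)) s)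
    (g : G) : x g = g • x 1 := by
  obtain ⟨z, -, rfl⟩ := (mem_aM_F0 hT).1 hx
  exact congrArg (g • ·) (one_smul G z).symm

omit hT in
/-- The coordinate of index `1`. -/
noncomputable def e1 (a : ℤ) (s : (X hA).Idx) : aM T (twObj a (F0 A.cr)) s →+ M :=
  AddMonoidHom.mk' (fun x => x.1 (1 : G)) fun _ _ => rfl

omit hT in
theorem e1_apply (a : ℤ) (s : (X hA).Idx) (x : aM T (twObj a (F0 A.cr)) s) :
    e1 a s x = x.1 (1 : G) := rfl

variable (hg : Ok A T)

/-- The sheaf of a twist of the regular object inside the field. -/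
noncomputable def embF0 (a : ℤ) : Emb ((al hg).obj (twObj a (F0 A.cr))) M where
  e := e1 a
  smul _ c x := congrFun (coe_aM_smul c x) (1 : G)
  res h x := congrFun (coe_aRes h x) (1 : G)
  inj _ x y h := Subtype.ext (funext fun g =>
    (aM_orb hT x.2 g).trans ((congrArg (g • ·) h).trans (aM_orb hT y.2 g).symm))

theorem embF0_e (a : ℤ) (s : (X hA).Idx) (x : aM T (twObj a (F0 A.cr)) s) :
    (embF0 hT hg a).e s x = x.1 (1 : G) := rfl

theorem embF0_im (a : ℤ) (s : (X hA).Idx) (z : M) :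
    z ∈ (embF0 hT hg a).Im s ↔ z ∈ Sec ((R A 1).map emb.toLinearMap) T (T ^ a) s := by
  constructor
  · rintro ⟨x, rfl⟩
    obtain ⟨z, hz, e⟩ := (mem_aM_F0 hT).1 x.2
    have e' : (embF0 hT hg a).e s x = z := (congrFun e 1).trans (one_smul G z)
    rwa [e']
  · intro hz
    exact ⟨⟨_, (mem_aM_F0 hT).2 ⟨z, hz, rfl⟩⟩, one_smul G z⟩

theorem embF0_map (a b : ℤ) (c : G → Ent)
    (hc : ∀ g, (c g).1 ∈ Theta A.cr.toLat ((b - a : ℤ) * A.cr.k)) :
    ∃ u : twObj a (F0 A.cr) ⟶ twObj b (F0 A.cr), ∀ s x,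
      (embF0 hT hg b).e s (((al hg).map u).app s x) =
        sumG (fun g => emb (c g)) ((embF0 hT hg a).e s x) := by
  refine ⟨homG a b (fun g => (c g).1) hc, fun s x => ?_⟩
  refine (congrFun (coe_aApp (homG a b (fun g => (c g).1) hc) s x) (1 : G)).trans ?_
  change ∑ g : G, mM (homG a b (fun g => (c g).1) hc) (1 : G) g * x.1 g =
    ∑ g : G, emb (c g) * g • x.1 (1 : G)
  refine Finset.sum_congr rfl fun g _ => ?_
  exact congrArg₂ (· * ·) (congrArg emb (Ent.ext fun z =>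
    val_homG_one (C := A.cr) a b (fun g => (c g).1) hc z g)) (aM_orb hT x.2 g)

end Pool.Agent.Lib.MP_d3d358_ag.K.AlE
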