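import Pool.Agent.Lib.MP_d3d358_ag.K.EmbS
import Pool.Agent.Lib.MP_d3d358_ag.Var.KD
import Pool.Agent.Lib.MP_d3d358_ag.Th.Split

/-! The scalar lattice of the regular object, and the morphisms between its twists. -/

set_option autoImplicit false

open CategoryTheory

namespace Pool.Agent.Lib.MP_d3d358_ag.Th

open Matrix

variable {n : ℕ} {C : Cr n}

theorem Theta.act {t : ℝ} {f : (Fin n → ℂ) → ℂ} (hf : f ∈ Theta C.toLat t) (g : C.G) :
    (fun z => f (C.act g z)) ∈ Theta C.toLat t :=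
  ⟨hf.1.comp (C.differentiable_act g), fun l hl z => by
    beta_reduce
    rw [map_add, hf.2 _ (C.act_mem g l hl), aut_act]⟩

/-- The morphism `F0(a) ⟶ F0(b)` whose first row is `c`. -/
noncomputable def homG (a b : ℤ) (c : C.G → (Fin n → ℂ) → ℂ)
    (hc : ∀ g, c g ∈ Theta C.toLat ((b - a : ℤ) * C.k)) : twObj a (F0 C) ⟶ twObj b (F0 C) :=
  ⟨fun z => of fun h g => c (h⁻¹ * g) (C.act h⁻¹ z),
    ⟨fun h g => (Theta.act (hc (h⁻¹ * g)) h⁻¹).1, fun l z => by
      rw [fac_F0, fac_F0, Matrix.mul_smul, Matrix.mul_one, Matrix.smul_mul, Matrix.one_mul]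
      ext h g
      have e := (Theta.act (hc (h⁻¹ * g)) h⁻¹).2 l l.2 z
      simp only [Matrix.smul_apply, of_apply, smul_eq_mul]
      beta_reduce at e
      rw [e, ← mul_assoc, ← aut_add]
      congr 2; push_cast; ring⟩, fun s z => by
      ext h g
      change ∑ x, c (h⁻¹ * x) (C.act h⁻¹ (C.act s z)) * regM s x g =
        ∑ x, regM s h x * c (x⁻¹ * g) (C.act x⁻¹ z)
      rw [Finset.sum_eq_single (s * g) (fun x _ hx => by simp [regM, hx]) (by simp),
        Finset.sum_eq_single (s⁻¹ * h) (fun x _ hx => by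
          have : h ≠ s * x := fun e => hx (by rw [e, inv_mul_cancel_left])
          simp [regM, this]) (by simp), _root_.mul_inv_rev, inv_inv, map_mul,
        LinearEquiv.mul_apply]
      simp [regM, mul_assoc]⟩

theorem val_homG_one (a b : ℤ) (c : C.G → (Fin n → ℂ) → ℂ)
    (hc : ∀ g, c g ∈ Theta C.toLat ((b - a : ℤ) * C.k)) (z : Fin n → ℂ) (g : C.G) :
    val (homG a b c hc) z (1 : C.G) g = c g z := by
  change c ((1 : C.G)⁻¹ * g) (C.act (1 : C.G)⁻¹ z) = c g z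
  rw [inv_one, one_mul, map_one]; rfl

end Pool.Agent.Lib.MP_d3d358_ag.Th

namespace Pool.Agent.Lib.MP_d3d358_ag.K.AlE

open Pool.Agent.Lib.MP_cd184e_ag.T Cy
open Pool.Agent.Lib.MP_d3d358_ag.Var
open Pool.Agent.Lib.MP_d3d358_ag.G (Sf lat3)
open Pool.Agent.Lib.MP_d3d358_ag.Th (Theta)

variable {A : Sf} (hA : Good A)

theorem A_le_invM (s : Finset (Fin (X hA).n)) : (X hA).A s ≤ invM := Algebra.adjoin_le (by
  have h : ∀ (g : G) l, g • (X hA).f l = sg g • (X hA).f l := fun g l => by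
    obtain ⟨i, j, rfl⟩ := exists_idx l
    rw [X_f, smul_emb, smul_mul', (fW_mem hA i).2 g, (gU_mem hA j).2 g, smul_mul_assoc, map_smul]
  rintro _ ⟨l, j, -, rfl⟩ g
  have h0 : sg g ≠ 0 := left_ne_zero_of_mul_eq_one (sg_mul_self g)
  rw [smul_div₀', h, h, Algebra.smul_def, Algebra.smul_def,
    mul_div_mul_left _ _ ((map_ne_zero _).2 h0)])

theorem U_div {u : Ent} (hu : u ∈ U A) (i : Fin (nW A)) (j : Fin (nU A))
    {s : Finset (Fin (X hA).n)} (h : idx i j ∈ s) : emb u / emb (gU hA j) ∈ (X hA).A s := by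
  rw [← span_gU hA] at hu
  induction hu using Submodule.span_induction with
  | mem u hu =>
    obtain ⟨j', rfl⟩ := hu
    have := (X hA).div_mem (idx i j') h
    rwa [X_f, X_f, map_mul, map_mul, mul_div_mul_left _ _ (emb_ne (fW_ne hA _))] at this
  | zero => simp
  | add a c _ _ ha hc => rw [map_add, add_div]; exact add_mem ha hc
  | smul a c _ hc => rw [map_smul, smul_div_assoc]; exact Subalgebra.smul_mem _ hc _

variable {hA} {T : Cy (X hA)} (hT : ∀ i j h, T.l ⟨idx i j, h⟩ = emb (gU hA j))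
include hT

theorem exists_fp (s : (X hA).Idx) : ∃ i j, idx i j ∈ s.1 ∧ T.fp s = emb (gU hA j) := by
  obtain ⟨i, j, e⟩ := exists_idx ((X hA).pt s).1
  refine ⟨i, j, e ▸ (X hA).pt_mem s, ?_⟩
  rw [← hT i j (Finset.mem_univ _)]
  exact congrArg T.l (Subtype.ext e)

theorem U_div_fp {u : Ent} (hu : u ∈ U A) (s : (X hA).Idx) : emb u / T.fp s ∈ (X hA).A s.1 := by
  obtain ⟨i, j, h, e⟩ := exists_fp hT s
  rw [e]; exact U_div hA hu i j h

theorem smul_fp (g : G) (s : (X hA).Idx) : g • T.fp s = T.fp s := by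
  obtain ⟨i, j, -, e⟩ := exists_fp hT s
  rw [e, smul_emb, (gU_mem hA j).2 g]

theorem R_div_mem {m : ℕ} {θ : Ent} (hθ : θ ∈ R A (m + 1)) (s : (X hA).Idx) :
    emb θ / T.fp s ^ m ∈ ((X hA).A s.1).toSubmodule * (R A 1).map emb.toLinearMap := by
  refine Submodule.mul_induction_on (C := fun θ => emb θ / T.fp s ^ m ∈
    ((X hA).A s.1).toSubmodule * (R A 1).map emb.toLinearMap) (hA.gen m hθ)
    (fun u hu r hr => ?_) fun x y hx hy => ?_
  · rw [map_mul, mul_div_right_comm]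
    refine Submodule.mul_mem_mul ?_ ⟨r, hr, rfl⟩
    clear hθ
    induction hu using Submodule.pow_induction_on_left' with
    | algebraMap c => rw [pow_zero, div_one, emb.commutes]; exact algebraMap_mem ((X hA).A s.1) c
    | add x y i _ _ hx hy => rw [map_add, add_div]; exact add_mem hx hy
    | mem_mul u hu i x _ hx =>
      rw [map_mul, pow_succ', ← div_mul_div_comm]
      exact Subalgebra.mul_mem _ (U_div_fp hT hu s) hx
  · rw [map_add, add_div]; exact add_mem hx hy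

omit hT in
theorem mul_mem_Sec {Y : Submodule ℂ M} {a : Cy (X hA)} {s : (X hA).Idx} {c z : M}
    (hc : c ∈ (X hA).A s.1) (hz : z ∈ Sec Y T a s) : c * z ∈ Sec Y T a s := by
  rw [mem_Sec, mul_div_assoc, mul_assoc]; exact mul_mem_self hc (mem_Sec.1 hz)

omit hT in
theorem theta_mul_pow {t : ℤ} {θ u : Ent} (hθ : θ.1 ∈ Theta (lat3 A.toLat) (t * A.k))
    (hu : u ∈ R A 1) (N j : ℕ) (h : t + N = j) : θ * u ^ N ∈ R A j := by
  have := Th.Theta.mul_mem hθ (mem_R.1 (pow_mem_R hu N))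
  rw [← add_mul, mul_one, ← Int.cast_natCast N, ← Int.cast_add, h, Int.cast_natCast] at this
  exact mem_R.2 this

/-- A theta function over a power of the chart denominator lies in the lattice. -/
theorem div_mem_Sec {a : ℤ} {m : ℕ} {θ : Ent}
    (hθ : θ.1 ∈ Theta (lat3 A.toLat) ((a + m : ℤ) * A.k)) (s : (X hA).Idx) :
    emb θ / T.fp s ^ m ∈ Sec ((R A 1).map emb.toLinearMap) T (T ^ a) s := by
  obtain ⟨i, j, -, e⟩ := exists_fp hT s
  obtain ⟨N, r, hr⟩ : ∃ N r : ℕ, a + m + N = (r + 1 : ℕ) :=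
    ⟨(1 - a - m).toNat, (a + m - 1).toNat, by omega⟩
  have h := R_div_mem hT (theta_mul_pow hθ (gU_mem hA j).1 N _ hr) s
  have h0 := T.fp_ne s
  have hp : T.fp s ^ m * T.fp s ^ a * T.fp s ^ N = T.fp s ^ r * T.fp s := by
    rw [← pow_succ, ← zpow_natCast, ← zpow_natCast, ← zpow_natCast, ← zpow_add₀ h0, ← zpow_add₀ h0,
      ← hr, add_comm a]
  have h1 := zpow_ne_zero a h0
  rw [mem_Sec, zpow_fp, show emb θ / T.fp s ^ m / T.fp s ^ a * T.fp s =
    emb (θ * gU hA j ^ N) / T.fp s ^ r by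
      rw [map_mul, map_pow, ← e, div_div, div_mul_eq_mul_div,
        div_eq_div_iff (mul_ne_zero (pow_ne_zero _ h0) h1) (pow_ne_zero _ h0)]
      linear_combination (-emb θ) * hp]
  exact h

theorem div_gU_mem_Sec {a : ℤ} {m : ℕ} {θ : Ent}
    (hθ : θ.1 ∈ Theta (lat3 A.toLat) ((a + m : ℤ) * A.k)) {s : (X hA).Idx} {i : Fin (nW A)}
    {j : Fin (nU A)} (h : idx i j ∈ s.1) :
    emb θ / emb (gU hA j) ^ m ∈ Sec ((R A 1).map emb.toLinearMap) T (T ^ a) s := by
  obtain ⟨_, j', -, e⟩ := exists_fp hT s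
  have h0 := T.fp_ne s
  have h1 := emb_ne (gU_ne hA j)
  have := mul_mem_Sec (pow_mem (U_div hA (gU_mem hA j') i j h) m) (div_mem_Sec hT hθ s)
  rwa [← e, show (T.fp s / emb (gU hA j)) ^ m * (emb θ / T.fp s ^ m) =
    emb θ / emb (gU hA j) ^ m by rw [div_pow]; field_simp] at this

/-- The lattice is generated by the theta functions over powers of the chart denominator. -/
theorem Sec_induction {a : ℤ} {s : (X hA).Idx} {P : M → Prop}
    (gen : ∀ (m : ℕ) (θ : Ent), θ.1 ∈ Theta (lat3 A.toLat) ((a + m : ℤ) * A.k) →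
      ∀ c ∈ (X hA).A s.1, P (c * (emb θ / T.fp s ^ m)))
    (add : ∀ x y, P x → P y → P (x + y)) {z : M}
    (hz : z ∈ Sec ((R A 1).map emb.toLinearMap) T (T ^ a) s) : P z := by
  obtain ⟨i, j, -, e⟩ := exists_fp hT s
  have h0 := T.fp_ne s
  have h1 := zpow_ne_zero a h0
  rw [mem_Sec, zpow_fp] at hz
  rw [show z = z / T.fp s ^ a * T.fp s * (T.fp s ^ a / T.fp s) by field_simp]
  refine Submodule.mul_induction_on (C := fun w => P (w * (T.fp s ^ a / T.fp s))) hz ?_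
    fun x y hx hy => by rw [add_mul]; exact add _ _ hx hy
  rintro c hc _ ⟨r, hr, rfl⟩
  obtain ⟨m, N, hm⟩ : ∃ m N : ℕ, a + m = (N + 1 : ℕ) := ⟨(1 - a).toNat, (a - 1).toNat, by omega⟩
  have h2 : r * gU hA j ^ N ∈ R A (N + 1) :=
    theta_mul_pow (t := 1) (by simpa using mem_R.1 hr) (gU_mem hA j).1 N _ (by push_cast; ring)
  have h3 := gen m _ (by rw [hm, Int.cast_natCast]; exact mem_R.1 h2) c hc
  have hp : T.fp s ^ a * T.fp s ^ m = T.fp s ^ N * T.fp s := by
    rw [← pow_succ, ← zpow_natCast, ← zpow_natCast, ← zpow_add₀ h0, hm]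
  rwa [show emb (r * gU hA j ^ N) / T.fp s ^ m = emb r * (T.fp s ^ a / T.fp s) by
    rw [map_mul, map_pow, ← e, mul_div_assoc, div_eq_div_iff (pow_ne_zero _ h0) h0 |>.2 hp.symm],
    ← mul_assoc] at h3

end Pool.Agent.Lib.MP_d3d358_ag.K.AlE
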