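import Pool.Agent.Lib.MP_d3d358_ag.K.LocB

/-! A map of the rank six bundle is a combination of the group elements with coefficients that
are regular at every point. -/

set_option autoImplicit false

namespace Pool.Agent.Lib.MP_d3d358_ag.K

open Pool.Agent.Lib.MP_cd184e_ag.T Cy
open Pool.Agent.Lib.MP_d3d358_ag.Var (G sg chi ivt alt cix crd Equi)
open Pool.Agent.Lib.MP_d3d358_ag.Bkr (Fm Rat mem_Rat RLin)
open L1 (latP mem_latP le_latP t_mem_latP latP_le altP du fr fq)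

variable {F : Type} [Field F] [Algebra ℂ F] [MulSemiringAction G F] [SMulCommClass G ℂ F]

namespace Kum

variable {Q : Kum F} {w : Q.Pt}

variable (Q) in
/-- The generic fibre of the rank six bundle twisted by the `a`-th power of `Tg`. -/
noncomputable def Gen (a : ℤ) : Submodule ℂ F :=
  Submodule.span ℂ {Q.Tg.fp (Bkr.top Q.X) ^ (a - 1)} * ((Loc.RatA Q).toSubmodule * Q.R)

theorem U_div_U {u v : F} (hu : u ∈ Q.U) (hv : v ∈ Q.U) : u / v ∈ Rat Q.X := by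
  have := div_mem (mem_Rat (U_pow_div_mem (m := 1) (by simpa using hu) (Bkr.top Q.X)))
    (mem_Rat (U_pow_div_mem (m := 1) (by simpa using hv) (Bkr.top Q.X)))
  rwa [div_div_div_cancel_right₀ (pow_ne_zero _ (Q.Tg.fp_ne _))] at this

theorem Tg_fp_mem (s : Q.X.Idx) : Q.Tg.fp s ∈ Q.U := Q.g_mem _

theorem mem_Gen {u : F} (hu : u ∈ Q.U) (h0 : u ≠ 0) {a : ℤ} {x : F} :
    x ∈ Q.Gen a ↔ x / u ^ a * u ∈ (Loc.RatA Q).toSubmodule * Q.R := by
  have h1 := Q.Tg.fp_ne (Bkr.top Q.X)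
  have h2 := zpow_ne_zero a h0
  have h3 := zpow_ne_zero a h1
  rw [Gen, mem_span_mul (zpow_ne_zero _ h1), zpow_sub_one₀ h1]
  constructor
  · intro h
    convert mul_mem_self (B := Loc.RatA Q)
      (zpow_mem (U_div_U (Tg_fp_mem (Bkr.top Q.X)) hu) (a - 1)) h using 1
    rw [div_zpow, zpow_sub_one₀ h1, zpow_sub_one₀ h0]; field_simp
  · intro h
    convert mul_mem_self (B := Loc.RatA Q)
      (zpow_mem (U_div_U hu (Tg_fp_mem (Bkr.top Q.X))) (a - 1)) h using 1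
    rw [div_zpow, zpow_sub_one₀ h1, zpow_sub_one₀ h0]; field_simp

theorem mem_Gen_of_sec {a : ℤ} {s : Q.X.Idx} {x : F}
    (h : x / Q.Tg.fp s ^ a * Q.Tg.fp s ∈ (Q.X.A s.1).toSubmodule * Q.R) : x ∈ Q.Gen a :=
  (mem_Gen (Tg_fp_mem s) (Q.Tg.fp_ne s)).2
    (mul_le_mul_left (show (Q.X.A s.1).toSubmodule ≤ (Loc.RatA Q).toSubmodule from
      fun _ hx => mem_Rat hx) Q.R h)

namespace Loc

variable {L : Q.Loc w}

theorem mem_Gen_iff (L : Q.Loc w) {a : ℤ} {x : F} :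
    x ∈ Q.Gen a ↔ x / L.g ^ a ∈ (RatA Q).toSubmodule * L.Ot.toSubmodule := by
  have h0 := L.g_ne
  rw [mem_Gen L.g_U h0]
  generalize x / L.g ^ a = y
  constructor
  · intro h
    rw [← mul_div_cancel_right₀ y h0]
    refine Submodule.mul_induction_on (C := fun z => z / L.g ∈ _) h (fun r hr z hz => ?_)
      fun z z' h h' => by rw [add_div]; exact add_mem h h'
    rw [mul_div_assoc]
    exact Submodule.mul_mem_mul hr (L.mem_Yw_iff.1 (L.div_mem_Yw hz))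
  · intro h
    refine Submodule.mul_induction_on (C := fun z => z * L.g ∈ _) h (fun r hr z hz => ?_)
      fun z z' h h' => by rw [add_mul]; exact add_mem h h'
    rw [mul_assoc]
    refine mul_mem_self hr (L.Yw_induction (C := fun z => z * L.g ∈ _) (L.mem_Yw_iff.2 hz)
      (fun c hc y hy => ?_) fun z z' h h' => by rw [add_mul]; exact add_mem h h')
    rw [mul_assoc, div_mul_cancel₀ _ h0]
    exact Submodule.mul_mem_mul (show c ∈ RatA Q from Ow_le_Rat hc) hy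

theorem Nrm.coef_Rat (n : L.Nrm) (ν : Fin 3) (j : Fin 6) {y : F}
    (hy : y ∈ (RatA Q).toSubmodule * L.Ot.toSubmodule) :
    altP (du (fq ν L.t) j * y) / alt L.t (cix ν) ∈ Rat Q.X := by
  refine Submodule.mul_induction_on (C := fun y => altP (du (fq ν L.t) j * y) / _ ∈ _) hy
    (fun r hr z hz => ?_) fun z z' h h' => by
      rw [mul_add, L1.altP_add, add_div]; exact add_mem h h'
  rw [mul_left_comm, L1.altP_mul (Rat_inv hr), mul_div_assoc]
  exact mul_mem hr (n.O_le_Rat ν (L1.coef_mem L.equi (L.O_inv ν) (L.ivt_mem_O ν) ν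
    (L.alt_div_mem_O ν) (L.Ot_le_latP ν hz) j))

theorem fr_mem_Ot (L : Q.Loc w) (ν : Fin 3) (j : Fin 6) : fr (fq ν L.t) j ∈ L.Ot :=
  L1.fr_mem (L1.fq_mem L.t_mem_Ot ν) j

theorem mul_mem_Gen (L : Q.Loc w) (a : ℤ) {y : F} (hy : y ∈ L.Ot) : L.g ^ a * y ∈ Q.Gen a := by
  rw [L.mem_Gen_iff, mul_div_cancel_left₀ _ (zpow_ne_zero a L.g_ne), ← one_mul y]
  exact Submodule.mul_mem_mul (one_mem (RatA Q)) hy

/-- On the generic fibre a linear map is a combination of the group elements. -/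
theorem Nrm.exists_coef (n : L.Nrm) (a : ℤ) {ψ : F →+ F} (hψ : RLin Q.X ψ) :
    ∃ c : G → F, ∀ x ∈ Q.Gen a, ψ x = ∑ g : G, c g * g • x := by
  have he := L1.equi_fq L.equi 0
  have hd : alt (fq 0 L.t) 0 ≠ 0 := L.alp_ne 0
  have hg := zpow_ne_zero a L.g_ne
  refine ⟨fun g => ((sg g / 6) • ∑ j, g • du (fq 0 L.t) j * ψ (L.g ^ a * fr (fq 0 L.t) j)) /
    alt (fq 0 L.t) 0 / L.g ^ a, fun x hx => ?_⟩
  have h1 := fun j => n.coef_Rat 0 j (L.mem_Gen_iff.1 hx)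
  have h2 := L1.expand' he hd (x / L.g ^ a)
  have h3 : x = ∑ j, (altP (du (fq 0 L.t) j * (x / L.g ^ a)) / alt L.t (cix 0)) •
      (L.g ^ a * fr (fq 0 L.t) j) := by
    rw [← mul_div_cancel₀ x hg, mul_div_cancel_left₀ _ hg]
    conv_lhs => rw [h2, Finset.mul_sum]
    exact Finset.sum_congr rfl fun j _ => mul_left_comm _ _ _
  conv_lhs => rw [h3, map_sum]
  simp only [hψ _ (h1 _)]
  simp only [altP, Finset.smul_sum, Finset.sum_div, Finset.sum_mul, smul_eq_mul]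
  rw [Finset.sum_comm]
  refine Finset.sum_congr rfl fun g _ => Finset.sum_congr rfl fun j _ => ?_
  rw [← L1.alt_fq]
  simp only [smul_mul', smul_div₀', L.g_zpow_inv, Algebra.smul_def, map_div₀, map_one]
  ring

/-- The coefficients are regular at the point. -/
theorem coef_mem_Ot (L : Q.Loc w) {a b : ℤ} {ψ : F →+ F} {c : G → F}
    (hc : ∀ x ∈ Q.Gen a, ψ x = ∑ g : G, c g * g • x)
    (h : ∀ ν, ∀ x ∈ L.Lt Q.R ν 0 a, ψ x ∈ L.Lt Q.R ν 0 b) (g : G) : c g / L.g ^ (b - a) ∈ L.Ot := by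
  have h0 := L.g_ne
  have ha := zpow_ne_zero a h0
  have hb := zpow_ne_zero b h0
  have key : ∀ ν, ∃ m : ℕ, alp L.t ν ^ m * (c g / L.g ^ (b - a)) ∈ L.Ot := fun ν => by
    have := L1.coef_G_mem (L1.equi_fq L.equi ν) (T := latP (L.O ν) L.t)
      (L1.smul_mem_latP L.equi (L.O_inv ν)) (L1.fq_mem t_mem_latP ν)
      (c := fun g => c g / L.g ^ (b - a)) (fun j => by
        have h1 := L.mem_Lt_R.1 (h ν (L.g ^ a * fr (fq ν L.t) j) (L.mem_Lt_R.2 (by
          rw [gam, zpow_zero, one_mul, mul_div_cancel_left₀ _ ha]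
          exact L.Ot_le_latP ν (L.fr_mem_Ot ν j))))
        rw [hc _ (L.mul_mem_Gen a (L.fr_mem_Ot ν j)), gam, zpow_zero, one_mul,
          Finset.sum_div] at h1
        convert h1 using 2 with g
        rw [smul_mul', L.g_zpow_inv, zpow_sub₀ h0]
        field_simp) g
    obtain ⟨m, hm⟩ := L.exists_alp_pow ν this
    rw [L1.alt_fq, ← mul_assoc] at hm
    exact ⟨m + 1, by rwa [pow_succ]⟩
  obtain ⟨m, hm⟩ := key 1
  obtain ⟨m', hm'⟩ := key 2
  exact L.reg_Ot hm hm'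

end Loc

/-- `B1` on the generic fibre. -/
theorem b1_gen {w₀ : Q.Pt} {L₀ : Q.Loc w₀} (n : L₀.Nrm) (a b : ℤ) {ψ : F →+ F} (hψ : RLin Q.X ψ) :
    ∃ c : G → F, (∀ x ∈ Q.Gen a, ψ x = ∑ g : G, c g * g • x) ∧ ∀ (w : Q.Pt) (L : Q.Loc w),
      (∀ ν, ∀ x ∈ L.Lt Q.R ν 0 a, ψ x ∈ L.Lt Q.R ν 0 b) → ∀ g, c g / L.g ^ (b - a) ∈ L.Ot := by
  obtain ⟨c, hc⟩ := n.exists_coef a hψ
  exact ⟨c, hc, fun _ L h => L.coef_mem_Ot hc h⟩

end Kum

end Pool.Agent.Lib.MP_d3d358_ag.K
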