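import Pool.Agent.Lib.MP_d3d358_ag.Bkr.Wn

/-! The vanishing theorem: classes of positive degree are killed by the family `S`. -/

set_option autoImplicit false

open CategoryTheory Limits Abelian

namespace Pool.Agent.Lib.MP_d3d358_ag.Bkr

open Pool.Agent.Lib.MP_cd184e_ag.T Pool.Agent.Lib.MP_cd184e_ag.T.Coh
open Pool.Agent.Lib.MP_d3d358_ag.K Pool.Agent.Lib.MP_d3d358_ag.K.Cy

theorem smul_eq_zero_of_span {A M : Type} [CommRing A] [AddCommGroup M] [Module A M]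
    {a b c τ : A} {x : M} (hτ : τ ∈ Ideal.span {a, b, c}) (ha : a • x = 0) (hb : b • x = 0)
    (hc : c • x = 0) : τ • x = 0 := by
  have : Ideal.span {a, b, c} ≤ Ideal.torsionOf A M x := Ideal.span_le.2 (by
    rintro _ (rfl | rfl | rfl) <;> exact (Ideal.mem_torsionOf_iff _ _).2 ‹_›)
  exact (Ideal.mem_torsionOf_iff _ _).1 (this hτ)

theorem pow_succ_smul_zero {A M : Type} [CommRing A] [AddCommGroup M] [Module A M] {a : A} {x : M}
    (h : a • x = 0) (t : ℕ) : a ^ (t + 1) • x = 0 := by rw [pow_succ, mul_smul, h, smul_zero]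

theorem smul_pow_succ_zero {A M : Type} [CommRing A] [AddCommGroup M] [Module A M] {a : A} {x : M}
    {t : ℕ} (h : a ^ t • x = 0) : a ^ (t + 1) • x = 0 := by rw [pow_succ', mul_smul, h, smul_zero]

variable {k K : Type} [Field k] [Field K] [Algebra k K] {X : ProjVar k K}
  {S : Submonoid (Fm X)} {G N : Coh X}

theorem exists_quot_fm (u : Fm X) (M : Coh X) : ∃ (Q : Coh X) (ψ : M ⟶ Q),
    (∀ s, Function.Surjective (ψ.app s)) ∧
      ∀ (s : X.Idx) (y : M.obj s), ψ.app s y = 0 ↔ ∃ x, u.sec s • x = y := by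
  obtain ⟨Q, ψ, hs, he⟩ := exists_quot (u.gm M)
  exact ⟨Q, ψ, hs, fun s y => (he s y).trans (exists_congr fun x => by rw [u.gm_app])⟩

theorem nul_of_kill {M : Coh X} {τ : Fm X} (hτ : τ ∈ S)
    (h : ∀ (s : X.Idx) (x : M.obj s), τ.sec s • x = 0) {i : ℕ} {a : Cy X}
    (x : Ext G ((twc a).obj M) i) : Nul S x :=
  ⟨τ, hτ, by
    rw [Fm.ac_eq, show τ.mu M rfl = 0 from hom_ext fun s x => (τ.mu_app M rfl s x).trans (h s x),
      po_zero]⟩

theorem onto_zero {M Q : Coh X} (ψ : M ⟶ Q) {b : Cy X}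
    (h : ∀ y : G ⟶ (twc b).obj Q, ∃ σ ∈ S, ∃ τ ∈ S, ∃ n : G ⟶ (twc (b * σ.d)).obj M,
      ∀ (s : X.Idx) (x : G.obj s),
        τ.sec s • (σ.sec s • (show Q.obj s from y.app s x) - ψ.app s (n.app s x)) = 0) :
    Onto S G ψ 0 b := fun y => by
  obtain ⟨y, rfl⟩ := (Ext.mk₀_bijective _ _).2 y
  obtain ⟨σ, hσ, τ, hτ, n, hn⟩ := h y
  have h1 : b * (σ * τ).d = b * σ.d * τ.d := by rw [Fm.mul_d, mul_assoc]
  refine ⟨σ * τ, mul_mem hσ hτ, Ext.mk₀ (n ≫ τ.mu M h1), ?_⟩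
  rw [Fm.ac_eq, mk_po, mk_po]
  refine congrArg _ (hom_ext fun s x => ?_)
  have := hn s x
  rw [smul_sub, sub_eq_zero, ← mul_smul, mul_comm] at this
  rw [comp_app, comp_app, comp_app, Fm.mu_app, Fm.mu_app, Fm.mul_sec]
  exact this.trans ((ψ.app s).map_smul _ _).symm

/-- The vanishing theorem. -/
theorem Van.nul (V : Van S G N) {a : Cy X} (ha : V.D0 a) {i : ℕ}
    (x : Ext G ((twc a).obj N) (i + 1)) : Nul S x := by
  obtain ⟨N1, ψ0, s0, e0⟩ := exists_quot_fm V.u0 N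
  obtain ⟨N2, ψ1, s1, e1⟩ := exists_quot_fm V.u1 N1
  obtain ⟨N3, ψ2, s2, e2⟩ := exists_quot_fm V.u2 N2
  have z01 : ∀ (s : X.Idx) (y : N1.obj s), V.u0.sec s • y = 0 := fun s y => by
    obtain ⟨y, rfl⟩ := s0 s y
    rw [← map_smul]
    exact (e0 s _).2 ⟨y, rfl⟩
  have z02 : ∀ (s : X.Idx) (y : N2.obj s), V.u0.sec s • y = 0 := fun s y => by
    obtain ⟨y, rfl⟩ := s1 s y
    rw [← map_smul, z01, map_zero]
  have z12 : ∀ (s : X.Idx) (y : N2.obj s), V.u1.sec s • y = 0 := fun s y => by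
    obtain ⟨y, rfl⟩ := s1 s y
    rw [← map_smul]
    exact (e1 s _).2 ⟨y, rfl⟩
  obtain ⟨τ, hτ, hτ1⟩ := V.null 1
  simp only [pow_one] at hτ1
  have n2 : ∀ (a : Cy X) (i : ℕ) (x : Ext G ((twc a).obj N2) (i + 1)), Nul S x := fun a i x => by
    refine nul_step V.k2 ψ2 s2 e2 ⟨τ, hτ, fun s x hx =>
      smul_eq_zero_of_span (hτ1 s) (z02 s x) (z12 s x) hx⟩ (fun _ => True) (fun _ _ _ _ => trivial)
      (fun _ _ => trivial) (fun a _ => Onto.of_nul _ (nul_of_kill hτ fun s y => ?_)) trivial x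
    obtain ⟨y, rfl⟩ := s2 s y
    refine smul_eq_zero_of_span (hτ1 s) ?_ ?_ ?_
    · rw [← map_smul, z02, map_zero]
    · rw [← map_smul, z12, map_zero]
    · rw [← map_smul]
      exact (e2 s _).2 ⟨y, rfl⟩
  have o2 : ∀ b, V.D2 b → Onto S G ψ1 0 b := fun b hb => onto_zero ψ1 fun y => by
    obtain ⟨t, ht⟩ := exists_lift V.k2 (ψ0 ≫ ψ1) (fun s => (s1 s).comp (s0 s)) y
    obtain ⟨n, hn⟩ := ht t le_rfl
    obtain ⟨σ, hσ, T, n0, h⟩ := V.A2 b hb t n
    obtain ⟨τ', hτ', hτ2⟩ := V.null (T + t + 1)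
    refine ⟨σ, hσ, τ', hτ', n0 ≫ (twc _).map ψ0, fun s x => ?_⟩
    refine smul_eq_zero_of_span (hτ2 s) (pow_succ_smul_zero (z02 s _) _)
      (pow_succ_smul_zero (z12 s _) _) (smul_pow_succ_zero ?_)
    obtain ⟨y0, y1, h⟩ := h s x
    have h1 := congrArg (fun z => ψ1.app s (ψ0.app s z)) h
    simp only [map_add, map_smul, z02, z12, add_zero] at h1
    have h2 := hn s x
    rw [comp_app] at h2
    rw [h2, ← mul_smul] at h1
    rw [smul_sub, ← mul_smul, sub_eq_zero]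
    refine Eq.trans (congrArg (· • _) ?_) h1
    ring
  have n1 : ∀ a, V.D1 a → ∀ (i : ℕ) (x : Ext G ((twc a).obj N1) (i + 1)), Nul S x := by
    intro a ha i x
    obtain ⟨σ, hσ, hr⟩ := V.reg
    refine nul_step V.k1 ψ1 s1 e1 ⟨σ, hσ, fun s y hy => ?_⟩ V.D1 V.D1_S V.D1_u (fun a ha => ?_) ha x
    · obtain ⟨y, rfl⟩ := s0 s y
      rw [← map_smul, e0] at hy ⊢
      obtain ⟨z, hz⟩ := hy
      obtain ⟨w, hw⟩ := hr s y z hz.symm
      exact ⟨w, hw.symm⟩
    · cases i with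
      | zero => exact o2 _ (V.D12 a ha)
      | succ i => exact Onto.of_nul _ (n2 _ i)
  have o1 : ∀ b, V.D1 b → Onto S G ψ0 0 b := fun b hb => onto_zero ψ0 fun y => by
    obtain ⟨t1, h1⟩ := exists_lift V.k1 ψ0 s0 y
    obtain ⟨t2, h2⟩ := exists_lift V.k2 ψ0 s0 y
    obtain ⟨m1, h1⟩ := h1 (t1 + t2) (Nat.le_add_right _ _)
    obtain ⟨m2, h2⟩ := h2 (t1 + t2) (Nat.le_add_left _ _)
    obtain ⟨σ, hσ, T, n0, h⟩ := V.A1 b hb (t1 + t2) m1 m2 fun s x => by
      obtain ⟨z, hz⟩ := (e0 s (V.u2.sec s ^ (t1 + t2) • (show N.obj s from m1.app s x) -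
          V.u1.sec s ^ (t1 + t2) • (show N.obj s from m2.app s x))).1 (by
        rw [map_sub, map_smul, map_smul, h1, h2, smul_comm, sub_self])
      exact ⟨z, by rw [hz, add_sub_cancel]⟩
    obtain ⟨τ', hτ', hτ2⟩ := V.null (T + (t1 + t2) + 1)
    refine ⟨σ, hσ, τ', hτ', n0, fun s x => ?_⟩
    obtain ⟨⟨y1, h3⟩, y2, h4⟩ := h s x
    have h5 := congrArg (ψ0.app s) h3
    have h6 := congrArg (ψ0.app s) h4
    simp only [map_add, map_smul, z01, add_zero] at h5 h6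
    rw [h1, ← mul_smul] at h5
    rw [h2, ← mul_smul] at h6
    refine smul_eq_zero_of_span (hτ2 s) (pow_succ_smul_zero (z01 s _) _)
      (smul_pow_succ_zero ?_) (smul_pow_succ_zero ?_)
    · rw [smul_sub, ← mul_smul, sub_eq_zero]
      refine Eq.trans (congrArg (· • _) ?_) h5
      ring
    · rw [smul_sub, ← mul_smul, sub_eq_zero]
      refine Eq.trans (congrArg (· • _) ?_) h6
      ring
  refine nul_step V.k0 ψ0 s0 e0 ⟨1, one_mem S, fun s y hy => ?_⟩ V.D0 V.D0_S V.D0_u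
    (fun a ha => ?_) ha x
  · rw [V.inj0 s y hy, smul_zero]
  · cases i with
    | zero => exact o1 _ (V.D01 a ha)
    | succ i => exact Onto.of_nul _ (n1 _ (V.D01 a ha) i)

theorem act_add {i : ℕ} {r r' : K} {a b : Cy X} (x : Ext G ((twc a).obj N) i)
    (hr : Reg r a b) (hr' : Reg r' a b) : act x (hr.add hr') = act x hr + act x hr' := by
  rw [act, act, act, muc_add, Ext.mk₀_add, Ext.comp_add]

theorem act_zero {i : ℕ} {a b : Cy X} (x : Ext G ((twc a).obj N) i) : act x (Reg.zero a b) = 0 := by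
  rw [act, muc_zero, Ext.mk₀_zero, Ext.comp_zero]

/-- The functions that are regular from `a` to `b` and kill the class `x`. -/
def killers {i : ℕ} {a : Cy X} (x : Ext G ((twc a).obj N) i) (b : Cy X) : Submodule k K where
  carrier := {r | ∃ h : Reg r a b, act x h = 0}
  add_mem' := by
    rintro r r' ⟨h, e⟩ ⟨h', e'⟩
    exact ⟨h.add h', by rw [act_add x h h', e, e', add_zero]⟩
  zero_mem' := ⟨Reg.zero a b, act_zero x⟩
  smul_mem' := by
    rintro c r ⟨h, e⟩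
    have h1 : Reg (c • (1 : K)) b b := (Reg.refl b).smul c
    refine ⟨h.smul c, ?_⟩
    rw [act_congr x (h.smul c) (h.mul h1) (by simp), ← act_act x h h1, e, act, Ext.zero_comp]

theorem mul_mem_killers {i : ℕ} {a b c : Cy X} {x : Ext G ((twc a).obj N) i} {r r' : K}
    (hr : r ∈ killers x b) (h' : Reg r' b c) : r * r' ∈ killers x c := by
  obtain ⟨h, e⟩ := hr
  exact ⟨h.mul h', by rw [← act_act x h h', e, act, Ext.zero_comp]⟩

/-- A form that is a sum of multiples of the coordinates kills classes of positive degree. -/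
theorem kills_of_span (hG : LocProj G) (u : Fm X)
    (hu : u.r ∈ Submodule.span k {z | ∃ τ, ∃ r ∈ X.Rd 1, Reg τ (O1 X) u.d ∧ z = r * τ}) :
    Kills G u := fun M a i x => by
  obtain ⟨t, ht⟩ := killc hG x
  have key : ∀ m : ℕ, u.r ^ m ∈ Submodule.span k
      {z | ∃ τ, ∃ r ∈ X.Rd m, Reg τ (O1 X ^ m) (u.d ^ m) ∧ z = r * τ} := by
    intro m
    induction m with
    | zero =>
      refine Submodule.subset_span ⟨1, 1, ?_, by simpa using Reg.refl (1 : Cy X), by simp⟩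
      rw [ProjVar.Rd, pow_zero]
      exact Submodule.one_le.1 le_rfl
    | succ m ih =>
      have := Submodule.mul_mem_mul ih hu
      rw [Submodule.span_mul_span, ← pow_succ] at this
      refine Submodule.span_mono ?_ this
      rintro _ ⟨_, ⟨τ, r, hr, h, rfl⟩, _, ⟨τ', r', hr', h', rfl⟩, rfl⟩
      refine ⟨τ * τ', r * r', ?_, ?_, by ring⟩
      · rw [ProjVar.Rd, pow_succ]
        exact Submodule.mul_mem_mul hr (by simpa [ProjVar.Rd] using hr')
      · have h1 := h.shift (O1 X)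
        have h2 := h'.shift (u.d ^ m)
        rw [mul_comm (O1 X) (u.d ^ m)] at h1
        rw [pow_succ', pow_succ]
        exact h1.mul h2
  have : u.r ^ t ∈ killers x (a * u.d ^ t) := by
    refine Submodule.span_le.2 ?_ (key t)
    rintro _ ⟨τ, r, hr, h, rfl⟩
    exact mul_mem_killers ⟨_, ht r hr⟩ (h.shift a)
  obtain ⟨h, e⟩ := this
  refine ⟨t, ?_⟩
  have h1 : ∀ (b : Cy X) (hb : b = a * u.d ^ t) (h' : Reg (u ^ t).r a b), act x h' = 0 := by
    rintro _ rfl h'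
    exact (act_congr x h' h (u.pow_r t)).trans e
  exact h1 _ (by rw [Fm.pow_d]) _

end Pool.Agent.Lib.MP_d3d358_ag.Bkr
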