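import Pool.Agent.Lib.MP_d3d358_ag.Bkr.Nw
import Pool.Agent.Lib.MP_d3d358_ag.K.GenSm

/-! Generation of the bounded derived category from two complexes that exist near every point. -/

set_option autoImplicit false

open CategoryTheory Limits Abelian

namespace Pool.Agent.Lib.MP_d3d358_ag.Bkr

open Pool.Agent.Lib.MP_cd184e_ag.T Pool.Agent.Lib.MP_cd184e_ag.T.Coh
open Pool.Agent.Lib.MP_d3d358_ag.K Pool.Agent.Lib.MP_d3d358_ag.K.Cy

variable {k K : Type} [Field k] [Field K] [Algebra k K] {X : ProjVar k K}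

/-- A set of forms that behaves like a homogeneous ideal. -/
structure IsIdl (Z : Fm X → Prop) : Prop where
  mul : ∀ σ τ, Z σ → Z (σ * τ)
  add : ∀ σ τ ρ, Z σ → Z τ → ρ.d = σ.d → ρ.d = τ.d → ρ.r = σ.r + τ.r → Z ρ
  zero : ∀ ρ, ρ.r = 0 → Z ρ

/-- Nullstellensatz: an ideal that meets every family `S w` contains a power of each `y i`. -/
def NS {Wd I : Type} (S : Wd → Submonoid (Fm X)) (y : I → Fm X) : Prop :=
  ∀ Z : Fm X → Prop, IsIdl Z → (∀ w, ∃ σ ∈ S w, Z σ) → ∀ i, ∃ t : ℕ, Z (y i ^ t)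

/-- A complex with four terms that is exact up to forms of `S`. -/
def Four (S : Submonoid (Fm X)) (A B C E : Coh X) : Prop :=
  ∃ (f : A ⟶ B) (g : B ⟶ C) (h : C ⟶ E), f ≫ g = 0 ∧ g ≫ h = 0 ∧
    AlmInj S f ∧ AlmEx S f g ∧ AlmEx S g h ∧ AlmSurj S h

/-- `M` is a direct summand of a finite sum of twists of `G` by bundles of `D`. -/
def Add (D : Subgroup (Cy X)) (G M : Coh X) : Prop :=
  ∃ (I : Type) (_ : Fintype I) (d : I → Cy X) (f : ∀ i, M ⟶ (twc (d i)).obj G)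
    (g : ∀ i, (twc (d i)).obj G ⟶ M), (∀ i, d i ∈ D) ∧ ∑ i, f i ≫ g i = 𝟙 M

variable {P : ObjectProperty (DerivedCategory (Coh X))} {D : Subgroup (Cy X)}
  {S : Submonoid (Fm X)} {G M N : Coh X}

theorem Four.twist {A B C E : Coh X} (h : Four S A B C E) (a : Cy X) :
    Four S ((twc a).obj A) ((twc a).obj B) ((twc a).obj C) ((twc a).obj E) := by
  obtain ⟨f, g, h, w, w', h0, h1, h2, h3⟩ := h
  exact ⟨(twc a).map f, (twc a).map g, (twc a).map h, hom_ext fun s x => app_comp_zero w s x,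
    hom_ext fun s x => app_comp_zero w' s x, h0, h1, h2, h3⟩

theorem Add.of_iso {d : Cy X} (hd : d ∈ D) (e : M ≅ (twc d).obj G) : Add D G M :=
  ⟨Unit, inferInstance, fun _ => d, fun _ => e.hom, fun _ => e.inv, fun _ => hd, by simp⟩

theorem Add.tw {d : Cy X} (hd : d ∈ D) (G : Coh X) : Add D G ((twc d).obj G) :=
  Add.of_iso hd (Iso.refl _)

theorem Add.refl (G : Coh X) : Add D G G := Add.of_iso (one_mem _) (twc1 G).symm

/-- Two twists that differ by a bundle of `D`. -/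
theorem Add.tw_tw {a b : Cy X} (h : a⁻¹ * b ∈ D) (G : Coh X) :
    Add D ((twc a).obj G) ((twc b).obj G) :=
  Add.of_iso h (twctwc G a _ b (mul_inv_cancel_left a b)).symm

theorem Add.retract (f : M ⟶ N) (g : N ⟶ M) (hfg : f ≫ g = 𝟙 M) (h : Add D G N) : Add D G M := by
  obtain ⟨I, _, d, a, b, hd, e⟩ := h
  refine ⟨I, inferInstance, d, fun i => f ≫ a i, fun i => b i ≫ g, hd, ?_⟩
  have : ∀ i, (f ≫ a i) ≫ b i ≫ g = f ≫ (a i ≫ b i) ≫ g := fun i => by simp only [Category.assoc]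
  rw [Finset.sum_congr rfl fun i _ => this i, ← Preadditive.comp_sum, ← Preadditive.sum_comp, e,
    Category.id_comp, hfg]

theorem Add.pi {J : Type} [Finite J] {F : J → Coh X} (h : ∀ j, Add D G (F j)) : Add D G (pi F) := by
  classical
  have := Fintype.ofFinite J
  choose I _ d a b hd e using h
  refine ⟨Σ j, I j, inferInstance, fun x => d x.1 x.2, fun x => proj F x.1 ≫ a x.1 x.2,
    fun x => b x.1 x.2 ≫ incl F x.1, fun x => hd _ _, ?_⟩
  rw [Fintype.sum_sigma, ← sum_proj_incl]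
  refine Finset.sum_congr rfl fun j _ => ?_
  have : ∀ i, (proj F j ≫ a j i) ≫ b j i ≫ incl F j = proj F j ≫ (a j i ≫ b j i) ≫ incl F j :=
    fun i => by simp only [Category.assoc]
  rw [Finset.sum_congr rfl fun i _ => this i, ← Preadditive.comp_sum, ← Preadditive.sum_comp, e,
    Category.id_comp]

theorem Add.twist (h : Add D G M) (a : Cy X) : Add D ((twc a).obj G) ((twc a).obj M) := by
  obtain ⟨I, _, d, f, g, hd, e⟩ := h
  let c : ∀ i, (twc a).obj ((twc (d i)).obj G) ≅ (twc (d i)).obj ((twc a).obj G) := fun i =>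
    twctwc G _ _ _ rfl ≪≫ (twctwc G _ _ _ (mul_comm _ _)).symm
  refine ⟨I, inferInstance, d, fun i => (twc a).map (f i) ≫ (c i).hom,
    fun i => (c i).inv ≫ (twc a).map (g i), hd, ?_⟩
  have : ∀ i, ((twc a).map (f i) ≫ (c i).hom) ≫ (c i).inv ≫ (twc a).map (g i) =
      (twc a).map (f i ≫ g i) := fun i => by
    rw [Category.assoc, Iso.hom_inv_id_assoc, Functor.map_comp]
  rw [Finset.sum_congr rfl fun i _ => this i, ← Functor.map_sum, e, CategoryTheory.Functor.map_id]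

variable [P.IsTriangulated]

theorem Zq.isIdl (M : Coh X) (a : Cy X) : IsIdl (Zq P M a) :=
  ⟨fun _ τ h => h.mul τ, fun _ _ _ => Zq.add, fun _ => Zq.zero⟩

theorem Nw.of_ns {Wd I : Type} {S : Wd → Submonoid (Fm X)} {y : I → Fm X} (hN : NS S y)
    (h : ∀ w, Nw P D (S w) M) (i : I) : Nw P D (Submonoid.powers (y i)) M := fun a ha => by
  obtain ⟨t, ht⟩ := hN _ (Zq.isIdl M a) (fun w => h w a ha) i
  exact ⟨_, ⟨t, rfl⟩, ht⟩

theorem Add.nw (h : Add D G M) (hG : Nw P D S G) : Nw P D S M := by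
  obtain ⟨I, _, d, f, g, hd, e⟩ := h
  exact Nw.dec f g e fun i => hG.twist (hd i)

theorem Four.nw (hD : DegIn D S) {A B C E : Coh X} (h : Four S A B C E) (hB : Nw P D S B)
    (hC : Nw P D S C) (hE : Nw P D S E) : Nw P D S A := by
  obtain ⟨f, g, h, w, w', h0, h1, h2, h3⟩ := h
  exact Nw.four hD w w' h0 h1 h2 h3 hB hC hE

/-- A resolution to the right of `G₀` by sums of twists of `G₁, G₂, G₃`, exact up to `S`. -/
def Res (D : Subgroup (Cy X)) (S : Submonoid (Fm X)) (G₀ G₁ G₂ G₃ : Coh X) : Prop :=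
  ∃ A B C E : Coh X, Four S A B C E ∧ Add D A G₀ ∧ Add D G₁ B ∧ Add D G₂ C ∧ Add D G₃ E

theorem Res.nw (hD : DegIn D S) {G₀ G₁ G₂ G₃ : Coh X} (h : Res D S G₀ G₁ G₂ G₃) (a : Cy X)
    (h1 : Nw P D S ((twc a).obj G₁)) (h2 : Nw P D S ((twc a).obj G₂))
    (h3 : Nw P D S ((twc a).obj G₃)) : Nw P D S ((twc a).obj G₀) := by
  obtain ⟨A, B, C, E, hF, a0, a1, a2, a3⟩ := h
  exact (a0.twist a).nw ((hF.twist a).nw hD ((a1.twist a).nw h1) ((a2.twist a).nw h2)
    ((a3.twist a).nw h3))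

/-- The induction along the two complexes. -/
theorem nw_neg (hD : DegIn D S) {L : Cy X} {O W : Coh X}
    (K1 : Res D S ((twc L⁻¹).obj W) O W ((twc L).obj O))
    (K2 : Res D S ((twc L⁻¹).obj O) ((twc L⁻¹).obj W) O W)
    (hO : Nw P D S O) (hW : Nw P D S W) (hL : Nw P D S ((twc L).obj O)) (t : ℕ) :
    Nw P D S ((twc (L⁻¹ ^ t)).obj O) := by
  have key : ∀ t : ℕ, Nw P D S ((twc (L⁻¹ ^ t)).obj ((twc L).obj O)) ∧
      Nw P D S ((twc (L⁻¹ ^ t)).obj O) ∧ Nw P D S ((twc (L⁻¹ ^ t)).obj W) := fun t => by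
    induction t with
    | zero => exact ⟨hL.twist (by simp), hO.twist (by simp), hW.twist (by simp)⟩
    | succ t ih =>
      obtain ⟨h1, h2, h3⟩ := ih
      have h4 := K1.nw hD _ h2 h3 h1
      have h5 := K2.nw hD _ h4 h2 h3
      refine ⟨h2.of_iso (twctwc O _ _ _ ?_).symm, h5.of_iso (twctwc O _ _ _ (pow_succ' _ _).symm),
        h4.of_iso (twctwc W _ _ _ (pow_succ' _ _).symm)⟩
      rw [pow_succ', mul_inv_cancel_left]
  exact (key t).2.1

variable [P.IsStableUnderRetracts]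

/-- Generation of the bounded derived category. -/
theorem gen_of_res {Wd I : Type} [Finite I] {S : Wd → Submonoid (Fm X)} {y : I → Fm X}
    (hA : ∀ j : X.J, Algebra.Smooth k (X.A {j.1})) (hy : Bpf y) (hd : ∀ i, (y i).d ∈ D)
    (hD : ∀ w, DegIn D (S w)) (hN : NS S y) {L : Cy X} (hL1 : L⁻¹ * O1 X ∈ D) {W : Coh X}
    (K1 : ∀ w, Res D (S w) ((twc L⁻¹).obj W) (unit X) W ((twc L).obj (unit X)))
    (K2 : ∀ w, Res D (S w) ((twc L⁻¹).obj (unit X)) ((twc L⁻¹).obj W) (unit X) W)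
    (hO : ∀ a ∈ D, InP P ((twc a).obj (unit X))) (hW : ∀ a ∈ D, InP P ((twc a).obj W))
    (hL : ∀ a ∈ D, InP P ((twc a).obj ((twc L).obj (unit X)))) (Z : DerivedCategory (Coh X))
    (hZ : DerivedCategory.TStructure.t.bounded Z) : P Z := by
  refine InP.bounded' (gen_smooth (noZero_all X) hA fun t => ?_) Z hZ
  refine inP_of_nw hy hd locProj_unit (Nw.of_ns hN fun w => ?_)
  have h := (nw_neg (hD w) (K1 w) (K2 w) (Nw.of_inP hO) (Nw.of_inP hW) (Nw.of_inP hL) t).twist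
    (inv_mem (pow_mem hL1 t))
  refine h.of_iso (twctwc _ _ _ _ ?_ ≪≫ (twO _ _).symm)
  rw [mul_pow, mul_inv, ← mul_assoc, mul_inv_cancel, one_mul, zpow_neg, zpow_natCast]

end Pool.Agent.Lib.MP_d3d358_ag.Bkr
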