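import Pool.Agent.Lib.MP_d3d358_ag.Bkr.B4
import Pool.Agent.Lib.MP_d3d358_ag.Bkr.B2
import Pool.Agent.Lib.MP_d3d358_ag.K.Defs

/-! The invariant forms of a Kummer datum: base point freeness, Nullstellensatz, killing. -/

set_option autoImplicit false

namespace Pool.Agent.Lib.MP_d3d358_ag.K.Kum

open Pool.Agent.Lib.MP_cd184e_ag.T Pool.Agent.Lib.MP_cd184e_ag.T.Coh Cy
open Pool.Agent.Lib.MP_d3d358_ag.Var (G cix)
open Pool.Agent.Lib.MP_d3d358_ag.Bkr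

variable {F : Type} [Field F] [Algebra ℂ F] [MulSemiringAction G F] [SMulCommClass G ℂ F]
  (Q : Kum F)

theorem cy_zero_left (n : ℤ) : Q.cy 0 n = Q.Tg ^ n := by rw [cy, zpow_zero, one_mul]

theorem cy_zero_one : Q.cy 0 1 = Q.Tg := by rw [cy_zero_left, zpow_one]

theorem cy_zero_right (k : ℤ) : Q.cy k 0 = Q.Lr ^ k := by rw [cy, zpow_zero, mul_one]

theorem cy_l (k n : ℤ) (j : Q.X.J) : (Q.cy k n).l j = (Q.f j / Q.g j) ^ k * Q.g j ^ n := by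
  simp only [cy, mul_l, zpow_l, Lr, Tg]

theorem O1_eq : O1 Q.X = Q.cy 1 2 := by
  ext j
  have := Q.g_ne j
  rw [cy_l, O1, zpow_one, zpow_two]
  simp only [Q.Xf]
  field_simp

theorem cy_mem_DT (n : ℤ) : Q.cy 0 n ∈ Q.DT := Q.cy_zero_left n ▸ ⟨n, rfl⟩

theorem mem_DT {a : Cy Q.X} : a ∈ Q.DT ↔ ∃ n : ℤ, a = Q.cy 0 n :=
  ⟨fun ⟨n, h⟩ => ⟨n, h.symm.trans (Q.cy_zero_left n).symm⟩, by
    rintro ⟨n, rfl⟩; exact Q.cy_mem_DT n⟩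

theorem Lr_inv_mul : Q.Lr⁻¹ * O1 Q.X ∈ Q.DT := by
  rw [O1_eq, cy, zpow_one, inv_mul_cancel_left]
  exact ⟨2, rfl⟩

theorem degIn_mon (w : Q.Pt) : DegIn Q.DT (Q.mon w) := by
  rintro φ ⟨m, -, d⟩
  exact d ▸ Q.cy_mem_DT m

theorem mon_ne {w : Q.Pt} {φ : Fm Q.X} (h : φ ∈ Q.mon w) : φ.r ≠ 0 := by
  obtain ⟨m, h, -⟩ := h
  exact Q.Sig_ne w m _ h

theorem mem_mon {w : Q.Pt} {φ : Fm Q.X} :
    φ ∈ Q.mon w ↔ ∃ m σ, ∃ h : σ ∈ Q.Sig w m, φ = Q.fmU (Q.Sig_sub w m σ h) :=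
  ⟨fun ⟨m, h, d⟩ => ⟨m, _, h, Fm.ext rfl d⟩, by
    rintro ⟨m, σ, h, rfl⟩; exact Q.fmU_mem h⟩

theorem reg_U1 {u : F} (hu : u ∈ Q.U) : Reg u 1 Q.Tg :=
  Reg.of_one fun j => by
    rw [one_l, mul_one]; exact Q.U_div_mem hu j (Finset.mem_singleton_self _)

/-- The form of an invariant theta function of level one. -/
noncomputable def fm1 {u : F} (hu : u ∈ Q.U) : Fm Q.X := ⟨u, Q.Tg, Q.reg_U1 hu⟩

/-- The forms of the chart denominators. -/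
noncomputable def yg (j : Q.X.J) : Fm Q.X := Q.fm1 (Q.g_mem j)

theorem fm1_d_mem {u : F} (hu : u ∈ Q.U) : (Q.fm1 hu).d ∈ Q.DT := Subgroup.mem_zpowers _

theorem yg_d_mem (j : Q.X.J) : (Q.yg j).d ∈ Q.DT := Subgroup.mem_zpowers _

theorem fm1_sec_one {u : F} (hu : u ∈ Q.U) {j : Q.X.J} (e : u = Q.g j) :
    (Q.fm1 hu).sec (Q.X.one j) = 1 :=
  Subtype.ext (by
    rw [Fm.coe_sec, fp_one]
    exact (congrArg (· / Q.g j) e).trans (div_self (Q.g_ne j)))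

theorem yg_sec_one (j : Q.X.J) : (Q.yg j).sec (Q.X.one j) = 1 := Q.fm1_sec_one _ rfl

theorem bpf_fm1 {I : Type} {y : I → F} (hy : ∀ i, y i ∈ Q.U) (h : ∀ j, ∃ i, y i = Q.g j) :
    Bpf fun i => Q.fm1 (hy i) :=
  Bpf.of_unit fun j => (h j).imp fun i e => Q.fm1_sec_one (hy i) e ▸ isUnit_one

theorem bpf_yg : Bpf Q.yg := Q.bpf_fm1 Q.g_mem fun j => ⟨j, rfl⟩

theorem fm1_pow {u : F} (hu : u ∈ Q.U) (t : ℕ) :
    Q.fm1 hu ^ t = Q.fmU (Submodule.pow_mem_pow _ hu t) :=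
  Fm.ext (Fm.pow_r _ _) ((Fm.pow_d _ _).trans
    ((zpow_natCast _ _).symm.trans (Q.cy_zero_left t).symm))

/-- An ideal of forms that meets every `mon w` contains all invariant forms of some degree. -/
theorem idl_all {Z : Fm Q.X → Prop} (hZ : IsIdl Z) (h : ∀ w, ∃ σ ∈ Q.mon w, Z σ) :
    ∃ m, ∀ σ (hσ : σ ∈ Q.U ^ m), Z (Q.fmU hσ) := by
  obtain ⟨m, hm⟩ := Q.glob (fun m =>
    { carrier := {σ | ∃ hσ : σ ∈ Q.U ^ m, Z (Q.fmU hσ)}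
      zero_mem' := ⟨zero_mem _, hZ.zero _ rfl⟩
      add_mem' := fun ⟨h, a⟩ ⟨k, c⟩ => ⟨add_mem h k, hZ.add _ _ _ a c rfl rfl rfl⟩
      smul_mem' := fun c σ ⟨h, a⟩ => ⟨Submodule.smul_mem _ c h, by
        have e : Q.fmU (Submodule.smul_mem _ c h) = Q.fmU h * ⟨c • 1, 1, (Reg.refl 1).smul c⟩ :=
          Fm.ext (by simp [fmU]) (mul_one _).symm
        exact e ▸ hZ.mul _ _ a⟩ })
    (fun m => Submodule.mul_le.2 fun u hu σ ⟨h, a⟩ => by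
      have hc : u * σ ∈ Q.U ^ (m + 1) := by rw [pow_succ']; exact Submodule.mul_mem_mul hu h
      have e : Q.fmU hc = Q.fmU h * Q.fm1 hu := Fm.ext (mul_comm _ _) (by
        change Q.cy 0 (m + 1 : ℕ) = Q.cy 0 m * Q.Tg
        rw [← cy_zero_one, cy_add, add_zero, Nat.cast_succ])
      exact ⟨hc, e ▸ hZ.mul _ _ a⟩)
    fun w => by
      obtain ⟨φ, hφ, hz⟩ := h w
      obtain ⟨m, σ, hσ, rfl⟩ := Q.mem_mon.1 hφ
      exact ⟨m, σ, hσ, _, hz⟩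
  exact ⟨m, fun σ hσ => (hm hσ).2⟩

theorem ns_fm1 {I : Type} {y : I → F} (hy : ∀ i, y i ∈ Q.U) : NS Q.mon fun i => Q.fm1 (hy i) :=
  fun Z hZ h i => by
    obtain ⟨m, hm⟩ := Q.idl_all hZ h
    exact ⟨m, Q.fm1_pow (hy i) m ▸ hm _ _⟩

theorem ns_yg : NS Q.mon Q.yg := Q.ns_fm1 Q.g_mem

variable {Q}

/-- The forms that cut out the three charts kill the classes of positive degree. -/
theorem Loc.Nrm.kills {w : Q.Pt} {L : Q.Loc w} (n : L.Nrm) (ν : Fin 3) {N : Coh Q.X}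
    (hN : LocProj N) : Kills N (n.fm ν) := by
  refine kills_of_span hN _ ?_
  change n.u ν ∈ Submodule.span ℂ {z | ∃ τ, ∃ r ∈ Q.X.Rd 1,
    Reg τ (O1 Q.X) (Q.cy 1 (n.e + 2 : ℕ)) ∧ z = r * τ}
  refine Submodule.mul_induction_on (C := fun z => z ∈ Submodule.span ℂ {z | ∃ τ, ∃ r ∈ Q.X.Rd 1,
    Reg τ (O1 Q.X) (Q.cy 1 (n.e + 2 : ℕ)) ∧ z = r * τ}) (n.alt_mem (cix ν))
    (fun a ha c hc => Submodule.subset_span ⟨a, c, ?_, ?_, mul_comm _ _⟩) fun _ _ => add_mem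
  · rwa [ProjVar.Rd, pow_one, Q.span_f]
  · have := (Q.reg_U ha).shift (O1 Q.X)
    rwa [mul_one, O1_eq, cy_add, ← O1_eq, add_zero,
      show (2 : ℤ) + n.e = (n.e + 2 : ℕ) by push_cast; ring] at this

end Pool.Agent.Lib.MP_d3d358_ag.K.Kum
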