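import Pool.Agent.Lib.MP_d3d358_ag.Bkr.Rel
import Pool.Agent.Lib.MP_d3d358_ag.K.Kz

/-! The two complexes of the covariants as complexes of sheaves near a point. -/

set_option autoImplicit false

open CategoryTheory

namespace Pool.Agent.Lib.MP_d3d358_ag.Bkr

open Pool.Agent.Lib.MP_cd184e_ag.T Pool.Agent.Lib.MP_cd184e_ag.T.Coh
open Pool.Agent.Lib.MP_d3d358_ag.K Pool.Agent.Lib.MP_d3d358_ag.K.Cy

variable {k K : Type} [Field k] [Field K] [Algebra k K] {X : ProjVar k K}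

section Maps

variable (F : Five K)

/-- The maps of the first complex. -/
def kh1 : (K × K) →ₗ[K] (Fin 5 → K) where
  toFun := F.h1
  map_add' v w := by ext i; fin_cases i <;> simp [Five.h1, wg_add_left] <;> ring
  map_smul' c v := by ext i; fin_cases i <;> simp [Five.h1, wg_smul_left]

def kh2 : (Fin 5 → K) →ₗ[K] (Fin 2 → K × K) where
  toFun c := ![(F.h2 c).1, (F.h2 c).2]
  map_add' v w := by
    refine funext fun i => ?_
    fin_cases i <;> simp [Five.h2, add_smul] <;> abel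
  map_smul' c v := by
    refine funext fun i => ?_
    fin_cases i <;> simp [Five.h2, mul_smul, smul_sub]

def kh3 : (Fin 2 → K × K) →ₗ[K] K where
  toFun w := F.h3 (w 0, w 1)
  map_add' v w := by simp [Five.h3, wg_add_right]; ring
  map_smul' c v := by simp [Five.h3, wg_smul_right]; ring

/-- The maps of the second complex. -/
def kg1 : K →ₗ[K] (Fin 2 → K × K) where
  toFun t := ![t • F.x, t • F.y]
  map_add' v w := by
    refine funext fun i => ?_
    fin_cases i <;> simp [add_smul]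
  map_smul' c v := by
    refine funext fun i => ?_
    fin_cases i <;> simp [mul_smul]

def kg2 : (Fin 2 → K × K) →ₗ[K] (Fin 5 → K) where
  toFun w := F.g2 (w 0, w 1)
  map_add' v w := by ext i; fin_cases i <;> simp [Five.g2, wg_add_left] <;> ring
  map_smul' c v := by ext i; fin_cases i <;> simp [Five.g2, wg_smul_left] <;> ring

def kg3 : (Fin 5 → K) →ₗ[K] (K × K) where
  toFun := F.g3
  map_add' v w := by simp [Five.g3, add_smul]; abel
  map_smul' c v := by simp [Five.g3, mul_smul, smul_sub]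

end Maps

/-- The five vectors and the lattices of `O` and `W` on the three charts. -/
structure KDat (S : Submonoid (Fm X)) (u : Fin 3 → Fm X) (L : Cy X) {W : Coh X}
    (EW : Emb W (K × K)) (F : Five K) where
  O : Fin 3 → Subring K
  α : Fin 3 → K
  Wl : ∀ ν, Submodule (O ν) (K × K)
  cut : ∀ ν, Cut S L (u ν) (α ν)
  hO : ∀ ν c, c ∈ (Emb.unit X).Lat S (u ν) ↔ c ∈ O ν
  hW : ∀ ν w, w ∈ EW.Lat S (u ν) ↔ w ∈ Wl ν
  lat : ∀ ν, F.Lat (O ν) (α ν) (Wl ν)
  ex : ∀ ν, F.Ex (O ν) (α ν) (Wl ν)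

variable {S : Submonoid (Fm X)} {u : Fin 3 → Fm X} {L : Cy X} {W : Coh X} {EW : Emb W (K × K)}
  {F : Five K} {D : Subgroup (Cy X)}

theorem Add.tw_pi {J : Type} [Finite J] {d : Cy X} (hd : d ∈ D) (G : Coh X) :
    Add D G ((twc d).obj (Coh.pi fun _ : J => G)) := by
  classical
  have := Fintype.ofFinite J
  refine ⟨J, inferInstance, fun _ => d, fun i => (twc d).map (proj _ i),
    fun i => (twc d).map (incl (fun _ : J => G) i), fun _ => hd, ?_⟩
  rw [Finset.sum_congr rfl fun i _ => ((twc d).map_comp _ _).symm, ← Functor.map_sum, sum_proj_incl,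
    CategoryTheory.Functor.map_id]

theorem KDat.K1 (Q : KDat S u L EW F) (T : Tr3 S u) (hD : DegIn D S) :
    Res D S ((twc L⁻¹).obj W) (unit X) W ((twc L).obj (unit X)) := by
  have hA := fun ν v => (((Q.cut ν).mem_inv (T.ne ν) EW (v := v)).trans (Q.hW ν _))
  have hB := fun ν v => (Emb.mem_Loc_pi (fun _ : Fin 5 => Emb.unit X) (T := Su S (u ν))
    (v := v)).trans (forall_congr' fun i => Q.hO ν _)
  have hC := fun ν v => (Emb.mem_Loc_pi (fun _ : Fin 2 => EW) (T := Su S (u ν))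
    (v := v)).trans (forall_congr' fun i => Q.hW ν _)
  have hE := fun ν v => (((Q.cut ν).mem_tw (T.ne ν) (Emb.unit X) (v := v)).trans (Q.hO ν _))
  obtain ⟨σ₁, h₁, σ₂, h₂, σ₃, h₃, H⟩ := T.four (EW.tw L⁻¹ 1 one_ne_zero)
    (Emb.pi fun _ : Fin 5 => Emb.unit X) (Emb.pi fun _ : Fin 2 => EW)
    ((Emb.unit X).tw L 1 one_ne_zero) ((kh1 F).restrictScalars _) ((kh2 F).restrictScalars _)
    ((kh3 F).restrictScalars _)
    (fun ν v hv => (hB ν _).2 fun i => by
      have h := fun b hb => (Q.lat ν).dual ((hA ν v).1 hv) (b := b) hb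
      fin_cases i
      exacts [neg_mem (h _ (Q.lat ν).yy), neg_mem (h _ (Q.lat ν).xx), h _ (Q.lat ν).xy,
        neg_mem (h _ (Q.lat ν).y), h _ (Q.lat ν).x])
    (fun ν c hc => (hC ν _).2 fun i => by
      have h := fun i v hv => Five.smul_mem' (W := Q.Wl ν) ((hB ν c).1 hc i) (v := v) hv
      fin_cases i
      exacts [add_mem (add_mem (add_mem (h 0 _ (Q.lat ν).x) (h 2 _ (Q.lat ν).y))
        (h 3 _ (Q.lat ν).xy)) (h 4 _ (Q.lat ν).yy), sub_mem (sub_mem (add_mem (h 1 _ (Q.lat ν).y)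
        (h 2 _ (Q.lat ν).x)) (h 3 _ (Q.lat ν).xx)) (h 4 _ (Q.lat ν).xy)])
    (fun ν w hw => (hE ν _).2 (by
      have h := (hC ν w).1 hw
      have := add_mem ((Q.lat ν).wg_mem _ (Q.lat ν).x _ (h 0)) ((Q.lat ν).wg_mem _ (Q.lat ν).y _ (h 1))
      rwa [← add_div, div_eq_inv_mul] at this))
    (fun v => funext fun i => by
      have := F.h2_h1 v
      fin_cases i
      exacts [congrArg Prod.fst this, congrArg Prod.snd this])
    (fun c => F.h3_h2 c) (Q.ex 0).b0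
    (fun ν c hc h0 => ((Q.ex ν).b1 c ((hB ν c).1 hc) (Prod.ext (congrFun h0 0) (congrFun h0 1))).imp
      fun w hw => ⟨(hA ν w).2 hw.1, hw.2⟩)
    (fun ν w hw h0 => ((Q.ex ν).b2 (w 0, w 1) ((hC ν w).1 hw 0) ((hC ν w).1 hw 1) h0).imp
      fun c hc => ⟨(hB ν c).2 hc.1, funext fun i => by
        fin_cases i
        exacts [congrArg Prod.fst hc.2, congrArg Prod.snd hc.2]⟩)
    (fun ν t ht => by
      obtain ⟨w, w1, w2, e⟩ := (Q.ex ν).b3 t (by rw [div_eq_inv_mul]; exact (hE ν t).1 ht)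
      exact ⟨![w.1, w.2], (hC ν _).2 fun i => by fin_cases i; exacts [w1, w2], e⟩)
  exact ⟨_, _, _, _, H, Add.refl _, Add.tw_pi (hD _ h₁) _, Add.tw_pi (hD _ h₂) _,
    Add.tw (hD _ h₃) _⟩

theorem KDat.K2 (Q : KDat S u L EW F) (T : Tr3 S u) (hD : DegIn D S) :
    Res D S ((twc L⁻¹).obj (unit X)) ((twc L⁻¹).obj W) (unit X) W := by
  have hA := fun ν v => (((Q.cut ν).mem_inv (T.ne ν) (Emb.unit X) (v := v)).trans (Q.hO ν _))
  have hB := fun ν v => (Emb.mem_Loc_pi (fun _ : Fin 2 => EW.tw L⁻¹ 1 one_ne_zero)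
    (T := Su S (u ν)) (v := v)).trans (forall_congr' fun i =>
      ((Q.cut ν).mem_inv (T.ne ν) EW).trans (Q.hW ν _))
  have hC := fun ν v => (Emb.mem_Loc_pi (fun _ : Fin 5 => Emb.unit X) (T := Su S (u ν))
    (v := v)).trans (forall_congr' fun i => Q.hO ν _)
  obtain ⟨σ₁, h₁, σ₂, h₂, σ₃, h₃, H⟩ := T.four ((Emb.unit X).tw L⁻¹ 1 one_ne_zero)
    (Emb.pi fun _ : Fin 2 => EW.tw L⁻¹ 1 one_ne_zero) (Emb.pi fun _ : Fin 5 => Emb.unit X) EW
    ((kg1 F).restrictScalars _) ((kg2 F).restrictScalars _) ((kg3 F).restrictScalars _)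
    (fun ν t ht => (hB ν _).2 fun i => by
      have h := fun v hv => Five.smul_mem' (W := Q.Wl ν) ((hA ν t).1 ht) (v := v) hv
      simp only [smul_assoc] at h
      fin_cases i
      exacts [h _ (Q.lat ν).x, h _ (Q.lat ν).y])
    (fun ν w hw => (hC ν _).2 fun i => by
      have h := fun i b hb => (Q.lat ν).dual ((hB ν w).1 hw i) (b := b) hb
      fin_cases i
      exacts [h 0 _ (Q.lat ν).x, h 1 _ (Q.lat ν).y, add_mem (h 0 _ (Q.lat ν).y) (h 1 _ (Q.lat ν).x),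
        sub_mem (h 0 _ (Q.lat ν).xy) (h 1 _ (Q.lat ν).xx),
        sub_mem (h 0 _ (Q.lat ν).yy) (h 1 _ (Q.lat ν).xy)])
    (fun ν c hc => (Q.hW ν _).2 (by
      have h := fun i v hv => Five.smul_mem' (W := Q.Wl ν) ((hC ν c).1 hc i) (v := v) hv
      exact add_mem (sub_mem (add_mem (sub_mem (neg_mem (h 0 _ (Q.lat ν).yy)) (h 1 _ (Q.lat ν).xx))
        (h 2 _ (Q.lat ν).xy)) (h 3 _ (Q.lat ν).y)) (h 4 _ (Q.lat ν).x)))
    (fun t => F.g2_g1 t) (fun w => F.g3_g2 _)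
    (fun t h0 => (Q.ex 0).a0 t (congrFun h0 0) (congrFun h0 1))
    (fun ν w hw h0 => ((Q.ex ν).a1 (w 0, w 1) ((hB ν w).1 hw 0) ((hB ν w).1 hw 1) h0).imp
      fun t ht => ⟨(hA ν t).2 ht.1, funext fun i => by
        fin_cases i
        exacts [(congrArg Prod.fst ht.2).symm, (congrArg Prod.snd ht.2).symm]⟩)
    (fun ν c hc h0 => by
      obtain ⟨w, w1, w2, e⟩ := (Q.ex ν).a2 c ((hC ν c).1 hc) h0
      exact ⟨![w.1, w.2], (hB ν _).2 fun i => by fin_cases i; exacts [w1, w2], e⟩)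
    (fun ν w hw => ((Q.ex ν).a3 w ((Q.hW ν w).1 hw)).imp fun c hc => ⟨(hC ν c).2 hc.1, hc.2⟩)
  exact ⟨_, _, _, _, H, Add.refl _, Add.tw_pi (hD _ h₁) _, Add.tw_pi (hD _ h₂) _,
    Add.tw (hD _ h₃) _⟩

end Pool.Agent.Lib.MP_d3d358_ag.Bkr
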