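import Pool.Agent.Lib.MP_d3d358_ag.Bkr.Lat

/-! A sheaf whose lattices are free is locally projective. -/

set_option autoImplicit false

open CategoryTheory

namespace Pool.Agent.Lib.MP_d3d358_ag.Bkr

open Pool.Agent.Lib.MP_cd184e_ag.T Pool.Agent.Lib.MP_cd184e_ag.T.Coh
open Pool.Agent.Lib.MP_d3d358_ag.K Pool.Agent.Lib.MP_d3d358_ag.K.Cy

/-- A module with a dual basis up to a factor outside each maximal ideal is projective. -/
theorem projective_of_dual {A M : Type} [CommRing A] [AddCommGroup M] [Module A M]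
    (h : ∀ m : Ideal A, m.IsMaximal → ∃ a ∉ m, ∃ (ι : Type) (_ : Fintype ι) (c : ι → M →ₗ[A] A)
      (b : ι → M), ∀ x, ∑ i, c i x • b i = a • x) : Module.Projective A M := by
  let I : Ideal A :=
    { carrier := {a | ∃ s : M →ₗ[A] M →₀ A, ∀ x, Finsupp.linearCombination A id (s x) = a • x}
      zero_mem' := ⟨0, fun x => by simp⟩
      add_mem' := by
        rintro a a' ⟨s, hs⟩ ⟨s', hs'⟩
        exact ⟨s + s', fun x => by rw [LinearMap.add_apply, map_add, hs, hs', add_smul]⟩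
      smul_mem' := by
        rintro r a ⟨s, hs⟩
        exact ⟨r • s, fun x => by rw [LinearMap.smul_apply, map_smul, hs, smul_eq_mul, mul_smul]⟩ }
  have hI : I = ⊤ := by
    by_contra hne
    obtain ⟨m, hm, hle⟩ := Ideal.exists_le_maximal I hne
    obtain ⟨a, ha, ι, _, c, b, e⟩ := h m hm
    refine ha (hle ⟨∑ i, Finsupp.lsingle (b i) ∘ₗ c i, fun x => ?_⟩)
    rw [← e, LinearMap.sum_apply, map_sum]
    exact Finset.sum_congr rfl fun i _ => by simp
  obtain ⟨s, hs⟩ : (1 : A) ∈ I := hI ▸ Submodule.mem_top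
  exact ⟨s, fun x => (hs x).trans (one_smul _ _)⟩

variable {k K : Type} [Field k] [Field K] [Algebra k K] {X : ProjVar k K}
  {V : Type} [AddCommGroup V] [Module K V] {N : Coh X}

/-- Independence over the function field. -/
def RInd (X : ProjVar k K) {ι : Type} [Fintype ι] (b : ι → V) : Prop :=
  ∀ c : ι → K, (∀ i, c i ∈ Rat X) → ∑ i, c i • b i = 0 → ∀ i, c i = 0

/-- The sections over one open set have a frame near the prime ideal `m`. -/
theorem Emb.exists_dual (E : Emb N V) (s : X.Idx) (m : Ideal (X.A s.1)) [hm : m.IsPrime]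
    {ι : Type} [Fintype ι] {b : ι → V} (hb : RInd X b)
    (h1 : ∀ i, ∃ a ∉ m, (a : K) • b i ∈ E.Im s)
    (h2 : ∀ v ∈ E.Im s, ∃ a ∉ m, ∃ c : ι → X.A s.1, (a : K) • v = ∑ i, (c i : K) • b i) :
    ∃ a ∉ m, ∃ (c : ι → N.obj s →ₗ[X.A s.1] X.A s.1) (b' : ι → N.obj s),
      ∀ x, ∑ i, c i x • b' i = a • x := by
  classical
  have np : ∀ {α : Type} (B : Finset α) (a : α → X.A s.1), (∀ x, a x ∉ m) → ∏ x ∈ B, a x ∉ m :=
    fun B a h => prod_mem (S := m.primeCompl) fun x _ => h x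
  let P : X.A s.1 → Submodule (X.A s.1) (N.obj s) := fun a =>
    { carrier := {x | ∃ c : ι → X.A s.1, (a : K) • E.e s x = ∑ i, (c i : K) • b i}
      zero_mem' := ⟨0, by simp⟩
      add_mem' := by
        rintro x y ⟨c, e⟩ ⟨c', e'⟩
        exact ⟨c + c', by simp [e, e', add_smul, Finset.sum_add_distrib]⟩
      smul_mem' := by
        rintro r x ⟨c, e⟩
        refine ⟨fun i => r * c i, ?_⟩
        rw [E.smul, smul_comm, e, Finset.smul_sum]
        exact Finset.sum_congr rfl fun i _ => by rw [MulMemClass.coe_mul, mul_smul] }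
  have mono : ∀ a a' x, x ∈ P a → x ∈ P (a' * a) := by
    rintro a a' x ⟨c, e⟩
    refine ⟨fun i => a' * c i, ?_⟩
    rw [MulMemClass.coe_mul, mul_smul, e, Finset.smul_sum]
    exact Finset.sum_congr rfl fun i _ => by rw [MulMemClass.coe_mul, mul_smul]
  obtain ⟨B, hB⟩ := (Module.Finite.fg_top : (⊤ : Submodule (X.A s.1) (N.obj s)).FG)
  choose a ha hx using fun x => h2 _ (E.e_mem s x)
  have hall : ∀ x, x ∈ P (∏ y ∈ B, a y) := fun x => by
    have : Submodule.span (X.A s.1) (B : Set (N.obj s)) ≤ P (∏ y ∈ B, a y) :=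
      Submodule.span_le.2 fun y hy => by
        rw [← Finset.prod_erase_mul _ _ hy]; exact mono _ _ _ (hx y)
    exact this (hB ▸ Submodule.mem_top)
  choose c hc using hall
  have uniq : ∀ c c' : ι → X.A s.1, ∑ i, (c i : K) • b i = ∑ i, (c' i : K) • b i → c = c' :=
    fun c c' e => funext fun i => Subtype.ext (sub_eq_zero.1 (hb (fun i => (c i : K) - c' i)
      (fun i => sub_mem (coe_mem_Rat _) (coe_mem_Rat _))
      (by simp only [sub_smul, Finset.sum_sub_distrib, e, sub_self]) i))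
  have cadd : ∀ x y, c (x + y) = c x + c y := fun x y => uniq _ _ (by
    rw [← hc, map_add, smul_add, hc, hc, ← Finset.sum_add_distrib]
    exact Finset.sum_congr rfl fun i _ => by rw [Pi.add_apply, AddMemClass.coe_add, add_smul])
  have csm : ∀ (r : X.A s.1) x, c (r • x) = fun i => r * c x i := fun r x => uniq _ _ (by
    rw [← hc, E.smul, smul_comm, hc, Finset.smul_sum]
    exact Finset.sum_congr rfl fun i _ => by rw [MulMemClass.coe_mul, mul_smul])
  choose d hd y hy using h1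
  refine ⟨(∏ i, d i) * ∏ y ∈ B, a y, fun h => (hm.mem_or_mem h).elim (np _ _ hd) (np _ _ ha),
    fun i => ⟨⟨fun x => c x i, fun x y => congrFun (cadd x y) i⟩, fun r x => congrFun (csm r x) i⟩,
    fun i => (∏ l ∈ Finset.univ.erase i, d l) • y i, fun x => E.inj s ?_⟩
  rw [map_sum, E.smul, MulMemClass.coe_mul, mul_smul, hc, Finset.smul_sum]
  refine Finset.sum_congr rfl fun i _ => ?_
  rw [E.smul, E.smul, hy, ← Finset.prod_erase_mul _ _ (Finset.mem_univ i), MulMemClass.coe_mul,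
    mul_smul, smul_comm]
  exact congrArg _ (smul_comm (c x i : K) _ _)

/-- A section over a chart lies in the lattice after a factor that is a quotient of two forms. -/
theorem Emb.exists_pow_mem_Loc (E : Emb N V) {T : Submonoid (Fm X)} {u τ : Fm X} (hu : u ∈ T)
    (h0 : u.r ≠ 0) (hd : u.d = O1 X * τ.d) (j : X.J) {v : V} (hv : v ∈ E.Im (X.one j)) :
    ∃ n : ℕ, ((τ.sec (X.one j) : K) / u.sec (X.one j)) ^ n • v ∈ E.Loc T := by
  obtain ⟨n, hn⟩ := E.exists_co_pow j hv
  refine ⟨n, u ^ n, pow_mem hu n, fun s => ?_⟩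
  have e : (u.sec s : K) * (τ.sec (X.one j) / u.sec (X.one j)) = τ.sec s * X.co j.1 s := by
    have := X.fp_ne s
    have := τ.d.fp_ne s
    have := τ.d.ne j
    have := X.ne _ j.2
    simp only [Fm.coe_sec, hd, mul_fp, fp_one, mul_l, ProjVar.coe_co]
    rw [O1_fp, show (O1 X).l j = X.f j.1 from rfl]
    field_simp
  rw [Fm.pow_sec, SubmonoidClass.coe_pow, ← mul_smul, ← mul_pow, e, mul_pow, mul_smul]
  exact Emb.smul_mem (pow_mem (τ.sec s).2 n) (hn s)

/-- Free lattices at all points give a locally projective sheaf. -/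
theorem Emb.locProj (E : Emb N V)
    (h : ∀ (j : X.J) (m : Ideal (X.A (X.one j).1)), m.IsMaximal →
      ∃ T : Submonoid (Fm X), (∀ σ ∈ T, σ.sec (X.one j) ∉ m) ∧
        (∃ u ∈ T, ∃ τ ∈ T, u.d = O1 X * τ.d) ∧
        ∃ (ι : Type) (_ : Fintype ι) (b : ι → V), RInd X b ∧ (∀ i, b i ∈ E.Loc T) ∧
          ∀ v ∈ E.Loc T, ∃ c : ι → K, (∀ i, c i ∈ (Emb.unit X).Loc T) ∧ v = ∑ i, c i • b i) :
    LocProj N := fun j => projective_of_dual fun m hm => by
  classical
  obtain ⟨T, hT, ⟨u, hu, τ, hτ, hd⟩, ι, _, b, hb, h1, h2⟩ := h j m hm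
  have h0 : u.r ≠ 0 := fun e => hT u hu (by
    rw [show u.sec (X.one j) = 0 from Subtype.ext (by rw [Fm.coe_sec, e, zero_div]; rfl)]
    exact zero_mem _)
  obtain ⟨a, ha, c, b', e⟩ := E.exists_dual (X.one j) m hb (fun i => by
    obtain ⟨ρ, hρ, e⟩ := h1 i
    exact ⟨_, hT ρ hρ, e _⟩) fun v hv => by
      obtain ⟨n, hn⟩ := E.exists_pow_mem_Loc hu h0 hd j hv
      obtain ⟨c, hc, e⟩ := h2 _ hn
      obtain ⟨ρ, hρ, hc'⟩ := (Emb.mem_Loc_pi (fun _ : ι => Emb.unit X)).2 hc
      have hc2 := fun i => Emb.mem_unit.1 ((Emb.mem_pi _ _).1 (hc' (X.one j)) i)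
      refine ⟨_, hT _ (mul_mem hρ (pow_mem hτ n)), fun i => u.sec _ ^ n * ⟨_, hc2 i⟩, ?_⟩
      have hu0 := Fm.sec_ne h0 (X.one j)
      have e1 : ((ρ * τ ^ n).sec (X.one j) : K) = u.sec (X.one j) ^ n * ρ.sec (X.one j) *
          ((τ.sec (X.one j) : K) / u.sec (X.one j)) ^ n := by
        rw [Fm.mul_sec, Fm.pow_sec, MulMemClass.coe_mul, SubmonoidClass.coe_pow, div_pow]
        field_simp
      rw [e1, mul_smul, e, Finset.smul_sum]
      refine Finset.sum_congr rfl fun i _ => ?_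
      rw [← mul_smul, MulMemClass.coe_mul, SubmonoidClass.coe_pow, mul_assoc]
      rfl
  exact ⟨a, ha, ι, inferInstance, c, b', e⟩

end Pool.Agent.Lib.MP_d3d358_ag.Bkr
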