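import Pool.Agent.Lib.MP_d3d358_ag.Bkr.Fm
import Pool.Agent.Lib.MP_cd184e_ag.T.Extend

/-! Sheaves inside a vector space over the big field, their lattices near a point, and the
dictionary between maps of sheaves and maps of the generic fibres. -/

set_option autoImplicit false

open CategoryTheory

namespace Pool.Agent.Lib.MP_d3d358_ag.Bkr

open Pool.Agent.Lib.MP_cd184e_ag.T Pool.Agent.Lib.MP_cd184e_ag.T.Coh
open Pool.Agent.Lib.MP_d3d358_ag.K Pool.Agent.Lib.MP_d3d358_ag.K.Cy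

variable {k K : Type} [Field k] [Field K] [Algebra k K] {X : ProjVar k K}

/-- The intersection of all charts. -/
def top (X : ProjVar k K) : X.Idx := ⟨X.J, X.nonempty, Finset.Subset.refl _⟩

theorem le_top' (s : X.Idx) : s ≤ top X := s.2.2

theorem mem_top {s : X.Idx} {a : K} (h : a ∈ X.A s.1) : a ∈ X.A (top X).1 :=
  X.A_mono (le_top' s) h

/-- The function field. -/
def Rat (X : ProjVar k K) : Subfield K where
  carrier := {c | ∃ p ∈ X.A (top X).1, ∃ q ∈ X.A (top X).1, q ≠ 0 ∧ c = p / q}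
  mul_mem' := by
    rintro _ _ ⟨p, hp, q, hq, h, rfl⟩ ⟨p', hp', q', hq', h', rfl⟩
    exact ⟨_, mul_mem hp hp', _, mul_mem hq hq', mul_ne_zero h h', div_mul_div_comm _ _ _ _⟩
  one_mem' := ⟨1, one_mem _, 1, one_mem _, one_ne_zero, by simp⟩
  add_mem' := by
    rintro _ _ ⟨p, hp, q, hq, h, rfl⟩ ⟨p', hp', q', hq', h', rfl⟩
    exact ⟨_, add_mem (mul_mem hp hq') (mul_mem hq hp'), _, mul_mem hq hq', mul_ne_zero h h',
      div_add_div _ _ h h'⟩
  zero_mem' := ⟨0, zero_mem _, 1, one_mem _, one_ne_zero, by simp⟩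
  neg_mem' := by
    rintro _ ⟨p, hp, q, hq, h, rfl⟩
    exact ⟨_, neg_mem hp, q, hq, h, (neg_div _ _).symm⟩
  inv_mem' := by
    rintro _ ⟨p, hp, q, hq, h, rfl⟩
    by_cases h0 : p = 0
    · exact ⟨0, zero_mem _, 1, one_mem _, one_ne_zero, by simp [h0]⟩
    · exact ⟨q, hq, p, hp, h0, inv_div _ _⟩

theorem mem_Rat {s : X.Idx} {a : K} (h : a ∈ X.A s.1) : a ∈ Rat X :=
  ⟨a, mem_top h, 1, one_mem _, one_ne_zero, by simp⟩

theorem coe_mem_Rat {s : X.Idx} (a : X.A s.1) : (a : K) ∈ Rat X := mem_Rat a.2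

/-- The forms `σ * u ^ t` with `σ` in `S`. -/
def Su (S : Submonoid (Fm X)) (u : Fm X) : Submonoid (Fm X) where
  carrier := {ρ | ∃ σ ∈ S, ∃ t : ℕ, ρ = σ * u ^ t}
  one_mem' := ⟨1, one_mem _, 0, by simp⟩
  mul_mem' := by
    rintro _ _ ⟨σ, hσ, t, rfl⟩ ⟨σ', hσ', t', rfl⟩
    exact ⟨σ * σ', mul_mem hσ hσ', t + t', by rw [pow_add, mul_mul_mul_comm]⟩

theorem mem_Su {S : Submonoid (Fm X)} {σ : Fm X} (h : σ ∈ S) (u : Fm X) : σ ∈ Su S u :=
  ⟨σ, h, 0, by simp⟩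

theorem self_mem_Su (S : Submonoid (Fm X)) (u : Fm X) : u ∈ Su S u := ⟨1, one_mem _, 1, by simp⟩

/-- No form of the family is zero. -/
def NZ (S : Submonoid (Fm X)) : Prop := ∀ σ ∈ S, σ.r ≠ 0

theorem NZ.su {S : Submonoid (Fm X)} (h : NZ S) {u : Fm X} (hu : u.r ≠ 0) : NZ (Su S u) := by
  rintro _ ⟨σ, hσ, t, rfl⟩
  rw [Fm.mul_r, Fm.pow_r]
  exact mul_ne_zero (h σ hσ) (pow_ne_zero _ hu)

theorem Fm.sec_ne {σ : Fm X} (h : σ.r ≠ 0) (s : X.Idx) : (σ.sec s : K) ≠ 0 := by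
  rw [Fm.coe_sec]; exact div_ne_zero h (σ.d.fp_ne s)

/-- One form works for all sections of finitely generated modules on all charts. -/
theorem unif (T : Submonoid (Fm X)) (M : X.Idx → Type) [∀ s, AddCommGroup (M s)]
    [∀ s, Module (X.A s.1) (M s)] [∀ s, Module.Finite (X.A s.1) (M s)]
    (P : ∀ s, Fm X → Submodule (X.A s.1) (M s)) (mono : ∀ s ρ ρ', P s ρ ≤ P s (ρ * ρ'))
    (h : ∀ s x, ∃ ρ ∈ T, x ∈ P s ρ) : ∃ ρ ∈ T, ∀ s x, x ∈ P s ρ := by
  classical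
  have h1 : ∀ s, ∃ ρ ∈ T, ∀ x, x ∈ P s ρ := fun s => by
    obtain ⟨B, hB⟩ := (Module.Finite.fg_top : (⊤ : Submodule (X.A s.1) (M s)).FG)
    choose ρ hρ hx using h s
    refine ⟨∏ x ∈ B, ρ x, prod_mem fun x _ => hρ x, fun x => ?_⟩
    have : Submodule.span (X.A s.1) (B : Set (M s)) ≤ P s (∏ x ∈ B, ρ x) :=
      Submodule.span_le.2 fun y hy => by
        rw [← Finset.mul_prod_erase _ _ hy]; exact mono s _ _ (hx y)
    exact this (hB ▸ Submodule.mem_top)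
  choose ρ hρ hx using h1
  have := Fintype.ofFinite X.Idx
  refine ⟨∏ s, ρ s, prod_mem fun s _ => hρ s, fun s x => ?_⟩
  rw [← Finset.mul_prod_erase _ _ (Finset.mem_univ s)]
  exact mono s _ _ (hx s x)

variable {V V' : Type} [AddCommGroup V] [Module K V] [AddCommGroup V'] [Module K V']

/-- An additive map that is linear over the function field. -/
def RLin (X : ProjVar k K) (ψ : V →+ V') : Prop := ∀ c ∈ Rat X, ∀ v, ψ (c • v) = c • ψ v

/-- A sheaf inside the vector space `V`. -/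
structure Emb (N : Coh X) (V : Type) [AddCommGroup V] [Module K V] where
  e : ∀ s, N.obj s →+ V
  smul : ∀ (s : X.Idx) (a : X.A s.1) (x : N.obj s), e s (a • x) = (a : K) • e s x
  res : ∀ {s t : X.Idx} (h : s ≤ t) (x : N.obj s), e t (N.res h x) = e s x
  inj : ∀ s, Function.Injective (e s)

namespace Emb

variable {G N : Coh X}

/-- The sections over the open set of index `s`, inside `V`. -/
def Im (E : Emb N V) (s : X.Idx) : AddSubgroup V := (E.e s).range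

theorem e_mem (E : Emb N V) (s : X.Idx) (x : N.obj s) : E.e s x ∈ E.Im s := ⟨x, rfl⟩

theorem smul_mem {E : Emb N V} {s : X.Idx} {a : K} (ha : a ∈ X.A s.1) {v : V} (hv : v ∈ E.Im s) :
    a • v ∈ E.Im s := by
  obtain ⟨x, rfl⟩ := hv
  exact ⟨(⟨a, ha⟩ : X.A s.1) • x, E.smul s _ x⟩

theorem Im_mono (E : Emb N V) {s t : X.Idx} (h : s ≤ t) : E.Im s ≤ E.Im t := by
  rintro _ ⟨x, rfl⟩
  exact ⟨_, E.res h x⟩

theorem exists_den (E : Emb N V) {s t : X.Idx} (h : s ≤ t) {v : V} (hv : v ∈ E.Im t) :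
    ∃ a : X.A s.1, IsUnit (X.inc h a) ∧ (a : K) • v ∈ E.Im s := by
  obtain ⟨y, rfl⟩ := hv
  obtain ⟨a, x, ha, e⟩ := N.surj h y
  exact ⟨a, ha, x, by rw [← E.res h, ← e, E.smul, ProjVar.coe_inc]⟩

/-- A section over a chart extends after multiplication by a power of the coordinate. -/
theorem exists_co_pow (E : Emb N V) (j : X.J) {v : V} (hv : v ∈ E.Im (X.one j)) :
    ∃ m : ℕ, ∀ s, (X.co j.1 s : K) ^ m • v ∈ E.Im s := by
  have h1 : ∀ s, ∃ m : ℕ, (X.co j.1 s : K) ^ m • v ∈ E.Im s := fun s => by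
    obtain ⟨a, ha, h⟩ := E.exists_den (ProjVar.le_ins j s) (E.Im_mono (ProjVar.one_le_ins j s) hv)
    obtain ⟨m, b, hb⟩ := ProjVar.dvd_co_pow j s ha
    refine ⟨m, ?_⟩
    have e : (X.co j.1 s : K) ^ m = b * a := by
      simpa [mul_comm] using congrArg Subtype.val hb
    rw [e, mul_smul]
    exact smul_mem b.2 h
  choose m hm using h1
  have := Fintype.ofFinite X.Idx
  refine ⟨∑ s, m s, fun s => ?_⟩
  obtain ⟨c, hc⟩ := Nat.exists_eq_add_of_le'
    (Finset.single_le_sum (f := m) (fun _ _ => Nat.zero_le _) (Finset.mem_univ s))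
  rw [hc, pow_add, mul_smul]
  exact smul_mem (pow_mem (X.co j.1 s).2 c) (hm s)

/-- Functions on a chart, inside the field. -/
def unitE (s : X.Idx) : (Coh.unit X).obj s →+ K :=
  AddMonoidHom.mk' (fun x : X.A s.1 => (x : K)) fun x y => AddMemClass.coe_add _ x y

theorem unitE_apply (s : X.Idx) (x : X.A s.1) : unitE s x = (x : K) := rfl

theorem unit_res {s t : X.Idx} (h : s ≤ t) (x : X.A s.1) : (Coh.unit X).res h x = X.inc h x := rfl

/-- The structure sheaf inside the field. -/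
def unit (X : ProjVar k K) : Emb (Coh.unit X) K where
  e := unitE
  smul s a x := MulMemClass.coe_mul _ a (show X.A s.1 from x)
  res {s t} h x := (congrArg (unitE t) (unit_res h x)).trans
    ((unitE_apply t _).trans ((X.coe_inc h x).trans (unitE_apply s x).symm))
  inj _ := Subtype.val_injective

theorem mem_unit {s : X.Idx} {c : K} : c ∈ (unit X).Im s ↔ c ∈ X.A s.1 :=
  ⟨fun ⟨x, e⟩ => e ▸ x.2, fun h => ⟨⟨c, h⟩, rfl⟩⟩

/-- The twist by `a`, divided by `r`. -/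
noncomputable def tw (E : Emb N V) (a : Cy X) (r : K) (hr : r ≠ 0) : Emb ((twc a).obj N) V where
  e s := (DistribSMul.toAddMonoidHom V (a.fp s / r)).comp (E.e s)
  smul s c x := by
    change (a.fp s / r) • E.e s (c • x) = (c : K) • (a.fp s / r) • E.e s x
    rw [E.smul, smul_comm]
  res {s t} h x := by
    change (a.fp t / r) • E.e t (a.tr h • N.res h x) = (a.fp s / r) • E.e s x
    have := a.fp_ne t
    rw [E.smul, E.res, ← mul_smul, coe_tr]
    congr 1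
    field_simp
  inj s x y h := E.inj s (smul_right_injective V (div_ne_zero (a.fp_ne s) hr) h)

theorem tw_e (E : Emb N V) (a : Cy X) {r : K} (hr : r ≠ 0) (s : X.Idx) (x : N.obj s) :
    (E.tw a r hr).e s x = (a.fp s / r) • E.e s x := rfl

theorem tw_mul_e (E : Emb N V) (a : Cy X) {r : K} (hr : r ≠ 0) {ρ : Fm X} (hρ : ρ.r ≠ 0)
    (s : X.Idx) (x : N.obj s) :
    (ρ.sec s : K) • (E.tw (a * ρ.d) (r * ρ.r) (mul_ne_zero hr hρ)).e s x = (E.tw a r hr).e s x := by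
  have := ρ.d.fp_ne s
  rw [tw_e, tw_e, ← mul_smul, Fm.coe_sec, mul_fp]
  congr 1
  field_simp

theorem mem_tw_mul (E : Emb N V) (a : Cy X) {r : K} (hr : r ≠ 0) {ρ : Fm X} (hρ : ρ.r ≠ 0)
    (s : X.Idx) {v : V} : v ∈ (E.tw (a * ρ.d) (r * ρ.r) (mul_ne_zero hr hρ)).Im s ↔
      (ρ.sec s : K) • v ∈ (E.tw a r hr).Im s := by
  constructor
  · rintro ⟨x, rfl⟩
    exact ⟨x, (E.tw_mul_e a hr hρ s x).symm⟩
  · rintro ⟨x, e⟩
    exact ⟨x, smul_right_injective V (Fm.sec_ne hρ s) ((E.tw_mul_e a hr hρ s x).trans e)⟩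

/-- Finite products. -/
def pi {ι : Type} [Finite ι] {M : ι → Coh X} (E : ∀ i, Emb (M i) V) : Emb (Coh.pi M) (ι → V) where
  e s := AddMonoidHom.pi fun i => ((E i).e s).comp (Pi.evalAddMonoidHom _ i)
  smul s a x := funext fun i => (E i).smul s a (x i)
  res h x := funext fun i => (E i).res h (x i)
  inj s _ _ h := funext fun i => (E i).inj s (congrFun h i)

theorem mem_pi {ι : Type} [Finite ι] {M : ι → Coh X} (E : ∀ i, Emb (M i) V) (s : X.Idx)
    {v : ι → V} : v ∈ (pi E).Im s ↔ ∀ i, v i ∈ (E i).Im s :=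
  ⟨fun ⟨x, e⟩ i => ⟨x i, congrFun e i⟩, fun h => by
    choose x hx using h
    exact ⟨x, funext hx⟩⟩

/-- The vectors that become global sections after multiplication by a form of `T`. -/
def Loc (E : Emb N V) (T : Submonoid (Fm X)) : AddSubgroup V where
  carrier := {v | ∃ ρ ∈ T, ∀ s, (ρ.sec s : K) • v ∈ E.Im s}
  zero_mem' := ⟨1, one_mem _, fun s => by rw [smul_zero]; exact zero_mem _⟩
  add_mem' := by
    rintro v w ⟨ρ, hρ, h⟩ ⟨ρ', hρ', h'⟩
    refine ⟨ρ * ρ', mul_mem hρ hρ', fun s => ?_⟩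
    rw [Fm.mul_sec, MulMemClass.coe_mul, smul_add]
    refine add_mem ?_ (by rw [mul_smul]; exact smul_mem (ρ.sec s).2 (h' s))
    rw [mul_comm, mul_smul]; exact smul_mem (ρ'.sec s).2 (h s)
  neg_mem' := by
    rintro v ⟨ρ, hρ, h⟩
    exact ⟨ρ, hρ, fun s => by rw [smul_neg]; exact neg_mem (h s)⟩

/-- The lattice of the sheaf on the part `u ≠ 0` of the fibre over the point. -/
abbrev Lat (E : Emb N V) (S : Submonoid (Fm X)) (u : Fm X) : AddSubgroup V := E.Loc (Su S u)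

theorem Loc_mono (E : Emb N V) {T T' : Submonoid (Fm X)} (h : T ≤ T') : E.Loc T ≤ E.Loc T' :=
  fun _ ⟨ρ, hρ, e⟩ => ⟨ρ, h hρ, e⟩

theorem smul_mem_Loc {E : Emb N V} {T : Submonoid (Fm X)} {c : K} (hc : c ∈ (unit X).Loc T)
    {v : V} (hv : v ∈ E.Loc T) : c • v ∈ E.Loc T := by
  obtain ⟨ρ, hρ, h⟩ := hc
  obtain ⟨ρ', hρ', h'⟩ := hv
  refine ⟨ρ * ρ', mul_mem hρ hρ', fun s => ?_⟩
  have := smul_mem (mem_unit.1 (h s)) (h' s)
  rwa [Fm.mul_sec, MulMemClass.coe_mul, ← mul_smul, mul_right_comm, mul_smul]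

theorem Loc_unit_le_Rat {T : Submonoid (Fm X)} (hT : NZ T) {c : K} (hc : c ∈ (unit X).Loc T) :
    c ∈ Rat X := by
  obtain ⟨ρ, hρ, h⟩ := hc
  have h0 := Fm.sec_ne (hT ρ hρ) (top X)
  exact ⟨_, mem_unit.1 (h (top X)), _, (ρ.sec (top X)).2, h0, by
    rw [smul_eq_mul, mul_div_cancel_left₀ _ h0]⟩

theorem mem_Loc_pi {ι : Type} [Finite ι] {M : ι → Coh X} (E : ∀ i, Emb (M i) V)
    {T : Submonoid (Fm X)} {v : ι → V} : v ∈ (pi E).Loc T ↔ ∀ i, v i ∈ (E i).Loc T := by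
  classical
  refine ⟨fun ⟨ρ, hρ, h⟩ i => ⟨ρ, hρ, fun s => (mem_pi E s).1 (h s) i⟩, fun h => ?_⟩
  choose ρ hρ h using h
  have := Fintype.ofFinite ι
  refine ⟨∏ i, ρ i, prod_mem fun i _ => hρ i, fun s => (mem_pi E s).2 fun i => ?_⟩
  rw [← Finset.prod_erase_mul _ _ (Finset.mem_univ i), Fm.mul_sec, MulMemClass.coe_mul,
    Pi.smul_apply, mul_smul]
  exact smul_mem (Fm.sec _ s).2 (h i s)

theorem Loc_tw_mul (E : Emb N V) (a : Cy X) {r : K} (hr : r ≠ 0) {T : Submonoid (Fm X)} {ρ : Fm X}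
    (hT : ρ ∈ T) (hρ : ρ.r ≠ 0) :
    (E.tw (a * ρ.d) (r * ρ.r) (mul_ne_zero hr hρ)).Loc T = (E.tw a r hr).Loc T := by
  ext v
  constructor
  · rintro ⟨τ, hτ, h⟩
    refine ⟨ρ * τ, mul_mem hT hτ, fun s => ?_⟩
    rw [Fm.mul_sec, MulMemClass.coe_mul, mul_smul]
    exact (E.mem_tw_mul a hr hρ s).1 (h s)
  · rintro ⟨τ, hτ, h⟩
    exact ⟨τ, hτ, fun s => (E.mem_tw_mul a hr hρ s).2 (smul_mem (ρ.sec s).2 (h s))⟩

/-- A map of the generic fibres that keeps the sections is a map of sheaves. -/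
theorem exists_hom (E : Emb G V) (E' : Emb N V') {ψ : V →+ V'} (hψ : RLin X ψ)
    (h : ∀ s x, ψ (E.e s x) ∈ E'.Im s) :
    ∃ n : G ⟶ N, ∀ s x, E'.e s (n.app s x) = ψ (E.e s x) := by
  choose y hy using h
  refine ⟨⟨fun s => ⟨⟨y s, fun x x' => E'.inj s ?_⟩, fun c x => E'.inj s ?_⟩,
    fun h x => E'.inj _ ?_⟩, hy⟩
  · rw [hy, map_add, map_add, map_add, hy, hy]
  · change E'.e s (y s (c • x)) = E'.e s (c • y s x)
    rw [hy, E.smul, hψ _ (coe_mem_Rat c), E'.smul, hy]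
  · change E'.e _ (y _ (G.res h x)) = E'.e _ (N.res h (y _ x))
    rw [hy, E.res, E'.res, hy]

/-- A map of sheaves extends to the generic fibres. -/
theorem exists_hat (E : Emb G V) (E' : Emb N V') (n : G ⟶ N) :
    ∃ ψ : V →+ V', RLin X ψ ∧ ∀ s x, ψ (E.e s x) = E'.e s (n.app s x) := by
  let Γ : Submodule (Rat X) (V × V') :=
    { carrier := {p | ∃ a ∈ X.A (top X).1, a ≠ 0 ∧ ∃ x, E.e _ x = a • p.1 ∧
        E'.e _ (n.app (top X) x) = a • p.2}
      zero_mem' := ⟨1, one_mem _, one_ne_zero, 0, by simp, by simp⟩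
      add_mem' := by
        rintro p q ⟨a, ha, h0, x, e1, e2⟩ ⟨b, hb, h1, y, f1, f2⟩
        refine ⟨a * b, mul_mem ha hb, mul_ne_zero h0 h1,
          (⟨b, hb⟩ : X.A _) • x + (⟨a, ha⟩ : X.A _) • y, ?_, ?_⟩
        · rw [map_add, E.smul, E.smul, e1, f1, Prod.fst_add, smul_add, ← mul_smul, ← mul_smul,
            mul_comm b a]
        · rw [map_add, map_smul, map_smul, map_add, E'.smul, E'.smul, e2, f2, Prod.snd_add,
            smul_add, ← mul_smul, ← mul_smul, mul_comm b a]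
      smul_mem' := by
        rintro ⟨_, p, hp, q, hq, hq0, rfl⟩ z ⟨a, ha, h0, x, e1, e2⟩
        have e : ∀ {W : Type} [AddCommGroup W] [Module K W] (w : W),
            p • a • w = (a * q) • (p / q) • w := fun w => by
          rw [← mul_smul, ← mul_smul]; congr 1; field_simp
        refine ⟨a * q, mul_mem ha hq, mul_ne_zero h0 hq0, (⟨p, hp⟩ : X.A _) • x, ?_, ?_⟩
        · rw [E.smul, e1]; exact e _
        · rw [map_smul, E'.smul, e2]; exact e _ }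
  have hi : Function.Injective ((LinearMap.fst (Rat X) V V').domRestrict Γ) := by
    rw [← LinearMap.ker_eq_bot, LinearMap.ker_eq_bot']
    rintro ⟨p, a, ha, h0, x, e1, e2⟩ hp
    have hp1 : p.1 = 0 := hp
    have hx : x = 0 := E.inj _ (by rw [e1, hp1, smul_zero, map_zero])
    rw [hx, map_zero, map_zero] at e2
    exact Subtype.ext (Prod.ext hp1 ((smul_eq_zero.1 e2.symm).resolve_left h0))
  obtain ⟨l, hl⟩ := LinearMap.exists_leftInverse_of_injective _ (LinearMap.ker_eq_bot.2 hi)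
  let ψ := (LinearMap.snd (Rat X) V V') ∘ₗ Γ.subtype ∘ₗ l
  refine ⟨ψ.toAddMonoidHom, fun c hc v => ψ.map_smul ⟨c, hc⟩ v, fun s x => ?_⟩
  have hm : (E.e s x, E'.e s (n.app s x)) ∈ Γ :=
    ⟨1, one_mem _, one_ne_zero, G.res (le_top' s) x, by rw [E.res, one_smul],
      by rw [n.nat, E'.res, one_smul]⟩
  exact congrArg (fun z : Γ => z.1.2) (LinearMap.congr_fun hl ⟨_, hm⟩)

/-- The extension keeps the lattices. -/
theorem hat_mem {E : Emb G V} {E' : Emb N V'} {n : G ⟶ N} {ψ : V →+ V'} (hψ : RLin X ψ)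
    (h : ∀ s x, ψ (E.e s x) = E'.e s (n.app s x)) {T : Submonoid (Fm X)} {v : V}
    (hv : v ∈ E.Loc T) : ψ v ∈ E'.Loc T := by
  obtain ⟨ρ, hρ, hv⟩ := hv
  refine ⟨ρ, hρ, fun s => ?_⟩
  obtain ⟨x, e⟩ := hv s
  rw [← hψ _ (coe_mem_Rat _), ← e, h]
  exact E'.e_mem _ _

end Emb

end Pool.Agent.Lib.MP_d3d358_ag.Bkr
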