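import Pool.Agent.Lib.MP_d3d358_ag.Bkr.LProj
import Pool.Agent.Lib.MP_d3d358_ag.Bkr.KFrm
import Pool.Agent.Lib.MP_d3d358_ag.K.LocB

/-! The rank six sheaf of a Kummer datum is locally projective. -/

set_option autoImplicit false

namespace Pool.Agent.Lib.MP_d3d358_ag.Bkr

open Pool.Agent.Lib.MP_cd184e_ag.T Pool.Agent.Lib.MP_cd184e_ag.T.Coh
open Pool.Agent.Lib.MP_d3d358_ag.K Pool.Agent.Lib.MP_d3d358_ag.K.Cy

section

variable {k K : Type} [Field k] [Field K] [Algebra k K] {X : ProjVar k K}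

theorem isIdl_sec_mem (s : X.Idx) (m : Ideal (X.A s.1)) : IsIdl fun σ : Fm X => σ.sec s ∈ m where
  mul σ τ h := by rw [Fm.mul_sec]; exact m.mul_mem_right _ h
  add σ τ ρ h h' e1 e2 e3 := by
    rw [show ρ.sec s = σ.sec s + τ.sec s from Subtype.ext (by
      rw [AddMemClass.coe_add, Fm.coe_sec, Fm.coe_sec, Fm.coe_sec, e3, ← e1, ← e2, add_div])]
    exact add_mem h h'
  zero ρ h := by
    rw [show ρ.sec s = 0 from Subtype.ext (by rw [Fm.coe_sec, h, zero_div]; rfl)]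
    exact zero_mem _

/-- Every point of a chart lies over a point of the base. -/
theorem NS.exists_base {Wd I : Type} {S : Wd → Submonoid (Fm X)} {y : I → Fm X} (hN : NS S y)
    (hy : Bpf y) (j : X.J) (m : Ideal (X.A (X.one j).1)) [hm : m.IsPrime] :
    ∃ w, ∀ σ ∈ S w, σ.sec (X.one j) ∉ m := by
  by_contra! h
  refine hm.ne_top (top_le_iff.1 ((hy j).ge.trans (Ideal.span_le.2 ?_)))
  rintro _ ⟨i, rfl⟩
  obtain ⟨t, ht⟩ := hN _ (isIdl_sec_mem _ m) h i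
  exact hm.mem_of_pow_mem t (Fm.pow_sec (y i) t (X.one j) ▸ ht)

theorem su_not_mem {S : Submonoid (Fm X)} {u : Fm X} {s : X.Idx} {m : Ideal (X.A s.1)}
    [hm : m.IsPrime] (h : ∀ σ ∈ S, σ.sec s ∉ m) (hu : u.sec s ∉ m) : ∀ σ ∈ Su S u, σ.sec s ∉ m := by
  rintro _ ⟨σ, hσ, t, rfl⟩ e
  rw [Fm.mul_sec, Fm.pow_sec] at e
  exact (hm.mem_or_mem e).elim (h σ hσ) fun e => hu (hm.mem_of_pow_mem t e)

/-- Free lattices on three charts over each point of the base. -/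
theorem Emb.locProj_of_ns {V : Type} [AddCommGroup V] [Module K V] {N : Coh X} (E : Emb N V)
    {Wd I : Type} {S : Wd → Submonoid (Fm X)} {y : I → Fm X} (hN : NS S y) (hy : Bpf y)
    (u : Wd → Fin 3 → Fm X)
    (null : ∀ w (j : X.J), ∃ σ ∈ S w, σ.sec (X.one j) ∈
      Ideal.span {(u w 0).sec (X.one j), (u w 1).sec (X.one j), (u w 2).sec (X.one j)})
    (big : ∀ w ν, ∃ τ ∈ S w, (u w ν).d = O1 X * τ.d)
    (free : ∀ w ν, ∃ (ι : Type) (_ : Fintype ι) (b : ι → V), RInd X b ∧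
      (∀ i, b i ∈ E.Lat (S w) (u w ν)) ∧ ∀ v ∈ E.Lat (S w) (u w ν),
        ∃ c : ι → K, (∀ i, c i ∈ (Emb.unit X).Lat (S w) (u w ν)) ∧ v = ∑ i, c i • b i) :
    LocProj N := E.locProj fun j m hm => by
  obtain ⟨w, hw⟩ := hN.exists_base hy j m
  obtain ⟨ν, hν⟩ : ∃ ν, (u w ν).sec (X.one j) ∉ m := by
    by_contra! h
    obtain ⟨σ, hσ, e⟩ := null w j
    refine hw σ hσ (Ideal.span_le.2 ?_ e)
    rintro _ (rfl | rfl | rfl) <;> exact h _
  obtain ⟨τ, hτ, e⟩ := big w ν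
  exact ⟨_, su_not_mem hw hν, ⟨_, self_mem_Su _ _, τ, mem_Su hτ _, e⟩, free w ν⟩

end

end Pool.Agent.Lib.MP_d3d358_ag.Bkr

namespace Pool.Agent.Lib.MP_d3d358_ag.K.Kum

open Pool.Agent.Lib.MP_cd184e_ag.T Pool.Agent.Lib.MP_cd184e_ag.T.Coh Cy
open Pool.Agent.Lib.MP_d3d358_ag.Var (G cix alt)
open Pool.Agent.Lib.MP_d3d358_ag.Bkr

variable {F : Type} [Field F] [Algebra ℂ F] [MulSemiringAction G F] [SMulCommClass G ℂ F]
  {Q : Kum F}

namespace Loc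

variable {w : Q.Pt} {L : Q.Loc w}

theorem Nrm.big_mon (n : L.Nrm) (ν : Fin 3) : ∃ τ ∈ Q.mon w, (n.fm ν).d = O1 Q.X * τ.d :=
  ⟨_, Q.fmU_mem (L.g_pow_mem n.e), by
    change Q.cy 1 (n.e + 2 : ℕ) = O1 Q.X * Q.cy 0 n.e
    rw [O1_eq, cy_add, add_zero, add_comm]
    simp⟩

/-- The frame of a chart, times a unit, is independent over the function field. -/
theorem rInd_fr (L : Q.Loc w) (ν : Fin 3) {γ : F} (hγ : γ ≠ 0) :
    RInd Q.X fun j => γ * L1.fr (L1.fq ν L.t) j := fun c hc e j => by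
  have h0 : ∑ i, c i * L1.fr (L1.fq ν L.t) i = 0 := by
    refine (mul_eq_zero.1 ?_).resolve_left hγ
    rw [Finset.mul_sum, ← e]
    exact Finset.sum_congr rfl fun i _ => by rw [smul_eq_mul]; ring
  have := L1.coef_sum (L1.equi_fq L.equi ν) ((L1.alt_fq ν L.t).symm ▸ L.alp_ne ν)
    (fun i => Rat_inv (hc i)) j
  rw [← this, h0, mul_zero, L1.altP]
  simp

end Loc

/-- A sheaf whose lattices are those of the rank six bundle is locally projective. -/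
theorem locProj_of_link {N : Coh Q.X} (E : Emb N F) (L : ∀ w, Q.Loc w) (n : ∀ w, (L w).Nrm)
    (k m : ℤ) (hE : ∀ w ν x, x ∈ E.Lat (Q.mon w) ((n w).fm ν) ↔ x ∈ (L w).Lt Q.R ν k m)
    (hO : ∀ w ν, ∀ c ∈ (L w).O ν, c ∈ (Emb.unit Q.X).Lat (Q.mon w) ((n w).fm ν))
    (null : ∀ w (j : Q.X.J), ∃ σ ∈ Q.mon w, σ.sec (Q.X.one j) ∈ Ideal.span
      {((n w).fm 0).sec (Q.X.one j), ((n w).fm 1).sec (Q.X.one j), ((n w).fm 2).sec (Q.X.one j)}) :
    LocProj N :=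
  E.locProj_of_ns Q.ns_yg Q.bpf_yg (fun w => (n w).fm) null (fun w => (n w).big_mon) fun w ν => by
    have hγ := (L w).gam_ne ν k m
    refine ⟨Fin 6, inferInstance, _, (L w).rInd_fr ν hγ, fun i => ?_, fun v hv => ?_⟩
    · rw [hE, Loc.mem_Lt_R, mul_div_cancel_left₀ _ hγ]
      exact L1.fr_mem (L1.fq_mem L1.t_mem_latP ν) i
    · rw [hE, Loc.mem_Lt_R, L1.mem_latP_iff (L w).equi ((L w).O_inv ν) ((L w).ivt_mem_O ν) ν
        ((L w).alt_div_mem_O ν) ((L w).alp_ne ν)] at hv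
      obtain ⟨a, ha, e⟩ := hv
      refine ⟨a, fun i => hO w ν _ (ha i), ?_⟩
      rw [← mul_div_cancel₀ v hγ, e, Finset.mul_sum]
      exact Finset.sum_congr rfl fun i _ => by rw [smul_eq_mul]; ring

end Pool.Agent.Lib.MP_d3d358_ag.K.Kum
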