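import Pool.Agent.Lib.MP_d3d358_ag.Bkr.Lat
import Pool.Agent.Lib.MP_d3d358_ag.Bkr.B4

/-! From the lattices back to the sheaves: extension of maps and exactness. -/

set_option autoImplicit false

open CategoryTheory

namespace Pool.Agent.Lib.MP_d3d358_ag.Bkr

open Pool.Agent.Lib.MP_cd184e_ag.T Pool.Agent.Lib.MP_cd184e_ag.T.Coh
open Pool.Agent.Lib.MP_d3d358_ag.K Pool.Agent.Lib.MP_d3d358_ag.K.Cy

variable {k K : Type} [Field k] [Field K] [Algebra k K] {X : ProjVar k K}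
  {S T : Submonoid (Fm X)}

/-- The family `T` contains two forms whose degrees differ by `O(1)`. -/
structure Big (T : Submonoid (Fm X)) : Prop where
  nz : NZ T
  ex : ∃ τ ∈ T, ∃ u ∈ T, u.d = O1 X * τ.d

theorem Big.su (hS : NZ S) {u : Fm X} (hu : u.r ≠ 0) (h : ∃ τ ∈ S, u.d = O1 X * τ.d) :
    Big (Su S u) :=
  ⟨hS.su hu, h.imp fun _ hτ => ⟨mem_Su hτ.1 u, u, self_mem_Su S u, hτ.2⟩⟩

theorem le_Su (S : Submonoid (Fm X)) (u : Fm X) : S ≤ Su S u := fun _ h => mem_Su h u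

theorem Su_mono {S S' : Submonoid (Fm X)} (h : S ≤ S') (u : Fm X) : Su S u ≤ Su S' u :=
  fun _ ⟨σ, hσ, t, e⟩ => ⟨σ, h hσ, t, e⟩

theorem Big.su' (h : Big T) {u : Fm X} (hu : u.r ≠ 0) : Big (Su T u) :=
  ⟨h.nz.su hu, h.ex.imp fun _ hτ => ⟨mem_Su hτ.1 u, hτ.2.imp fun _ hv => ⟨mem_Su hv.1 u, hv.2⟩⟩⟩

/-- The three forms have no common zero near the point. -/
def Null (S : Submonoid (Fm X)) (u0 u1 u2 : Fm X) : Prop :=
  ∀ t : ℕ, ∃ σ ∈ S, ∀ s : X.Idx, σ.sec s ∈ Ideal.span {u0.sec s ^ t, u1.sec s ^ t, u2.sec s ^ t}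

theorem Null.comb {u0 u1 u2 : Fm X} (hn : Null S u0 u1 u2) {ρ0 ρ1 ρ2 : Fm X} (h0 : ρ0 ∈ Su S u0)
    (h1 : ρ1 ∈ Su S u1) (h2 : ρ2 ∈ Su S u2) : ∃ σ ∈ S, ∀ (s : X.Idx) (I : Ideal (X.A s.1)),
      ρ0.sec s ∈ I → ρ1.sec s ∈ I → ρ2.sec s ∈ I → σ.sec s ∈ I := by
  obtain ⟨σ0, g0, t0, rfl⟩ := h0
  obtain ⟨σ1, g1, t1, rfl⟩ := h1
  obtain ⟨σ2, g2, t2, rfl⟩ := h2
  obtain ⟨σ, g, h⟩ := hn (t0 + t1 + t2)
  refine ⟨σ0 * σ1 * σ2 * σ, mul_mem (mul_mem (mul_mem g0 g1) g2) g, fun s I e0 e1 e2 => ?_⟩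
  simp only [Fm.mul_sec, Fm.pow_sec] at e0 e1 e2 ⊢
  have key : Ideal.span {u0.sec s ^ (t0 + t1 + t2), u1.sec s ^ (t0 + t1 + t2),
      u2.sec s ^ (t0 + t1 + t2)} ≤ I.colon {σ0.sec s * σ1.sec s * σ2.sec s} := by
    refine Ideal.span_le.2 ?_
    rintro _ (rfl | rfl | rfl) <;> refine Submodule.mem_colon_singleton.2 ?_ <;> rw [smul_eq_mul]
    · convert I.mul_mem_left (u0.sec s ^ (t1 + t2) * σ1.sec s * σ2.sec s) e0 using 1; ring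
    · convert I.mul_mem_left (u1.sec s ^ (t0 + t2) * σ0.sec s * σ2.sec s) e1 using 1; ring
    · convert I.mul_mem_left (u2.sec s ^ (t0 + t1) * σ0.sec s * σ1.sec s) e2 using 1; ring
  have := Submodule.mem_colon_singleton.1 (key (h s))
  rwa [smul_eq_mul, mul_comm] at this

section Unif

variable {M : X.Idx → Type} [∀ s, AddCommGroup (M s)] [∀ s, Module (X.A s.1) (M s)]
  [∀ s, Module.Finite (X.A s.1) (M s)] (Z W : ∀ s, Submodule (X.A s.1) (M s))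

/-- One form moves `Z` into `W` on all charts. -/
theorem unif1 (h : ∀ s, ∀ x ∈ Z s, ∃ ρ ∈ T, ρ.sec s • x ∈ W s) :
    ∃ ρ ∈ T, ∀ s, ∀ x ∈ Z s, ρ.sec s • x ∈ W s := by
  obtain ⟨ρ, hρ, e⟩ := unif T (fun s => Z s)
    (fun s ρ => (W s).comap (ρ.sec s • (Z s).subtype))
    (fun s ρ ρ' x hx => by
      change (ρ * ρ').sec s • x.1 ∈ W s
      rw [Fm.mul_sec, mul_comm, mul_smul]
      exact (W s).smul_mem _ hx) fun s x => h s x.1 x.2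
  exact ⟨ρ, hρ, fun s x hx => e s ⟨x, hx⟩⟩

/-- What holds on the three parts `u ≠ 0` holds near the point. -/
theorem unif3 {u0 u1 u2 : Fm X} (hn : Null S u0 u1 u2)
    (h0 : ∀ s, ∀ x ∈ Z s, ∃ ρ ∈ Su S u0, ρ.sec s • x ∈ W s)
    (h1 : ∀ s, ∀ x ∈ Z s, ∃ ρ ∈ Su S u1, ρ.sec s • x ∈ W s)
    (h2 : ∀ s, ∀ x ∈ Z s, ∃ ρ ∈ Su S u2, ρ.sec s • x ∈ W s) :
    ∃ σ ∈ S, ∀ s, ∀ x ∈ Z s, σ.sec s • x ∈ W s := by
  obtain ⟨ρ0, g0, e0⟩ := unif1 Z W h0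
  obtain ⟨ρ1, g1, e1⟩ := unif1 Z W h1
  obtain ⟨ρ2, g2, e2⟩ := unif1 Z W h2
  obtain ⟨σ, g, e⟩ := hn.comb g0 g1 g2
  refine ⟨σ, g, fun s x hx => Submodule.mem_colon_singleton.1 (e s ((W s).colon {x}) ?_ ?_ ?_)⟩
  exacts [Submodule.mem_colon_singleton.2 (e0 s x hx), Submodule.mem_colon_singleton.2 (e1 s x hx),
    Submodule.mem_colon_singleton.2 (e2 s x hx)]

end Unif

/-- A function of the lattice of `T` that divides a form of `T` on the open set of index `s`. -/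
structure Den (T : Submonoid (Fm X)) (s : X.Idx) (κ : K) : Prop where
  mem : κ ∈ (Emb.unit X).Loc T
  dvd : ∃ ρ ∈ T, ∃ b ∈ X.A s.1, b * κ = ρ.sec s

theorem Den.mul {s : X.Idx} {κ κ' : K} (h : Den T s κ) (h' : Den T s κ') : Den T s (κ * κ') := by
  obtain ⟨ρ, hρ, b, hb, e⟩ := h.dvd
  obtain ⟨ρ', hρ', b', hb', e'⟩ := h'.dvd
  exact ⟨Emb.smul_mem_Loc h.mem h'.mem, ρ * ρ', mul_mem hρ hρ', b * b', mul_mem hb hb', by
    rw [mul_mul_mul_comm, e, e', Fm.mul_sec, MulMemClass.coe_mul]⟩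

theorem Den.ne (hT : NZ T) {s : X.Idx} {κ : K} (h : Den T s κ) : κ ≠ 0 := by
  obtain ⟨ρ, hρ, b, _, e⟩ := h.dvd
  exact right_ne_zero_of_mul (e ▸ Fm.sec_ne (hT ρ hρ) s)

theorem Den.rat (hT : NZ T) {s : X.Idx} {κ : K} (h : Den T s κ) : κ ∈ Rat X :=
  Emb.Loc_unit_le_Rat hT h.mem

variable {V V' V'' : Type} [AddCommGroup V] [Module K V] [AddCommGroup V'] [Module K V']
  [AddCommGroup V''] [Module K V''] {L G N : Coh X}

/-- The map `ψ` sends the lattice `A` into the lattice `B`. -/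
def Keeps (ψ : V →+ V') (A : AddSubgroup V) (B : AddSubgroup V') : Prop := ∀ v ∈ A, ψ v ∈ B

namespace Emb

theorem loc_sec {E : Emb N V} {v : V} (hv : v ∈ E.Loc T) (s : X.Idx) :
    ∃ ρ ∈ T, (ρ.sec s : K) • v ∈ E.Im s := hv.imp fun _ h => ⟨h.1, h.2 s⟩

/-- A section over a chart lies in the lattice after multiplication by a denominator. -/
theorem to_loc (E : Emb N V) (hT : Big T) {s : X.Idx} {v : V} (hv : v ∈ E.Im s) :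
    ∃ κ, Den T s κ ∧ κ • v ∈ E.Loc T := by
  obtain ⟨τ, hτ, u, hu, hd⟩ := hT.ex
  obtain ⟨a, ha, h⟩ := E.exists_den (X.one_le (X.pt_mem s)) hv
  obtain ⟨m, hm⟩ := E.exists_co_pow _ h
  obtain ⟨m', hm'⟩ := (unit X).exists_co_pow (X.pt s) (mem_unit.2 a.2)
  have hu0 := hT.nz u hu
  have e : ∀ s', (u.sec s' : K) * (X.f (X.pt s).1 * τ.r / u.r) =
      τ.sec s' * X.co (X.pt s).1 s' := fun s' => by
    have := X.fp_ne s'
    have := τ.d.fp_ne s'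
    rw [Fm.coe_sec, Fm.coe_sec, hd, mul_fp, O1_fp, ProjVar.coe_co]
    field_simp
  have e' : ∀ s', ((u ^ (m + m')).sec s' : K) * ((X.f (X.pt s).1 * τ.r / u.r) ^ (m + m') * a) =
      (τ.sec s' : K) ^ (m + m') * ((X.co (X.pt s).1 s' : K) ^ (m + m') * a) := fun s' => by
    rw [Fm.pow_sec, SubmonoidClass.coe_pow, ← mul_assoc, ← mul_pow, e, mul_pow, mul_assoc]
  obtain ⟨b, hb⟩ := ha.exists_left_inv
  have hb' : (b : K) * a = 1 := by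
    have := congrArg Subtype.val hb
    rwa [MulMemClass.coe_mul, X.coe_inc] at this
  refine ⟨(X.f (X.pt s).1 * τ.r / u.r) ^ (m + m') * a, ⟨⟨u ^ (m + m'), pow_mem hu _, fun s' => ?_⟩,
    τ ^ (m + m'), pow_mem hτ _, b * (u ^ (m + m')).sec s, mul_mem b.2 (Fm.sec _ s).2, ?_⟩,
    u ^ (m + m'), pow_mem hu _, fun s' => ?_⟩
  · rw [smul_eq_mul, e', pow_add (X.co _ s' : K), mul_assoc]
    exact mem_unit.2 (mul_mem (pow_mem (τ.sec s').2 _)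
      (mul_mem (pow_mem (X.co _ s').2 _) (mem_unit.1 (hm' s'))))
  · rw [mul_assoc, e', ProjVar.co_pt, OneMemClass.coe_one, one_pow, one_mul, mul_left_comm, hb',
      mul_one, Fm.pow_sec, SubmonoidClass.coe_pow]
  · rw [← mul_smul, e', add_comm m, pow_add (X.co _ s' : K), mul_smul, mul_smul, mul_smul]
    exact smul_mem (pow_mem (τ.sec s').2 _) (smul_mem (pow_mem (X.co _ s').2 _) (hm s'))

theorem to_loc₂ (E : Emb G V) (E' : Emb N V') (hT : Big T) {s : X.Idx} {v : V} {w : V'}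
    (hv : v ∈ E.Im s) (hw : w ∈ E'.Im s) : ∃ κ, Den T s κ ∧ κ • v ∈ E.Loc T ∧ κ • w ∈ E'.Loc T := by
  obtain ⟨κ, h, e⟩ := E.to_loc hT hv
  obtain ⟨κ', h', e'⟩ := E'.to_loc hT hw
  refine ⟨κ * κ', h.mul h', ?_, by rw [mul_smul]; exact smul_mem_Loc h.mem e'⟩
  rw [mul_comm, mul_smul]; exact smul_mem_Loc h'.mem e

/-- Back from the lattice to the chart. -/
theorem of_loc {E : Emb N V} {s : X.Idx} {κ : K} (h : Den T s κ) {v : V} (hv : κ • v ∈ E.Loc T) :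
    ∃ ρ ∈ T, (ρ.sec s : K) • v ∈ E.Im s := by
  obtain ⟨ρ, hρ, b, hb, e⟩ := h.dvd
  obtain ⟨ρ', hρ', e'⟩ := loc_sec hv s
  refine ⟨ρ' * ρ, mul_mem hρ' hρ, ?_⟩
  rw [Fm.mul_sec, MulMemClass.coe_mul, ← e, mul_left_comm, mul_smul, mul_smul]
  exact smul_mem hb e'

/-- The sections whose image under `ψ` lies in a subgroup that is stable under functions. -/
def pre (E : Emb G V) {ψ : V →+ V'} (hψ : RLin X ψ) (s : X.Idx) (B : AddSubgroup V')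
    (hB : ∀ a ∈ X.A s.1, ∀ w ∈ B, a • w ∈ B) : Submodule (X.A s.1) (G.obj s) where
  carrier := {x | ψ (E.e s x) ∈ B}
  zero_mem' := by simp
  add_mem' hx hy := by
    rw [Set.mem_ofPred_eq, map_add, map_add]; exact add_mem hx hy
  smul_mem' a x hx := by
    rw [Set.mem_ofPred_eq, E.smul, hψ _ (coe_mem_Rat a)]; exact hB _ a.2 _ hx

theorem smul_mem_pre (E : Emb G V) {ψ : V →+ V'} (hψ : RLin X ψ) {s : X.Idx} {B : AddSubgroup V'}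
    {hB : ∀ a ∈ X.A s.1, ∀ w ∈ B, a • w ∈ B} (a : X.A s.1) (x : G.obj s) :
    a • x ∈ E.pre hψ s B hB ↔ (a : K) • ψ (E.e s x) ∈ B := by
  change ψ (E.e s (a • x)) ∈ B ↔ _
  rw [E.smul, hψ _ (coe_mem_Rat a)]

theorem ext0 {E : Emb G V} {E' : Emb N V'} (hT : Big T) {ψ : V →+ V'} (hψ : RLin X ψ)
    (h : Keeps ψ (E.Loc T) (E'.Loc T)) (s : X.Idx) (x : G.obj s) :
    ∃ ρ ∈ T, (ρ.sec s : K) • ψ (E.e s x) ∈ E'.Im s := by
  obtain ⟨κ, hκ, e⟩ := E.to_loc hT (E.e_mem s x)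
  exact of_loc hκ (hψ _ (hκ.rat hT.nz) _ ▸ h _ e)

/-- A map that keeps one lattice keeps the sections up to one form of `T`. -/
theorem ext1 {E : Emb G V} {E' : Emb N V'} (hT : Big T) {ψ : V →+ V'} (hψ : RLin X ψ)
    (h : Keeps ψ (E.Loc T) (E'.Loc T)) :
    ∃ ρ ∈ T, ∀ s x, (ρ.sec s : K) • ψ (E.e s x) ∈ E'.Im s := by
  obtain ⟨ρ, hρ, e⟩ := unif1 (T := T) (fun _ => ⊤)
    (fun s => E.pre hψ s (E'.Im s) fun _ ha _ => smul_mem ha)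
    fun s x _ => (ext0 hT hψ h s x).imp fun _ g => ⟨g.1, (E.smul_mem_pre hψ _ x).2 g.2⟩
  exact ⟨ρ, hρ, fun s x => (E.smul_mem_pre hψ _ x).1 (e s x trivial)⟩

end Emb

/-- Three forms that cut out the three charts near the point. -/
structure Tri (S : Submonoid (Fm X)) (u0 u1 u2 : Fm X) : Prop where
  b0 : Big (Su S u0)
  b1 : Big (Su S u1)
  b2 : Big (Su S u2)
  null : Null S u0 u1 u2

namespace Emb

variable {u0 u1 u2 : Fm X}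

/-- A map that keeps the three lattices keeps the sections up to a form of `S`. -/
theorem ext3 {E : Emb G V} {E' : Emb N V'} (hu : Tri S u0 u1 u2) {ψ : V →+ V'} (hψ : RLin X ψ)
    (h0 : Keeps ψ (E.Lat S u0) (E'.Lat S u0)) (h1 : Keeps ψ (E.Lat S u1) (E'.Lat S u1))
    (h2 : Keeps ψ (E.Lat S u2) (E'.Lat S u2)) :
    ∃ σ ∈ S, ∀ s x, (σ.sec s : K) • ψ (E.e s x) ∈ E'.Im s := by
  obtain ⟨ρ, hρ, e⟩ := unif3 (S := S) (fun _ => ⊤)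
    (fun s => E.pre hψ s (E'.Im s) fun _ ha _ => smul_mem ha) hu.null
    (fun s x _ => (ext0 hu.b0 hψ h0 s x).imp fun _ g => ⟨g.1, (E.smul_mem_pre hψ _ x).2 g.2⟩)
    (fun s x _ => (ext0 hu.b1 hψ h1 s x).imp fun _ g => ⟨g.1, (E.smul_mem_pre hψ _ x).2 g.2⟩)
    fun s x _ => (ext0 hu.b2 hψ h2 s x).imp fun _ g => ⟨g.1, (E.smul_mem_pre hψ _ x).2 g.2⟩
  exact ⟨ρ, hρ, fun s x => (E.smul_mem_pre hψ _ x).1 (e s x trivial)⟩

/-- The map into a twist given by `ψ`. -/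
theorem exists_hom_tw (E : Emb G V) (E' : Emb N V') (a : Cy X) {r : K} (hr : r ≠ 0) {σ : Fm X}
    (hσ : σ.r ≠ 0) {ψ : V →+ V'} (hψ : RLin X ψ)
    (h : ∀ s x, (σ.sec s : K) • ψ (E.e s x) ∈ (E'.tw a r hr).Im s) :
    ∃ n : G ⟶ (twc (a * σ.d)).obj N, ∀ s x,
      (E'.tw a r hr).e s (show N.obj s from n.app s x) = (σ.sec s : K) • ψ (E.e s x) := by
  obtain ⟨n, hn⟩ := E.exists_hom (E'.tw (a * σ.d) (r * σ.r) (mul_ne_zero hr hσ)) hψ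
    fun s x => (E'.mem_tw_mul a hr hσ s).2 (h s x)
  exact ⟨n, fun s x => by rw [← hn, E'.tw_mul_e a hr hσ]⟩

/-- A map into a twist by the degree of a form of `T` gives a map of the lattices. -/
theorem exists_hat_tw (E : Emb G V) (E' : Emb N V') (a : Cy X) {r : K} (hr : r ≠ 0) {ρ : Fm X}
    (hρ : ρ.r ≠ 0) {b : Cy X} (hb : b = a * ρ.d) (n : G ⟶ (twc b).obj N) :
    ∃ ψ : V →+ V', RLin X ψ ∧ (∀ s x, (E'.tw a r hr).e s (show N.obj s from n.app s x) =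
      (ρ.sec s : K) • ψ (E.e s x)) ∧
      ∀ T : Submonoid (Fm X), ρ ∈ T → Keeps ψ (E.Loc T) ((E'.tw a r hr).Loc T) := by
  subst hb
  obtain ⟨ψ, hψ, e⟩ := E.exists_hat (E'.tw (a * ρ.d) (r * ρ.r) (mul_ne_zero hr hρ)) n
  exact ⟨ψ, hψ, fun s x => by rw [e, E'.tw_mul_e a hr hρ], fun T hT v hv =>
    E'.Loc_tw_mul a hr hT hρ ▸ hat_mem hψ e hv⟩

/-- `ψ` is the map of generic fibres of `φ`. -/
structure Hat (E : Emb G V) (E' : Emb N V') (φ : G ⟶ N) (ψ : V →+ V') : Prop where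
  lin : RLin X ψ
  eq : ∀ s x, ψ (E.e s x) = E'.e s (φ.app s x)

theorem Hat.keeps {E : Emb G V} {E' : Emb N V'} {φ : G ⟶ N} {ψ : V →+ V'} (h : Hat E E' φ ψ)
    (T : Submonoid (Fm X)) : Keeps ψ (E.Loc T) (E'.Loc T) := fun _ hv => hat_mem h.lin h.eq hv

theorem Hat.comp_zero {E : Emb L V} {E' : Emb G V'} {E'' : Emb N V''} {φ : L ⟶ G} {φ' : G ⟶ N}
    {ψ : V →+ V'} {ψ' : V' →+ V''} (h : Hat E E' φ ψ) (h' : Hat E' E'' φ' ψ') (hT : Big T)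
    (e : ∀ v ∈ E.Loc T, ψ' (ψ v) = 0) : φ ≫ φ' = 0 := hom_ext fun s x => by
  obtain ⟨κ, hκ, g⟩ := E.to_loc hT (E.e_mem s x)
  have := e _ g
  rw [h.lin _ (hκ.rat hT.nz), h'.lin _ (hκ.rat hT.nz), h.eq, h'.eq] at this
  exact E''.inj s (((smul_eq_zero.1 this).resolve_left (hκ.ne hT.nz)).trans (map_zero _).symm)

theorem Hat.inj {E : Emb G V} {E' : Emb N V'} {φ : G ⟶ N} {ψ : V →+ V'} (h : Hat E E' φ ψ)
    (hT : Big T) (e : ∀ v ∈ E.Loc T, ψ v = 0 → v = 0) (s : X.Idx) (x : G.obj s)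
    (hx : φ.app s x = 0) : x = 0 := by
  obtain ⟨κ, hκ, g⟩ := E.to_loc hT (E.e_mem s x)
  have := e _ g (by rw [h.lin _ (hκ.rat hT.nz), h.eq, hx, map_zero, smul_zero])
  exact E.inj s (((smul_eq_zero.1 this).resolve_left (hκ.ne hT.nz)).trans (map_zero _).symm)

theorem Hat.almInj {E : Emb G V} {E' : Emb N V'} {φ : G ⟶ N} {ψ : V →+ V'} (h : Hat E E' φ ψ)
    (hT : Big T) (e : ∀ v ∈ E.Loc T, ψ v = 0 → v = 0) : AlmInj S φ :=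
  ⟨1, one_mem _, fun s x hx => by rw [h.inj hT e s x hx, smul_zero]⟩

theorem Hat.lift {E : Emb G V} {E' : Emb N V'} {φ : G ⟶ N} {ψ : V →+ V'} (h : Hat E E' φ ψ)
    {s : X.Idx} {κ : K} (hκ : Den T s κ) {y : N.obj s} {v : V} (hv : v ∈ E.Loc T)
    (e : ψ v = κ • E'.e s y) : ∃ ρ ∈ T, ρ.sec s • y ∈ LinearMap.range (φ.app s) := by
  obtain ⟨ρ, hρ, b, hb, g⟩ := hκ.dvd
  obtain ⟨ρ', hρ', x, g'⟩ := loc_sec hv s
  refine ⟨ρ' * ρ, mul_mem hρ' hρ, (⟨b, hb⟩ : X.A s.1) • x, E'.inj s ?_⟩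
  rw [← h.eq, E.smul, g', h.lin _ (mem_Rat hb), h.lin _ (coe_mem_Rat _), e, E'.smul, Fm.mul_sec,
    MulMemClass.coe_mul, ← g, mul_left_comm, mul_smul, mul_smul]

/-- Exactness on the three lattices gives exactness up to a form of `S`. -/
theorem Hat.almEx {E : Emb L V} {E' : Emb G V'} {E'' : Emb N V''} {φ : L ⟶ G} {φ' : G ⟶ N}
    {ψ : V →+ V'} {ψ' : V' →+ V''} (h : Hat E E' φ ψ) (h' : Hat E' E'' φ' ψ')
    (hu : Tri S u0 u1 u2)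
    (e0 : ∀ w ∈ E'.Lat S u0, ψ' w = 0 → ∃ v ∈ E.Lat S u0, ψ v = w)
    (e1 : ∀ w ∈ E'.Lat S u1, ψ' w = 0 → ∃ v ∈ E.Lat S u1, ψ v = w)
    (e2 : ∀ w ∈ E'.Lat S u2, ψ' w = 0 → ∃ v ∈ E.Lat S u2, ψ v = w) : AlmEx S φ φ' := by
  have key : ∀ {T : Submonoid (Fm X)}, Big T →
      (∀ w ∈ E'.Loc T, ψ' w = 0 → ∃ v ∈ E.Loc T, ψ v = w) → ∀ s, ∀ y ∈ LinearMap.ker (φ'.app s),
      ∃ ρ ∈ T, ρ.sec s • y ∈ LinearMap.range (φ.app s) := fun hT e s y hy => by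
    obtain ⟨κ, hκ, g⟩ := E'.to_loc hT (E'.e_mem s y)
    obtain ⟨v, hv, g'⟩ := e _ g (by
      rw [h'.lin _ (hκ.rat hT.nz), h'.eq, LinearMap.mem_ker.1 hy, map_zero, smul_zero])
    exact h.lift hκ hv g'
  exact unif3 (fun s => LinearMap.ker (φ'.app s)) (fun s => LinearMap.range (φ.app s)) hu.null
    (key hu.b0 e0) (key hu.b1 e1) (key hu.b2 e2)

theorem Hat.almSurj {E : Emb G V} {E' : Emb N V'} {φ : G ⟶ N} {ψ : V →+ V'} (h : Hat E E' φ ψ)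
    (hu : Tri S u0 u1 u2) (e0 : ∀ w ∈ E'.Lat S u0, ∃ v ∈ E.Lat S u0, ψ v = w)
    (e1 : ∀ w ∈ E'.Lat S u1, ∃ v ∈ E.Lat S u1, ψ v = w)
    (e2 : ∀ w ∈ E'.Lat S u2, ∃ v ∈ E.Lat S u2, ψ v = w) : AlmSurj S φ := by
  have key : ∀ {T : Submonoid (Fm X)}, Big T → (∀ w ∈ E'.Loc T, ∃ v ∈ E.Loc T, ψ v = w) →
      ∀ s, ∀ y ∈ (⊤ : Submodule (X.A s.1) (N.obj s)),
      ∃ ρ ∈ T, ρ.sec s • y ∈ LinearMap.range (φ.app s) := fun hT e s y _ => by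
    obtain ⟨κ, hκ, g⟩ := E'.to_loc hT (E'.e_mem s y)
    obtain ⟨v, hv, g'⟩ := e _ g
    exact h.lift hκ hv g'
  obtain ⟨σ, hσ, e⟩ := unif3 (fun _ => ⊤) (fun s => LinearMap.range (φ.app s)) hu.null
    (key hu.b0 e0) (key hu.b1 e1) (key hu.b2 e2)
  exact ⟨σ, hσ, fun s y => e s y trivial⟩

theorem mem_tw_fm (E : Emb N V) {ρ : Fm X} (hρ : ρ.r ≠ 0) (s : X.Idx) {v : V} :
    v ∈ (E.tw ρ.d ρ.r hρ).Im s ↔ (ρ.sec s : K) • v ∈ E.Im s := by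
  have e : ∀ x : N.obj s, (ρ.sec s : K) • (E.tw ρ.d ρ.r hρ).e s x = E.e s x := fun x => by
    have := ρ.d.fp_ne s
    rw [tw_e, ← mul_smul, Fm.coe_sec, div_mul_div_cancel₀ this, div_self hρ, one_smul]
  exact ⟨fun ⟨x, h⟩ => ⟨x, h ▸ (e x).symm⟩,
    fun ⟨x, h⟩ => ⟨x, smul_right_injective V (Fm.sec_ne hρ s) ((e x).trans h)⟩⟩

theorem Loc_tw_fm (E : Emb N V) {ρ : Fm X} (hT : ρ ∈ T) (hρ : ρ.r ≠ 0) :
    (E.tw ρ.d ρ.r hρ).Loc T = E.Loc T := by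
  ext v
  refine ⟨fun ⟨τ, hτ, h⟩ => ⟨ρ * τ, mul_mem hT hτ, fun s => ?_⟩,
    fun ⟨τ, hτ, h⟩ => ⟨τ, hτ, fun s => (E.mem_tw_fm hρ s).2 (smul_mem (ρ.sec s).2 (h s))⟩⟩
  rw [Fm.mul_sec, MulMemClass.coe_mul, mul_smul]
  exact (E.mem_tw_fm hρ s).1 (h s)

/-- A map that keeps the three lattices is a map of sheaves after a twist by a form of `S`. -/
theorem exists_hom_fm {E : Emb G V} {E' : Emb N V'} (hu : Tri S u0 u1 u2) {ψ : V →+ V'}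
    (hψ : RLin X ψ) (h0 : Keeps ψ (E.Lat S u0) (E'.Lat S u0))
    (h1 : Keeps ψ (E.Lat S u1) (E'.Lat S u1)) (h2 : Keeps ψ (E.Lat S u2) (E'.Lat S u2)) :
    ∃ σ ∈ S, ∃ (hσ : σ.r ≠ 0) (n : G ⟶ (twc σ.d).obj N), Hat E (E'.tw σ.d σ.r hσ) n ψ := by
  obtain ⟨σ, hσ, e⟩ := ext3 hu hψ h0 h1 h2
  have h := hu.b0.nz σ (mem_Su hσ u0)
  obtain ⟨n, hn⟩ := E.exists_hom (E'.tw σ.d σ.r h) hψ fun s x => (E'.mem_tw_fm h s).2 (e s x)
  exact ⟨σ, hσ, h, n, hψ, fun s x => (hn s x).symm⟩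

end Emb

theorem Add.tw_right {D : Subgroup (Cy X)} (h : Add D G N) {a : Cy X} (ha : a ∈ D) :
    Add D G ((twc a).obj N) := by
  obtain ⟨I, _, d, f, g, hd, e⟩ := h
  refine ⟨I, inferInstance, fun i => d i * a, fun i => (twc a).map (f i) ≫ (twctwc G _ _ _ rfl).hom,
    fun i => (twctwc G _ _ _ rfl).inv ≫ (twc a).map (g i), fun i => mul_mem (hd i) ha, ?_⟩
  have : ∀ i, ((twc a).map (f i) ≫ (twctwc G _ _ _ rfl).hom) ≫ (twctwc G _ _ _ rfl).inv ≫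
      (twc a).map (g i) = (twc a).map (f i ≫ g i) := fun i => by
    rw [Category.assoc, Iso.hom_inv_id_assoc, Functor.map_comp]
  rw [Finset.sum_congr rfl fun i _ => this i, ← Functor.map_sum, e, CategoryTheory.Functor.map_id]

variable {V₃ : Type} [AddCommGroup V₃] [Module K V₃]

/-- An exact complex of four lattices. -/
structure LEx (A : AddSubgroup V) (B : AddSubgroup V') (C : AddSubgroup V'') (E : AddSubgroup V₃)
    (f : V →+ V') (g : V' →+ V'') (h : V'' →+ V₃) : Prop where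
  kf : Keeps f A B
  kg : Keeps g B C
  kh : Keeps h C E
  gf : ∀ v ∈ A, g (f v) = 0
  hg : ∀ v ∈ B, h (g v) = 0
  inj : ∀ v ∈ A, f v = 0 → v = 0
  ex1 : ∀ w ∈ B, g w = 0 → ∃ v ∈ A, f v = w
  ex2 : ∀ w ∈ C, h w = 0 → ∃ v ∈ B, g v = w
  surj : ∀ w ∈ E, ∃ v ∈ C, h v = w

/-- A complex that is exact on the three lattices gives a resolution near the point. -/
theorem res_of_lat {D : Subgroup (Cy X)} (hD : DegIn D S) {u0 u1 u2 : Fm X} (hu : Tri S u0 u1 u2)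
    {A B C E G₀ G₁ G₂ G₃ : Coh X} (EA : Emb A V) (EB : Emb B V') (EC : Emb C V'') (EE : Emb E V₃)
    {f : V →+ V'} {g : V' →+ V''} {h : V'' →+ V₃} (hf : RLin X f) (hg : RLin X g) (hh : RLin X h)
    (l0 : LEx (EA.Lat S u0) (EB.Lat S u0) (EC.Lat S u0) (EE.Lat S u0) f g h)
    (l1 : LEx (EA.Lat S u1) (EB.Lat S u1) (EC.Lat S u1) (EE.Lat S u1) f g h)
    (l2 : LEx (EA.Lat S u2) (EB.Lat S u2) (EC.Lat S u2) (EE.Lat S u2) f g h)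
    (a0 : Add D A G₀) (a1 : Add D G₁ B) (a2 : Add D G₂ C) (a3 : Add D G₃ E) :
    Res D S G₀ G₁ G₂ G₃ := by
  obtain ⟨σ, hσ, n, φ, H⟩ := Emb.exists_hom_fm hu hf l0.kf l1.kf l2.kf
  have e := fun u => EB.Loc_tw_fm (mem_Su hσ u) n
  rw [Emb.Lat, Emb.Lat, ← e] at l0 l1 l2
  obtain ⟨σ', hσ', n', φ', H'⟩ := Emb.exists_hom_fm hu hg l0.kg l1.kg l2.kg
  have e' := fun u => EC.Loc_tw_fm (mem_Su hσ' u) n'
  rw [Emb.Lat, ← e'] at l0 l1 l2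
  obtain ⟨σ'', hσ'', n'', φ'', H''⟩ := Emb.exists_hom_fm hu hh l0.kh l1.kh l2.kh
  have e'' := fun u => EE.Loc_tw_fm (mem_Su hσ'' u) n''
  rw [Emb.Lat, ← e''] at l0 l1 l2
  exact ⟨_, _, _, _, ⟨φ, φ', φ'', H.comp_zero H' hu.b0 l0.gf, H'.comp_zero H'' hu.b0 l0.hg,
    H.almInj hu.b0 l0.inj, H.almEx H' hu l0.ex1 l1.ex1 l2.ex1, H'.almEx H'' hu l0.ex2 l1.ex2 l2.ex2,
    H''.almSurj hu l0.surj l1.surj l2.surj⟩, a0, a1.tw_right (hD σ hσ), a2.tw_right (hD σ' hσ'),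
    a3.tw_right (hD σ'' hσ'')⟩

end Pool.Agent.Lib.MP_d3d358_ag.Bkr
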