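import Pool.Agent.Lib.MP_d3d358_ag.Bkr.LatE

/-! The hypotheses of the vanishing theorem from statements on three lattices. -/

set_option autoImplicit false

open CategoryTheory

namespace Pool.Agent.Lib.MP_d3d358_ag.Bkr

open Pool.Agent.Lib.MP_cd184e_ag.T Pool.Agent.Lib.MP_cd184e_ag.T.Coh
open Pool.Agent.Lib.MP_d3d358_ag.K Pool.Agent.Lib.MP_d3d358_ag.K.Cy

variable {k K : Type} [Field k] [Field K] [Algebra k K] {X : ProjVar k K}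
  {S T : Submonoid (Fm X)} {V V' : Type} [AddCommGroup V] [Module K V] [AddCommGroup V']
  [Module K V'] {G N : Coh X}

/-- The quotient of two forms. -/
def Fm.q (u w : Fm X) : K := u.r / w.r

theorem Fm.sec_mul_q {u w : Fm X} (h : u.d = w.d) (hw : w.r ≠ 0) (s : X.Idx) :
    (w.sec s : K) * u.q w = u.sec s := by
  have := w.d.fp_ne s
  rw [Fm.coe_sec, Fm.coe_sec, Fm.q, h]
  field_simp

theorem RLin.sub {ψ ψ' : V →+ V'} (h : RLin X ψ) (h' : RLin X ψ') : RLin X (ψ - ψ') :=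
  fun c hc v => by rw [AddMonoidHom.sub_apply, AddMonoidHom.sub_apply, h c hc, h' c hc, smul_sub]

/-- The pair `p0, p1` is regular on the lattice `A`. -/
def LR (p0 p1 : K) (A : AddSubgroup V) : Prop :=
  ∀ v ∈ A, ∀ w ∈ A, p1 • v = p0 • w → ∃ z ∈ A, v = p0 • z

/-- A map on the last chart comes, modulo `p0, p1`, from a map on all charts. -/
def LA2 (X : ProjVar k K) (p0 p1 : K) (A0 A1 A2 : AddSubgroup V) (B0 B1 B2 : AddSubgroup V') :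
    Prop := ∀ ψ : V →+ V', RLin X ψ → Keeps ψ A2 B2 → ∃ ψ0 : V →+ V', RLin X ψ0 ∧
      Keeps ψ0 A0 B0 ∧ Keeps ψ0 A1 B1 ∧ Keeps ψ0 A2 B2 ∧
      ∀ v ∈ A2, ∃ w0 ∈ B2, ∃ w1 ∈ B2, ψ v - ψ0 v = p0 • w0 + p1 • w1

/-- A pair of maps on two charts that agree on the divisor comes from a map on all charts. -/
def LA1 (X : ProjVar k K) (p1 p2 : K) (A0 A1 A2 : AddSubgroup V)
    (B0 B1 B2 B12 : AddSubgroup V') : Prop :=
  ∀ ψ1 ψ2 : V →+ V', RLin X ψ1 → RLin X ψ2 → Keeps ψ1 A1 B1 → Keeps ψ2 A2 B2 →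
    (∀ v ∈ A1, ∃ w ∈ B12, ψ1 v - ψ2 v = p1 • w) → ∃ ψ0 : V →+ V', RLin X ψ0 ∧
      Keeps ψ0 A0 B0 ∧ Keeps ψ0 A1 B1 ∧ Keeps ψ0 A2 B2 ∧
      (∀ v ∈ A1, ∃ w ∈ B1, ψ1 v - ψ0 v = p1 • w) ∧ ∀ v ∈ A2, ∃ w ∈ B2, ψ2 v - ψ0 v = p2 • w

namespace Emb

/-- The combinations of two sections with the coefficients `c0, c1`. -/
def Two (F : Emb N V) (s : X.Idx) (c0 c1 : K) : AddSubgroup V where
  carrier := {w | ∃ y0 y1 : N.obj s, w = c0 • F.e s y0 + c1 • F.e s y1}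
  zero_mem' := ⟨0, 0, by simp⟩
  add_mem' := by
    rintro _ _ ⟨y0, y1, rfl⟩ ⟨z0, z1, rfl⟩
    exact ⟨y0 + z0, y1 + z1, by rw [map_add, map_add, smul_add, smul_add, add_add_add_comm]⟩
  neg_mem' := by
    rintro _ ⟨y0, y1, rfl⟩
    exact ⟨-y0, -y1, by rw [map_neg, map_neg, smul_neg, smul_neg, neg_add]⟩

theorem smul_mem_Two (F : Emb N V) (s : X.Idx) (c0 c1 : K) :
    ∀ a ∈ X.A s.1, ∀ w ∈ F.Two s c0 c1, a • w ∈ F.Two s c0 c1 := by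
  rintro a ha _ ⟨y0, y1, rfl⟩
  exact ⟨(⟨a, ha⟩ : X.A s.1) • y0, (⟨a, ha⟩ : X.A s.1) • y1, by
    rw [F.smul, F.smul, smul_add, smul_comm a c0, smul_comm a c1]⟩

theorem clear (F : Emb N V) {s : X.Idx} {κ p0 p1 : K} (hκ : Den T s κ) {u : Fm X} (hu : u ∈ T)
    {v z0 z1 : V} (h0 : z0 ∈ F.Loc T) (h1 : z1 ∈ F.Loc T) (h : κ • v = p0 • z0 + p1 • z1) :
    ∃ ρ ∈ T, (ρ.sec s : K) • v ∈ F.Two s (u.sec s * p0) (u.sec s * p1) := by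
  obtain ⟨ρ, hρ, b, hb, e⟩ := hκ.dvd
  obtain ⟨ρ0, g0, y0, e0⟩ := loc_sec h0 s
  obtain ⟨ρ1, g1, y1, e1⟩ := loc_sec h1 s
  refine ⟨ρ0 * ρ1 * u * ρ, mul_mem (mul_mem (mul_mem g0 g1) hu) hρ,
    ((⟨b, hb⟩ : X.A s.1) * ρ1.sec s) • y0, ((⟨b, hb⟩ : X.A s.1) * ρ0.sec s) • y1, ?_⟩
  simp only [Fm.mul_sec, MulMemClass.coe_mul, F.smul, e0, e1, ← e]
  rw [← mul_assoc, mul_smul, h]
  module

theorem approx {E : Emb G V} {F : Emb N V'} (hT : Big T) {u : Fm X} (hu : u ∈ T) {ψ : V →+ V'}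
    (hψ : RLin X ψ) {p0 p1 : K}
    (h : ∀ v ∈ E.Loc T, ∃ w0 ∈ F.Loc T, ∃ w1 ∈ F.Loc T, ψ v = p0 • w0 + p1 • w1) :
    ∃ ρ ∈ T, ∀ s x, (ρ.sec s : K) • ψ (E.e s x) ∈ F.Two s (u.sec s * p0) (u.sec s * p1) := by
  obtain ⟨ρ, hρ, e⟩ := unif1 (T := T) (fun _ => ⊤)
    (fun s => E.pre hψ s _ (F.smul_mem_Two s (u.sec s * p0) (u.sec s * p1))) fun s x _ => by
      obtain ⟨κ, hκ, g⟩ := E.to_loc hT (E.e_mem s x)
      obtain ⟨w0, h0, w1, h1, g'⟩ := h _ g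
      rw [hψ _ (hκ.rat hT.nz)] at g'
      exact (F.clear hκ hu h0 h1 g').imp fun _ z => ⟨z.1, (E.smul_mem_pre hψ _ x).2 z.2⟩
  exact ⟨ρ, hρ, fun s x => (E.smul_mem_pre hψ _ x).1 (e s x trivial)⟩

theorem approx1 {E : Emb G V} {F : Emb N V'} (hT : Big T) {u0 u : Fm X} (hu : u ∈ T)
    (hd : u0.d = u.d) {ψ : V →+ V'} (hψ : RLin X ψ)
    (h : ∀ v ∈ E.Loc T, ∃ w ∈ F.Loc T, ψ v = u0.q u • w) :
    ∃ ρ ∈ T, ∀ s x, ∃ y, (ρ.sec s : K) • ψ (E.e s x) = (u0.sec s : K) • F.e s y := by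
  obtain ⟨ρ, hρ, e⟩ := approx (F := F) hT hu hψ (p0 := u0.q u) (p1 := 0) fun v hv =>
    (h v hv).imp fun w g => ⟨g.1, 0, zero_mem _, by rw [g.2, smul_zero, add_zero]⟩
  refine ⟨ρ, hρ, fun s x => ?_⟩
  obtain ⟨y, _, g⟩ := e s x
  exact ⟨y, by rw [g, Fm.sec_mul_q hd (hT.nz u hu), mul_zero, zero_smul, add_zero]⟩

theorem sec_inj (E : Emb N V) {u : Fm X} (hu : u.r ≠ 0) (s : X.Idx) (x : N.obj s)
    (h : u.sec s • x = 0) : x = 0 := by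
  have := congrArg (E.e s) h
  rw [E.smul, map_zero] at this
  exact E.inj s (((smul_eq_zero.1 this).resolve_left (Fm.sec_ne hu s)).trans (map_zero _).symm)

variable {u0 u1 u2 : Fm X}

theorem vanReg (E : Emb N V) (hu : Tri S u0 u1 u2) (d0 : u0.d = u2.d) (d1 : u1.d = u2.d)
    (h : LR (u0.q u2) (u1.q u2) (E.Lat S u2)) : ∃ σ ∈ S, ∀ (s : X.Idx) (x y : N.obj s),
      u1.sec s • x = u0.sec s • y → ∃ z, σ.sec s • x = u0.sec s • z := by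
  have n2 := hu.b2.nz u2 (self_mem_Su S u2)
  obtain ⟨σ, hσ, e⟩ := unif3 (S := S)
    (fun s => (LinearMap.range (LinearMap.lsmul (X.A s.1) (N.obj s) (u0.sec s))).comap
      (LinearMap.lsmul (X.A s.1) (N.obj s) (u1.sec s)))
    (fun s => LinearMap.range (LinearMap.lsmul (X.A s.1) (N.obj s) (u0.sec s))) hu.null
    (fun s x _ => ⟨u0, self_mem_Su S u0, x, rfl⟩) (fun s x hx => ⟨u1, self_mem_Su S u1, hx⟩)
    fun s x ⟨y, hy⟩ => by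
      obtain ⟨κ, hκ, g, g'⟩ := E.to_loc₂ E hu.b2 (E.e_mem s x) (E.e_mem s y)
      have hy' : (u0.sec s : K) • E.e s y = (u1.sec s : K) • E.e s x := by
        rw [← E.smul, ← E.smul]; exact congrArg (E.e s) hy
      obtain ⟨z, hz, e⟩ := h _ g _ g' (smul_right_injective V (Fm.sec_ne n2 s) (by
        simp only [← mul_smul (u2.sec s : K), Fm.sec_mul_q d0 n2, Fm.sec_mul_q d1 n2]
        rw [smul_comm, ← hy', smul_comm]))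
      obtain ⟨ρ, hρ, y0, _, e'⟩ := E.clear (p1 := 0) hκ (self_mem_Su S u2) hz (zero_mem _)
        (by rw [e, smul_zero, add_zero])
      refine ⟨ρ, hρ, y0, E.inj s ?_⟩
      rw [LinearMap.lsmul_apply, E.smul, E.smul, e', Fm.sec_mul_q d0 n2, mul_zero, zero_smul,
        add_zero]
  exact ⟨σ, hσ, fun s x y hy => (e s x ⟨y, hy.symm⟩).imp fun _ g => g.symm⟩

theorem vanA2 (E : Emb G V) (E' : Emb N V') (hu : Tri S u0 u1 u2) (d0 : u0.d = u2.d)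
    (d1 : u1.d = u2.d) {a : Cy X} {r : K} (hr : r ≠ 0)
    (h : LA2 X (u0.q u2) (u1.q u2) (E.Lat S u0) (E.Lat S u1) (E.Lat S u2) ((E'.tw a r hr).Lat S u0)
      ((E'.tw a r hr).Lat S u1) ((E'.tw a r hr).Lat S u2))
    (t : ℕ) (n : G ⟶ (twc (a * u2.d ^ t)).obj N) :
    ∃ σ ∈ S, ∃ (T : ℕ) (n0 : G ⟶ (twc (a * σ.d)).obj N), ∀ (s : X.Idx) (x : G.obj s),
      ∃ y0 y1 : N.obj s, (σ.sec s * u2.sec s ^ T) • (show N.obj s from n.app s x) =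
        u2.sec s ^ (T + t) • (show N.obj s from n0.app s x) + u0.sec s • y0 + u1.sec s • y1 := by
  have m2 := self_mem_Su S u2
  have n2 := hu.b2.nz u2 m2
  obtain ⟨ψ, hψ, e, kp⟩ := E.exists_hat_tw E' a hr (hu.b2.nz _ (pow_mem m2 t))
    (by rw [Fm.pow_d]) n
  obtain ⟨ψ0, hψ0, k0, k1, k2, g⟩ := h ψ hψ (kp _ (pow_mem m2 t))
  obtain ⟨σ1, g1, e1⟩ := ext3 hu hψ0 k0 k1 k2
  obtain ⟨_, ⟨σ2, g2, T, rfl⟩, e2⟩ := approx hu.b2 m2 (hψ.sub hψ0) g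
  obtain ⟨n0, e0⟩ := E.exists_hom_tw E' a hr (hu.b2.nz _ (mem_Su (mul_mem g2 g1) u2)) hψ0
    fun s x => by
      rw [Fm.mul_sec, MulMemClass.coe_mul, mul_smul]; exact smul_mem (σ2.sec s).2 (e1 s x)
  refine ⟨σ2 * σ1, mul_mem g2 g1, T, n0, fun s x => ?_⟩
  obtain ⟨y0, y1, e3⟩ := smul_mem_Two _ s _ _ _ (σ1.sec s * u2.sec s ^ t).2 _ (e2 s x)
  refine ⟨y0, y1, (E'.tw a r hr).inj s ?_⟩
  rw [Fm.sec_mul_q d0 n2, Fm.sec_mul_q d1 n2, AddMonoidHom.sub_apply] at e3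
  rw [map_add, map_add, Emb.smul, Emb.smul, Emb.smul, Emb.smul, e, e0, add_assoc, ← e3]
  simp only [Fm.mul_sec, Fm.pow_sec, MulMemClass.coe_mul, SubmonoidClass.coe_pow]
  module

theorem vanA1 (E : Emb G V) (E' : Emb N V') (hu : Tri S u0 u1 u2) (d1 : u0.d = u1.d)
    (d2 : u0.d = u2.d) {a : Cy X} {r : K} (hr : r ≠ 0)
    (h : LA1 X (u0.q u1) (u0.q u2) (E.Lat S u0) (E.Lat S u1) (E.Lat S u2) ((E'.tw a r hr).Lat S u0)
      ((E'.tw a r hr).Lat S u1) ((E'.tw a r hr).Lat S u2) ((E'.tw a r hr).Lat (Su S u1) u2))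
    (t : ℕ) (n1 : G ⟶ (twc (a * u1.d ^ t)).obj N) (n2 : G ⟶ (twc (a * u2.d ^ t)).obj N)
    (hn : ∀ (s : X.Idx) (x : G.obj s), ∃ y : N.obj s,
      u2.sec s ^ t • (show N.obj s from n1.app s x) =
        u1.sec s ^ t • (show N.obj s from n2.app s x) + u0.sec s • y) :
    ∃ σ ∈ S, ∃ (T : ℕ) (n0 : G ⟶ (twc (a * σ.d)).obj N), ∀ (s : X.Idx) (x : G.obj s),
      (∃ y : N.obj s, (σ.sec s * u1.sec s ^ T) • (show N.obj s from n1.app s x) =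
        u1.sec s ^ (T + t) • (show N.obj s from n0.app s x) + u0.sec s • y) ∧
      ∃ y : N.obj s, (σ.sec s * u2.sec s ^ T) • (show N.obj s from n2.app s x) =
        u2.sec s ^ (T + t) • (show N.obj s from n0.app s x) + u0.sec s • y := by
  have m1 := self_mem_Su S u1
  have m2 := self_mem_Su S u2
  have z0 := hu.b0.nz u0 (self_mem_Su S u0)
  have z1 := hu.b1.nz u1 m1
  obtain ⟨ψ1, l1, e1, kp1⟩ := E.exists_hat_tw E' a hr (hu.b1.nz _ (pow_mem m1 t))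
    (by rw [Fm.pow_d]) n1
  obtain ⟨ψ2, l2, e2, kp2⟩ := E.exists_hat_tw E' a hr (hu.b2.nz _ (pow_mem m2 t))
    (by rw [Fm.pow_d]) n2
  obtain ⟨ψ0, l0, k0, k1, k2, g1, g2⟩ := h ψ1 ψ2 l1 l2 (kp1 _ (pow_mem m1 t)) (kp2 _ (pow_mem m2 t))
    fun v ⟨ρ, hρ, hv⟩ => by
      have hq : u0.q u1 ≠ 0 := div_ne_zero z0 z1
      refine ⟨(u0.q u1)⁻¹ • (ψ1 v - ψ2 v), ⟨ρ * u1 ^ t * u2 ^ t,
        ⟨_, mul_mem hρ (pow_mem m1 t), t, rfl⟩, fun s => ?_⟩, (smul_inv_smul₀ hq _).symm⟩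
      obtain ⟨x, hx⟩ := hv s
      obtain ⟨y, hy⟩ := hn s x
      have := congrArg ((E'.tw a r hr).e s) hy
      rw [map_add, Emb.smul, Emb.smul, Emb.smul, e1, e2, hx, l1 _ (coe_mem_Rat _),
        l2 _ (coe_mem_Rat _), ← Fm.sec_mul_q d1 z1, ← sub_eq_iff_eq_add'] at this
      refine ⟨u1.sec s • y, smul_right_injective V' hq ?_⟩
      simp only [Emb.smul]
      rw [smul_comm, ← mul_smul, ← this, smul_comm (u0.q u1), smul_inv_smul₀ hq]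
      simp only [Fm.mul_sec, Fm.pow_sec, MulMemClass.coe_mul, SubmonoidClass.coe_pow]
      module
  obtain ⟨σ0, s0, f0⟩ := ext3 hu l0 k0 k1 k2
  obtain ⟨_, ⟨σ1, s1, T1, rfl⟩, f1⟩ := approx1 hu.b1 m1 d1 (l1.sub l0) g1
  obtain ⟨_, ⟨σ2, s2, T2, rfl⟩, f2⟩ := approx1 hu.b2 m2 d2 (l2.sub l0) g2
  have hσ := mul_mem (mul_mem s1 s2) s0
  obtain ⟨n0, e0⟩ := E.exists_hom_tw E' a hr (hu.b2.nz _ (mem_Su hσ u2)) l0 fun s x => by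
    rw [Fm.mul_sec, MulMemClass.coe_mul, mul_smul]; exact smul_mem (Fm.sec _ s).2 (f0 s x)
  refine ⟨_, hσ, T1 + T2, n0, fun s x => ⟨?_, ?_⟩⟩
  · obtain ⟨y, hy⟩ := f1 s x
    refine ⟨(σ0.sec s * σ2.sec s * u1.sec s ^ (T2 + t)) • y, (E'.tw a r hr).inj s ?_⟩
    rw [map_add, Emb.smul, Emb.smul, Emb.smul, Emb.smul, e1, e0, smul_comm (u0.sec s : K), ← hy,
      AddMonoidHom.sub_apply]
    simp only [Fm.mul_sec, Fm.pow_sec, MulMemClass.coe_mul, SubmonoidClass.coe_pow]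
    module
  · obtain ⟨y, hy⟩ := f2 s x
    refine ⟨(σ0.sec s * σ1.sec s * u2.sec s ^ (T1 + t)) • y, (E'.tw a r hr).inj s ?_⟩
    rw [map_add, Emb.smul, Emb.smul, Emb.smul, Emb.smul, e2, e0, smul_comm (u0.sec s : K), ← hy,
      AddMonoidHom.sub_apply]
    simp only [Fm.mul_sec, Fm.pow_sec, MulMemClass.coe_mul, SubmonoidClass.coe_pow]
    module

end Emb

/-- The data of the vanishing theorem with all hypotheses on lattices. -/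
structure LVan (S : Submonoid (Fm X)) (E : Emb G V) (E' : Emb N V') where
  u0 : Fm X
  u1 : Fm X
  u2 : Fm X
  tri : Tri S u0 u1 u2
  d1 : u0.d = u1.d
  d2 : u0.d = u2.d
  k0 : Kills G u0
  k1 : Kills G u1
  k2 : Kills G u2
  R : LR (u0.q u2) (u1.q u2) (E'.Lat S u2)
  D0 : Cy X → Prop
  D1 : Cy X → Prop
  D2 : Cy X → Prop
  D0_S : ∀ a, D0 a → ∀ σ ∈ S, D0 (a * σ.d)
  D1_S : ∀ a, D1 a → ∀ σ ∈ S, D1 (a * σ.d)
  D2_S : ∀ a, D2 a → ∀ σ ∈ S, D2 (a * σ.d)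
  D0_u : ∀ a, D0 a → D0 (a * u0.d)
  D1_u : ∀ a, D1 a → D1 (a * u0.d)
  D01 : ∀ a, D0 a → D1 (a * u0.d)
  D12 : ∀ a, D1 a → D2 (a * u0.d)
  A2 : ∀ a, D2 a → LA2 X (u0.q u2) (u1.q u2) (E.Lat S u0) (E.Lat S u1) (E.Lat S u2)
    ((E'.tw a 1 one_ne_zero).Lat S u0) ((E'.tw a 1 one_ne_zero).Lat S u1)
    ((E'.tw a 1 one_ne_zero).Lat S u2)
  A1 : ∀ a, D1 a → LA1 X (u0.q u1) (u0.q u2) (E.Lat S u0) (E.Lat S u1) (E.Lat S u2)
    ((E'.tw a 1 one_ne_zero).Lat S u0) ((E'.tw a 1 one_ne_zero).Lat S u1)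
    ((E'.tw a 1 one_ne_zero).Lat S u2) ((E'.tw a 1 one_ne_zero).Lat (Su S u1) u2)

/-- The chartwise data. -/
def LVan.van {E : Emb G V} {E' : Emb N V'} (W : LVan S E E') : Van S G N where
  u0 := W.u0
  u1 := W.u1
  u2 := W.u2
  k0 := W.k0
  k1 := W.k1
  k2 := W.k2
  null := W.tri.null
  inj0 := E'.sec_inj (W.tri.b0.nz _ (self_mem_Su S _))
  reg := E'.vanReg W.tri W.d2 (W.d1.symm.trans W.d2) W.R
  D0 := W.D0
  D1 := W.D1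
  D2 := W.D2
  D0_S := W.D0_S
  D1_S := W.D1_S
  D2_S := W.D2_S
  D0_u := W.D0_u
  D1_u := W.d1 ▸ W.D1_u
  D01 := W.D01
  D12 := W.d1 ▸ W.D12
  A2 a ha := E.vanA2 E' W.tri W.d2 (W.d1.symm.trans W.d2) one_ne_zero (W.A2 a ha)
  A1 a ha := E.vanA1 E' W.tri W.d1 W.d2 one_ne_zero (W.A1 a ha)

end Pool.Agent.Lib.MP_d3d358_ag.Bkr
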