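import Pool.Agent.Lib.MP_d3d358_ag.Bkr.Quot
import Pool.Agent.Lib.MP_d3d358_ag.Bkr.Fm
import Pool.Agent.Lib.MP_d3d358_ag.K.GenEt

/-! Sheaves on which a family of forms acts as zero in the quotient by a thick subcategory. -/

set_option autoImplicit false

open CategoryTheory Limits Abelian

namespace Pool.Agent.Lib.MP_d3d358_ag.Bkr

open Pool.Agent.Lib.MP_cd184e_ag.T Pool.Agent.Lib.MP_cd184e_ag.T.Coh
open Pool.Agent.Lib.MP_d3d358_ag.K Pool.Agent.Lib.MP_d3d358_ag.K.Cy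

variable {k K : Type} [Field k] [Field K] [Algebra k K] {X : ProjVar k K}

namespace Fm

/-- Multiplication by a form as a natural transformation. -/
noncomputable def muNat (σ : Fm X) {a b : Cy X} (h : b = a * σ.d) : twc a ⟶ twc b where
  app N := σ.mu N h
  naturality _ _ φ := muc_nat φ _

theorem mu_nat2 (σ : Fm X) {M N : Coh X} (φ : M ⟶ N) {a b : Cy X} (h : b = a * σ.d) :
    (twc a).map φ ≫ σ.mu N h = σ.mu M h ≫ (twc b).map φ := muc_nat φ _

theorem mu_mu2 (σ τ : Fm X) (N : Coh X) {a b c : Cy X} (h : b = a * σ.d) (h' : c = b * τ.d)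
    (h'' : c = a * (σ * τ).d) : σ.mu N h ≫ τ.mu N h' = (σ * τ).mu N h'' := muc_muc N _ _

/-- Multiplication by a form on a twisted short complex. -/
noncomputable def muS (σ : Fm X) (S : ShortComplex (Coh X)) {a b : Cy X} (h : b = a * σ.d) :
    S.map (twc a) ⟶ S.map (twc b) :=
  ⟨σ.mu _ h, σ.mu _ h, σ.mu _ h, (σ.mu_nat2 _ h).symm, (σ.mu_nat2 _ h).symm⟩

end Fm

/-- The form `σ` acts as zero on `M ⊗ a` in the quotient by `P`. -/
def Zq (P : ObjectProperty (DerivedCategory (Coh X))) (M : Coh X) (a : Cy X) (σ : Fm X) : Prop :=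
  Nq0 P (σ.mu M (a := a) rfl)

/-- On every twist of `M` by a bundle of `D` some form of `S` acts as zero in the quotient by `P`. -/
def Nw (P : ObjectProperty (DerivedCategory (Coh X))) (D : Subgroup (Cy X))
    (S : Submonoid (Fm X)) (M : Coh X) : Prop := ∀ a ∈ D, ∃ σ ∈ S, Zq P M a σ

/-- The degrees of the forms of `S` lie in `D`. -/
def DegIn (D : Subgroup (Cy X)) (S : Submonoid (Fm X)) : Prop := ∀ σ ∈ S, σ.d ∈ D

variable {P : ObjectProperty (DerivedCategory (Coh X))} {D : Subgroup (Cy X)}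
  {S : Submonoid (Fm X)} {L M N : Coh X} {a : Cy X}

theorem Zq.nq {σ : Fm X} (h : Zq P M a σ) {b : Cy X} (e : b = a * σ.d) : Nq0 P (σ.mu M e) := by
  subst e; exact h

theorem Zq.mul {σ : Fm X} (h : Zq P M a σ) (τ : Fm X) : Zq P M a (σ * τ) := by
  rw [Zq, ← σ.mu_mu2 τ M rfl (mul_assoc _ _ _).symm]
  exact Nq0.post h _

theorem Zq.mul' {σ : Fm X} (h : Zq P M a σ) (τ : Fm X) : Zq P M a (τ * σ) :=
  mul_comm σ τ ▸ h.mul τ

theorem Zq.retract {σ : Fm X} (f : M ⟶ N) (g : N ⟶ M) (hfg : f ≫ g = 𝟙 M) (h : Zq P N a σ) :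
    Zq P M a σ := by
  have e : σ.mu M (a := a) rfl = ((twc a).map f ≫ σ.mu N rfl) ≫ (twc _).map g := by
    rw [σ.mu_nat2, Category.assoc, ← Functor.map_comp, hfg, CategoryTheory.Functor.map_id,
      Category.comp_id]
  rw [Zq, e]
  exact (Nq0.pre _ h).post _

theorem Zq.twist {σ : Fm X} {d : Cy X} (h : Zq P M (d * a) σ) : Zq P ((twc d).obj M) a σ := by
  have e : σ.mu ((twc d).obj M) (a := a) rfl = ((twctwc M d a _ rfl).hom ≫ σ.mu M rfl) ≫
      (twctwc M d (a * σ.d) _ (mul_assoc _ _ _).symm).inv := by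
    refine hom_ext fun s x => ?_
    exact (σ.mu_app ((twc d).obj M) rfl s x).trans (σ.mu_app M (a := d * a) rfl s x).symm
  rw [Zq, e]
  exact (Nq0.pre _ h).post _

theorem Nw.of_inP (h : ∀ a ∈ D, InP P ((twc a).obj M)) : Nw P D S M :=
  fun a ha => ⟨1, one_mem _, Nq0.of_src (h a ha) _⟩

theorem Nw.retract (f : M ⟶ N) (g : N ⟶ M) (hfg : f ≫ g = 𝟙 M) (h : Nw P D S N) : Nw P D S M :=
  fun a ha => (h a ha).imp fun _ hσ => ⟨hσ.1, hσ.2.retract f g hfg⟩

theorem Nw.of_iso (e : M ≅ N) (h : Nw P D S M) : Nw P D S N := h.retract e.inv e.hom e.inv_hom_id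

theorem Nw.twist (h : Nw P D S M) {d : Cy X} (hd : d ∈ D) : Nw P D S ((twc d).obj M) :=
  fun _ ha => (h _ (mul_mem hd ha)).imp fun _ hσ => ⟨hσ.1, hσ.2.twist⟩

theorem Nw.mono {S' : Submonoid (Fm X)} (hS : S ≤ S') (h : Nw P D S M) : Nw P D S' M :=
  fun a ha => (h a ha).imp fun _ hσ => ⟨hS hσ.1, hσ.2⟩

variable [P.IsTriangulated]

theorem Zq.of_smul {σ : Fm X} (h : ∀ (s : X.Idx) (x : M.obj s), σ.sec s • x = 0) : Zq P M a σ :=
  Nq0.of_eq_zero (hom_ext fun s x => (σ.mu_app M rfl s x).trans (h s x))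

theorem Zq.add {σ τ ρ : Fm X} (hσ : Zq P M a σ) (hτ : Zq P M a τ) (e1 : ρ.d = σ.d)
    (e2 : ρ.d = τ.d) (e : ρ.r = σ.r + τ.r) : Zq P M a ρ := by
  have h : ρ.mu M (a := a) rfl = σ.mu M (by rw [e1]) + τ.mu M (by rw [e2]) :=
    (muc_congr M _ _ e).trans (muc_add M _ _)
  rw [Zq, h]
  exact (hσ.nq _).add (hτ.nq _)

theorem Zq.zero {ρ : Fm X} (e : ρ.r = 0) : Zq P M a ρ :=
  Zq.of_smul fun s x => by
    rw [show ρ.sec s = 0 from Subtype.ext (by simp [Fm.coe_sec, e]), zero_smul]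

theorem Nw.of_null (h : ∃ σ ∈ S, ∀ (s : X.Idx) (x : M.obj s), σ.sec s • x = 0) : Nw P D S M :=
  fun _ _ => h.imp fun _ hσ => ⟨hσ.1, Zq.of_smul hσ.2⟩

section
variable (hD : DegIn D S) {E : ShortComplex (Coh X)} (hE : E.ShortExact)
include hD hE

theorem Nw.mid (h1 : Nw P D S E.X₁) (h3 : Nw P D S E.X₃) : Nw P D S E.X₂ := fun a ha => by
  obtain ⟨σ, hσ, z⟩ := h3 a ha
  obtain ⟨τ, hτ, z'⟩ := h1 _ (mul_mem ha (hD σ hσ))
  refine ⟨σ * τ, mul_mem hσ hτ, ?_⟩
  rw [Zq, ← σ.mu_mu2 τ _ rfl (mul_assoc _ _ _).symm]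
  exact Nq0.ses₂ (hE.map_of_exact (twc a)) (hE.map_of_exact (twc _)) (hE.map_of_exact (twc _))
    (σ.muS E rfl) (τ.muS E (mul_assoc _ _ _).symm) z (z'.nq (mul_assoc _ _ _).symm)

theorem Nw.left (h2 : Nw P D S E.X₂) (h3 : Nw P D S E.X₃) : Nw P D S E.X₁ := fun a ha => by
  obtain ⟨σ, hσ, z⟩ := h2 a ha
  obtain ⟨τ, hτ, z'⟩ := h3 _ (mul_mem ha (hD σ hσ))
  refine ⟨σ * τ, mul_mem hσ hτ, ?_⟩
  rw [Zq, ← σ.mu_mu2 τ _ rfl (mul_assoc _ _ _).symm]
  exact Nq0.ses₁ (hE.map_of_exact (twc a)) (hE.map_of_exact (twc _)) (hE.map_of_exact (twc _))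
    (σ.muS E rfl) (τ.muS E (mul_assoc _ _ _).symm) z (z'.nq (mul_assoc _ _ _).symm)

theorem Nw.right (h1 : Nw P D S E.X₁) (h2 : Nw P D S E.X₂) : Nw P D S E.X₃ := fun a ha => by
  obtain ⟨σ, hσ, z⟩ := h1 a ha
  obtain ⟨τ, hτ, z'⟩ := h2 _ (mul_mem ha (hD σ hσ))
  refine ⟨σ * τ, mul_mem hσ hτ, ?_⟩
  rw [Zq, ← σ.mu_mu2 τ _ rfl (mul_assoc _ _ _).symm]
  exact Nq0.ses₃ (hE.map_of_exact (twc a)) (hE.map_of_exact (twc _)) (hE.map_of_exact (twc _))
    (σ.muS E rfl) (τ.muS E (mul_assoc _ _ _).symm) z (z'.nq (mul_assoc _ _ _).symm)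

end

theorem Nw.dec {I : Type} [Fintype I] {F : I → Coh X} (f : ∀ x, N ⟶ F x) (g : ∀ x, F x ⟶ N)
    (hfg : ∑ x, f x ≫ g x = 𝟙 N) (h : ∀ x, Nw P D S (F x)) : Nw P D S N := fun a ha => by
  classical
  choose σ hσ z using fun x => h x a ha
  refine ⟨∏ x, σ x, prod_mem fun x _ => hσ x, ?_⟩
  have e : (∏ x, σ x).mu N (a := a) rfl =
      ∑ x, ((twc a).map (f x) ≫ (∏ x, σ x).mu (F x) rfl) ≫ (twc _).map (g x) := by
    have h1 : ∀ x, ((twc a).map (f x) ≫ (∏ x, σ x).mu (F x) rfl) ≫ (twc _).map (g x) =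
        (∏ x, σ x).mu N (a := a) rfl ≫ (twc _).map (f x ≫ g x) := fun x => by
      rw [Fm.mu_nat2, Category.assoc, ← Functor.map_comp]
    rw [Finset.sum_congr rfl fun x _ => h1 x, ← Preadditive.comp_sum, ← Functor.map_sum, hfg,
      CategoryTheory.Functor.map_id, Category.comp_id]
  rw [Zq, e]
  refine Nq0.sum _ fun x _ => (Nq0.pre _ ?_).post _
  have := (z x).mul (∏ y ∈ Finset.univ.erase x, σ y)
  rwa [Finset.mul_prod_erase _ _ (Finset.mem_univ x)] at this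

theorem sum_proj_incl {I : Type} [Fintype I] [DecidableEq I] (F : I → Coh X) :
    ∑ i, proj F i ≫ incl F i = 𝟙 (pi F) := (piLift_eq_sum (proj F)).symm

theorem Nw.pi {I : Type} [Finite I] {F : I → Coh X} (h : ∀ x, Nw P D S (F x)) :
    Nw P D S (pi F) := by
  classical
  have := Fintype.ofFinite I
  exact Nw.dec _ _ (sum_proj_incl F) h

/-- Some form of `S` moves every section of the target into the image. -/
def AlmSurj (S : Submonoid (Fm X)) (φ : M ⟶ N) : Prop :=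
  ∃ σ ∈ S, ∀ (s : X.Idx) (y : N.obj s), ∃ x, φ.app s x = σ.sec s • y

/-- Some form of `S` kills the kernel. -/
def AlmInj (S : Submonoid (Fm X)) (φ : M ⟶ N) : Prop :=
  ∃ σ ∈ S, ∀ (s : X.Idx) (x : M.obj s), φ.app s x = 0 → σ.sec s • x = 0

/-- Some form of `S` moves the kernel of `ψ` into the image of `φ`. -/
def AlmEx (S : Submonoid (Fm X)) (φ : L ⟶ M) (ψ : M ⟶ N) : Prop :=
  ∃ σ ∈ S, ∀ (s : X.Idx) (y : M.obj s), ψ.app s y = 0 → ∃ x, φ.app s x = σ.sec s • y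

theorem Nw.coker_null {φ : M ⟶ N} (h : AlmSurj S φ) : Nw P D S (range φ).quot :=
  Nw.of_null (h.imp fun _ hσ => ⟨hσ.1, fun s y => by
    obtain ⟨y, rfl⟩ := Submodule.Quotient.mk_surjective _ y
    exact (Submodule.Quotient.mk_eq_zero _).2 (hσ.2 s y)⟩)

theorem Nw.ker_null {φ : M ⟶ N} (h : AlmInj S φ) : Nw P D S (ker φ).sub :=
  Nw.of_null (h.imp fun _ hσ => ⟨hσ.1, fun s y => Subtype.ext (hσ.2 s y.1 y.2)⟩)

variable (hD : DegIn D S)
include hD

theorem Nw.range_of {φ : M ⟶ N} (h : AlmSurj S φ) (hN : Nw P D S N) : Nw P D S (range φ).sub :=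
  Nw.left hD (range φ).shortExact hN (Nw.coker_null h)

theorem Nw.ker_of {φ : M ⟶ N} (h : AlmSurj S φ) (hM : Nw P D S M) (hN : Nw P D S N) :
    Nw P D S (ker φ).sub :=
  Nw.left hD (shortExact_toRange φ) hM (Nw.range_of hD h hN)

theorem Nw.src_of {φ : M ⟶ N} (hi : AlmInj S φ) (hs : AlmSurj S φ) (hN : Nw P D S N) :
    Nw P D S M := Nw.mid hD (shortExact_toRange φ) (Nw.ker_null hi) (Nw.range_of hD hs hN)

theorem Nw.tgt_of {φ : M ⟶ N} (hi : AlmInj S φ) (hs : AlmSurj S φ) (hM : Nw P D S M) :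
    Nw P D S N := Nw.mid hD (range φ).shortExact
      (Nw.right hD (shortExact_toRange φ) (Nw.ker_null hi) hM) (Nw.coker_null hs)

theorem Nw.three {f : L ⟶ M} {g : M ⟶ N} (w : f ≫ g = 0) (h0 : AlmInj S f) (h1 : AlmEx S f g)
    (h2 : AlmSurj S g) (hM : Nw P D S M) (hN : Nw P D S N) : Nw P D S L :=
  Nw.src_of hD (φ := (ker g).lift f (app_comp_zero w))
    (h0.imp fun _ hσ => ⟨hσ.1, fun s x hx => hσ.2 s x (congrArg Subtype.val hx)⟩)
    (h1.imp fun _ hσ => ⟨hσ.1, fun s y => (hσ.2 s y.1 y.2).imp fun _ e => Subtype.ext e⟩)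
    (Nw.ker_of hD h2 hM hN)

/-- A complex with four terms that is exact up to forms of `S`. -/
theorem Nw.four {A B C E : Coh X} {f : A ⟶ B} {g : B ⟶ C} {h : C ⟶ E} (w : f ≫ g = 0)
    (w' : g ≫ h = 0) (h0 : AlmInj S f) (h1 : AlmEx S f g) (h2 : AlmEx S g h) (h3 : AlmSurj S h)
    (hB : Nw P D S B) (hC : Nw P D S C) (hE : Nw P D S E) : Nw P D S A :=
  Nw.three hD (g := (ker h).lift g (app_comp_zero w'))
    (hom_ext fun s x => Subtype.ext (app_comp_zero w s x)) h0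
    (h1.imp fun _ hσ => ⟨hσ.1, fun s y hy => hσ.2 s y (congrArg Subtype.val hy)⟩)
    (h2.imp fun _ hσ => ⟨hσ.1, fun s y => (hσ.2 s y.1 y.2).imp fun _ e => Subtype.ext e⟩)
    hB (Nw.ker_of hD h3 hC hE)

omit hD

theorem projective_quot {R M N : Type} [CommRing R] [AddCommGroup M] [Module R M] [AddCommGroup N]
    [Module R N] [Module.Projective R N] (i : M →ₗ[R] N) (r : N →ₗ[R] M) (h : ∀ x, r (i x) = x) :
    Module.Projective R (N ⧸ LinearMap.range i) := by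
  refine Module.Projective.of_split ((LinearMap.range i).liftQ (LinearMap.id - i ∘ₗ r) ?_)
    (LinearMap.range i).mkQ (LinearMap.ext fun y => ?_)
  · rintro _ ⟨x, rfl⟩
    simp [h]
  · obtain ⟨y, rfl⟩ := Submodule.Quotient.mk_surjective _ y
    exact (Submodule.Quotient.eq _).2 ⟨-r y, by simp⟩

theorem locProj_pi {I : Type} [Finite I] (F : I → Coh X) (h : ∀ i, LocProj (F i)) :
    LocProj (pi F) := fun j => by
  have := Fintype.ofFinite I
  have := fun i => h i j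
  exact Module.Projective.of_equiv' (DFinsupp.linearEquivFunOnFintype
    (R := X.A (X.one j).1) (M := fun i => (F i).obj (X.one j)))

/-- The forms `y i` generate the unit ideal on every chart. -/
def Bpf {I : Type} (y : I → Fm X) : Prop :=
  ∀ j : X.J, Ideal.span (Set.range fun i => (y i).sec (X.one j)) = ⊤

theorem Bpf.of_unit {I : Type} {y : I → Fm X} (h : ∀ j : X.J, ∃ i, IsUnit ((y i).sec (X.one j))) :
    Bpf y := fun j => by
  obtain ⟨i, hi⟩ := h j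
  exact Ideal.eq_top_of_isUnit_mem _ (Ideal.subset_span ⟨i, rfl⟩) hi

theorem Bpf.pow {I : Type} [Finite I] {y : I → Fm X} (h : Bpf y) (t : I → ℕ) :
    Bpf fun i => y i ^ t i := fun j => by
  have := Fintype.ofFinite I
  rw [← Ideal.radical_eq_top, eq_top_iff, ← h j, Ideal.span_le]
  rintro _ ⟨i, rfl⟩
  exact ⟨t i, Ideal.subset_span ⟨i, Fm.pow_sec _ _ _⟩⟩

variable [P.IsStableUnderRetracts]

/-- A locally projective sheaf on which powers of base point free forms act as zero in the quotient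
lies in the thick subcategory. -/
theorem inP_of_nw {I : Type} [Finite I] {y : I → Fm X} (hy : Bpf y) (hd : ∀ i, (y i).d ∈ D)
    (hM : LocProj M) (h : ∀ i, Nw P D (Submonoid.powers (y i)) M) : InP P M := by
  classical
  have := Fintype.ofFinite I
  have hD : ∀ i, DegIn D (Submonoid.powers (y i)) := by
    rintro i _ ⟨t, rfl⟩
    exact Fm.pow_d (y i) t ▸ pow_mem (hd i) t
  refine InP.of_nul (fun M => LocProj M ∧ ∀ i, Nw P D (Submonoid.powers (y i)) M) ?_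
    ((List.ofFn X.f).length + 1) (fun M M' _ h' => cd (noZero_all X) h'.1 M _ (Nat.le_succ _))
    ⟨hM, h⟩
  rintro M ⟨hM, h⟩
  choose σ hσ z using fun i => h i 1 (one_mem _)
  choose t ht using hσ
  have hb : Bpf σ := funext ht ▸ hy.pow t
  have hσd : ∀ i, 1 * (σ i).d ∈ D := fun i => mul_mem (one_mem _) (hD i _ ⟨t i, ht i⟩)
  let ι : (twc 1).obj M ⟶ pi fun i => (twc (1 * (σ i).d)).obj M := piLift fun i => (σ i).mu M rfl
  have hr : ∀ j : X.J, ∃ r : (I → M.obj (X.one j)) →ₗ[X.A (X.one j).1] M.obj (X.one j),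
      ∀ x, r (ι.app (X.one j) x) = x := fun j => by
    obtain ⟨c, hc⟩ := Ideal.mem_span_range_iff_exists_fun.1 ((Ideal.eq_top_iff_one _).1 (hb j))
    refine ⟨∑ i, c i • LinearMap.proj (R := X.A (X.one j).1) (φ := fun _ : I => M.obj (X.one j)) i,
      fun x => ?_⟩
    have e : ∀ i, ι.app (X.one j) x i = (σ i).sec (X.one j) • (show M.obj (X.one j) from x) :=
      fun i => (σ i).mu_app M rfl _ x
    refine (LinearMap.sum_apply _ _ _).trans ?_
    refine (Finset.sum_congr rfl fun i _ => (congrArg (c i • ·) (e i)).trans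
      (mul_smul _ _ _).symm).trans ?_
    rw [← Finset.sum_smul, hc, one_smul]
  have hi : ∀ s, Function.Injective (ι.app s) := inj_of_one _ fun j => by
    obtain ⟨r, hr⟩ := hr j
    exact Function.LeftInverse.injective hr
  refine ⟨_, twc1 M, shortExact_coker ι hi, ?_, fun j => ?_, fun i => ?_⟩
  · change Nq0 P (piLift _)
    rw [piLift_eq_sum]
    exact Nq0.sum _ fun i _ => Nq0.post (z i) _
  · obtain ⟨r, hr⟩ := hr j
    have := locProj_pi (fun i => (twc (1 * (σ i).d)).obj M) (fun _ => hM) j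
    exact projective_quot (ι.app (X.one j)) r hr
  · exact Nw.right (hD i) (shortExact_coker ι hi) ((h i).twist (one_mem _))
      (Nw.pi fun i' => (h i).twist (hσd i'))

end Pool.Agent.Lib.MP_d3d358_ag.Bkr
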