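import Pool.Agent.Lib.MP_d3d358_ag.Bkr.Thk

/-! Maps that vanish in the quotient of a triangulated category by a thick subcategory. -/

set_option autoImplicit false

open CategoryTheory Limits Pretriangulated Abelian

namespace Pool.Agent.Lib.MP_d3d358_ag.Bkr

section Tri

universe v u

variable {D : Type u} [Category.{v} D] [HasZeroObject D] [HasShift D ℤ] [Preadditive D]
  [∀ n : ℤ, (shiftFunctor D n).Additive] [Pretriangulated D]

/-- The morphism factors through an object with property `P`: it is zero in the quotient. -/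
def Nq (P : ObjectProperty D) {A B : D} (f : A ⟶ B) : Prop :=
  ∃ (Z : D) (a : A ⟶ Z) (b : Z ⟶ B), P Z ∧ a ≫ b = f

variable {P : ObjectProperty D} {A B C : D}

omit [HasZeroObject D] [HasShift D ℤ] [Preadditive D] [∀ n : ℤ, (shiftFunctor D n).Additive]
  [Pretriangulated D] in
theorem Nq.pre (g : A ⟶ B) {f : B ⟶ C} (h : Nq P f) : Nq P (g ≫ f) := by
  obtain ⟨Z, a, b, hZ, rfl⟩ := h
  exact ⟨Z, g ≫ a, b, hZ, Category.assoc _ _ _⟩

omit [HasZeroObject D] [HasShift D ℤ] [Preadditive D] [∀ n : ℤ, (shiftFunctor D n).Additive]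
  [Pretriangulated D] in
theorem Nq.post {f : A ⟶ B} (h : Nq P f) (g : B ⟶ C) : Nq P (f ≫ g) := by
  obtain ⟨Z, a, b, hZ, rfl⟩ := h
  exact ⟨Z, a, b ≫ g, hZ, (Category.assoc _ _ _).symm⟩

omit [HasZeroObject D] [HasShift D ℤ] [Preadditive D] [∀ n : ℤ, (shiftFunctor D n).Additive]
  [Pretriangulated D] in
theorem Nq.of_src (h : P A) (f : A ⟶ B) : Nq P f := ⟨A, 𝟙 A, f, h, Category.id_comp _⟩

omit [HasZeroObject D] [HasShift D ℤ] [Preadditive D] [∀ n : ℤ, (shiftFunctor D n).Additive]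
  [Pretriangulated D] in
theorem Nq.of_tgt (h : P B) (f : A ⟶ B) : Nq P f := ⟨B, f, 𝟙 B, h, Category.comp_id _⟩

omit [HasZeroObject D] [HasShift D ℤ] [Preadditive D] [∀ n : ℤ, (shiftFunctor D n).Additive]
  [Pretriangulated D] in
theorem Nq.prop [P.IsStableUnderRetracts] (h : Nq P (𝟙 A)) : P A := by
  obtain ⟨Z, a, b, hZ, e⟩ := h
  exact P.prop_of_retract ⟨a, b, e⟩ hZ

variable [P.IsTriangulated]

theorem Nq.zero (A B : D) : Nq P (0 : A ⟶ B) := by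
  obtain ⟨Z, -, hZ⟩ := P.exists_prop_of_containsZero
  exact ⟨Z, 0, 0, hZ, comp_zero⟩

theorem Nq.of_eq_zero {f : A ⟶ B} (h : f = 0) : Nq P f := h ▸ Nq.zero A B

theorem Nq.shift {f : A ⟶ B} (h : Nq P f) (n : ℤ) : Nq P (f⟦n⟧') := by
  obtain ⟨Z, a, b, hZ, rfl⟩ := h
  exact ⟨Z⟦n⟧, a⟦n⟧', b⟦n⟧', P.le_shift n _ hZ, (Functor.map_comp _ _ _).symm⟩

theorem Nq.unshift {f : A ⟶ B} {n : ℤ} (h : Nq P (f⟦n⟧')) : Nq P f := by
  have e := NatIso.naturality_1 (shiftFunctorCompIsoId D n (-n) (add_neg_cancel n)) f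
  exact (show _ = f from e) ▸ ((h.shift (-n)).post _).pre _

omit [HasZeroObject D] [∀ n : ℤ, (shiftFunctor D n).Additive] [Pretriangulated D]
  [P.IsTriangulated] [HasShift D ℤ] in
theorem Nq.neg {f : A ⟶ B} (h : Nq P f) : Nq P (-f) := by
  obtain ⟨Z, a, b, hZ, rfl⟩ := h
  exact ⟨Z, a, -b, hZ, Preadditive.comp_neg _ _⟩

omit [P.IsTriangulated] in
theorem Nq.exists_pre {f : A ⟶ B} (h : Nq P f) :
    ∃ (A' : D) (s : A' ⟶ A), P.trW s ∧ s ≫ f = 0 := by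
  obtain ⟨Z, a, b, hZ, rfl⟩ := h
  obtain ⟨A', s, c, hT⟩ := distinguished_cocone_triangle₁ a
  refine ⟨A', s, ObjectProperty.trW.mk P hT hZ, ?_⟩
  rw [← Category.assoc, show s ≫ a = 0 from comp_distTriang_mor_zero₁₂ _ hT, zero_comp]

theorem Nq.exists_post {f : A ⟶ B} (h : Nq P f) :
    ∃ (B' : D) (s : B ⟶ B'), P.trW s ∧ f ≫ s = 0 := by
  obtain ⟨Z, a, b, hZ, rfl⟩ := h
  obtain ⟨B', s, c, hT⟩ := distinguished_cocone_triangle b
  refine ⟨B', s, ObjectProperty.trW.mk' P hT hZ, ?_⟩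
  rw [Category.assoc, show b ≫ s = 0 from comp_distTriang_mor_zero₁₂ _ hT, comp_zero]

omit [P.IsTriangulated] in
theorem Nq.of_pre {A' : D} {s : A' ⟶ A} (hs : P.trW s) {f : A ⟶ B} (h : s ≫ f = 0) : Nq P f := by
  obtain ⟨Z, g, c, hT, hZ⟩ := hs
  obtain ⟨b, e⟩ := Triangle.yoneda_exact₂ _ hT f h
  exact ⟨Z, g, b, hZ, e.symm⟩

theorem Nq.of_post {B' : D} {s : B ⟶ B'} (hs : P.trW s) {f : A ⟶ B} (h : f ≫ s = 0) :
    Nq P f := by
  rw [ObjectProperty.trW_iff'] at hs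
  obtain ⟨Z, g, c, hT, hZ⟩ := hs
  obtain ⟨b, e⟩ := Triangle.coyoneda_exact₂ _ hT f h
  exact ⟨Z, b, g, hZ, e.symm⟩

variable [IsTriangulated D]

theorem Nq.cancel_pre {A' : D} {s : A' ⟶ A} (hs : P.trW s) {f : A ⟶ B} (h : Nq P (s ≫ f)) :
    Nq P f := by
  obtain ⟨A'', t, ht, e⟩ := h.exists_pre
  exact Nq.of_pre (P.trW.comp_mem _ _ ht hs) (by rw [Category.assoc, e])

theorem Nq.cancel_post {B' : D} {s : B ⟶ B'} (hs : P.trW s) {f : A ⟶ B} (h : Nq P (f ≫ s)) :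
    Nq P f := by
  obtain ⟨B'', t, ht, e⟩ := h.exists_post
  exact Nq.of_post (P.trW.comp_mem _ _ hs ht) (by rw [← Category.assoc, e])

theorem Nq.add {f g : A ⟶ B} (hf : Nq P f) (hg : Nq P g) : Nq P (f + g) := by
  obtain ⟨A', s, hs, e⟩ := hf.exists_pre
  refine Nq.cancel_pre hs ?_
  rw [Preadditive.comp_add, e, zero_add]
  exact hg.pre s

theorem Nq.sum {I : Type} (t : Finset I) {f : I → (A ⟶ B)} (h : ∀ i ∈ t, Nq P (f i)) :
    Nq P (∑ i ∈ t, f i) :=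
  Finset.sum_induction _ (Nq P) (fun _ _ => Nq.add) (Nq.zero A B) h

/-- Exactness in the quotient: a map killed by the second map of a triangle and followed by a map
that kills the first one. -/
theorem Nq.tri {T : Triangle D} (hT : T ∈ distTriang D) {f : A ⟶ T.obj₂} {g : T.obj₂ ⟶ B}
    (hf : Nq P (f ≫ T.mor₂)) (hg : Nq P (T.mor₁ ≫ g)) : Nq P (f ≫ g) := by
  obtain ⟨A', s, hs, e⟩ := hf.exists_pre
  obtain ⟨c, hc⟩ := Triangle.coyoneda_exact₂ _ hT (s ≫ f) (by rw [Category.assoc, e])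
  refine Nq.cancel_pre hs ?_
  rw [← Category.assoc, hc, Category.assoc]
  exact hg.pre c

theorem Nq.tri₂ {T T' T'' : Triangle D} (hT : T' ∈ distTriang D) (φ : T ⟶ T') (ψ : T' ⟶ T'')
    (h3 : Nq P φ.hom₃) (h1 : Nq P ψ.hom₁) : Nq P (φ.hom₂ ≫ ψ.hom₂) :=
  Nq.tri hT (φ.comm₂ ▸ h3.pre _) (ψ.comm₁ ▸ h1.post _)

theorem Nq.tri₃ {T T' T'' : Triangle D} (hT : T' ∈ distTriang D) (φ : T ⟶ T') (ψ : T' ⟶ T'')
    (h1 : Nq P φ.hom₁) (h2 : Nq P ψ.hom₂) : Nq P (φ.hom₃ ≫ ψ.hom₃) :=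
  Nq.tri (T := T'.rotate) (rot_of_distTriang _ hT) (φ.comm₃ ▸ (h1.shift 1).pre _)
    (ψ.comm₂ ▸ h2.post _)

theorem Nq.tri₁ {T T' T'' : Triangle D} (hT : T' ∈ distTriang D) (φ : T ⟶ T') (ψ : T' ⟶ T'')
    (h2 : Nq P φ.hom₂) (h3 : Nq P ψ.hom₃) : Nq P (φ.hom₁ ≫ ψ.hom₁) := by
  refine Nq.unshift (n := 1) ?_
  rw [Functor.map_comp]
  refine Nq.tri (T := T'.rotate.rotate) (rot_of_distTriang _ (rot_of_distTriang _ hT)) ?_ ?_
  · have e : (φ.hom₁)⟦(1 : ℤ)⟧' ≫ T'.rotate.rotate.mor₂ = -((T.mor₁ ≫ φ.hom₂)⟦(1 : ℤ)⟧') := by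
      rw [φ.comm₁, Functor.map_comp, ← Preadditive.comp_neg]; rfl
    exact e ▸ ((h2.pre _).shift 1).neg
  · have e : T'.rotate.rotate.mor₁ ≫ (ψ.hom₁)⟦(1 : ℤ)⟧' = ψ.hom₃ ≫ T''.mor₃ := ψ.comm₃
    exact e ▸ h3.post _

/-- If the first map of a triangle is zero in the quotient, the third one is an epimorphism there. -/
theorem Nq.of_mor₃ {T : Triangle D} (hT : T ∈ distTriang D) (h : Nq P T.mor₁)
    {y : T.obj₁⟦(1 : ℤ)⟧ ⟶ B} (hy : Nq P (T.mor₃ ≫ y)) : Nq P y := by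
  have := Nq.tri (T := T.rotate.rotate) (rot_of_distTriang _ (rot_of_distTriang _ hT))
    (f := 𝟙 _) (g := y) (Nq.pre _ (h.shift 1).neg) hy
  exact (Category.id_comp y) ▸ this

/-- Epimorphisms in the quotient. -/
def EpiP (P : ObjectProperty D) {A B : D} (x : A ⟶ B) : Prop :=
  ∀ (Y : D) (y : B ⟶ Y), Nq P (x ≫ y) → Nq P y

theorem EpiP.of_trW {x : A ⟶ B} (h : P.trW x) : EpiP P x := fun _ _ hy => Nq.cancel_pre h hy

theorem EpiP.of_iso (x : A ⟶ B) [IsIso x] : EpiP P x := EpiP.of_trW (P.trW_of_isIso x)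

omit [HasZeroObject D] [∀ n : ℤ, (shiftFunctor D n).Additive] [Pretriangulated D]
  [P.IsTriangulated] [HasShift D ℤ] [IsTriangulated D] [Preadditive D] in
theorem EpiP.comp {x : A ⟶ B} {x' : B ⟶ C} (h : EpiP P x) (h' : EpiP P x') : EpiP P (x ≫ x') :=
  fun _ y hy => h' _ y (h _ _ (by rwa [Category.assoc] at hy))

theorem EpiP.shift {x : A ⟶ B} (h : EpiP P x) (n : ℤ) : EpiP P (x⟦n⟧') := fun Y y hy => by
  let e := shiftFunctorCompIsoId D n (-n) (add_neg_cancel n)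
  have h1 : x ≫ (e.app B).inv ≫ y⟦-n⟧' = (e.app A).inv ≫ (x⟦n⟧' ≫ y)⟦-n⟧' := by
    rw [Functor.map_comp, ← Category.assoc, ← Category.assoc]
    exact congrArg (· ≫ y⟦-n⟧') (e.inv.naturality x)
  exact (Nq.cancel_pre (P.trW_of_isIso _) (h _ _ (h1 ▸ (hy.shift (-n)).pre _))).unshift

theorem EpiP.mor₃ {T : Triangle D} (hT : T ∈ distTriang D) (h : Nq P T.mor₁) : EpiP P T.mor₃ :=
  fun _ _ hy => Nq.of_mor₃ hT h hy

omit [HasZeroObject D] [∀ n : ℤ, (shiftFunctor D n).Additive] [Pretriangulated D]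
  [P.IsTriangulated] [HasShift D ℤ] [IsTriangulated D] [Preadditive D] in
theorem EpiP.prop [P.IsStableUnderRetracts] {x : A ⟶ B} (h : EpiP P x) (hx : Nq P x) : P B :=
  (h _ (𝟙 _) (hx.post _)).prop

end Tri

variable {C : Type 1} [Category.{0} C] [Abelian C] [HasDerivedCategory.{1} C]

/-- The object in degree zero. -/
noncomputable abbrev sg (C : Type 1) [Category.{0} C] [Abelian C] [HasDerivedCategory.{1} C] :
    C ⥤ DerivedCategory C := DerivedCategory.singleFunctor C 0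

/-- The map put in degree zero is zero in the quotient by `P`. -/
def Nq0 (P : ObjectProperty (DerivedCategory C)) {M N : C} (f : M ⟶ N) : Prop :=
  Nq P ((sg C).map f)

variable {P : ObjectProperty (DerivedCategory C)} {L M N : C}

theorem Nq0.pre (g : L ⟶ M) {f : M ⟶ N} (h : Nq0 P f) : Nq0 P (g ≫ f) := by
  rw [Nq0, Functor.map_comp]; exact Nq.pre _ h

theorem Nq0.post {f : L ⟶ M} (h : Nq0 P f) (g : M ⟶ N) : Nq0 P (f ≫ g) := by
  rw [Nq0, Functor.map_comp]; exact Nq.post h _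

theorem Nq0.of_src (h : InP P M) (f : M ⟶ N) : Nq0 P f := Nq.of_src (P := P) h _

theorem Nq0.of_tgt (h : InP P N) (f : M ⟶ N) : Nq0 P f := Nq.of_tgt (P := P) h _

theorem Nq0.inP [P.IsStableUnderRetracts] (h : Nq0 P (𝟙 M)) : InP P M := by
  rw [Nq0, CategoryTheory.Functor.map_id] at h; exact h.prop

variable [P.IsTriangulated]

theorem Nq0.zero (M N : C) : Nq0 P (0 : M ⟶ N) := Nq.of_eq_zero (Functor.map_zero _ _ _)

theorem Nq0.of_eq_zero {f : M ⟶ N} (h : f = 0) : Nq0 P f := h ▸ Nq0.zero M N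

theorem Nq0.add {f g : M ⟶ N} (hf : Nq0 P f) (hg : Nq0 P g) : Nq0 P (f + g) := by
  rw [Nq0, Functor.map_add]; exact Nq.add hf hg

omit [P.IsTriangulated] in
theorem Nq0.neg {f : M ⟶ N} (hf : Nq0 P f) : Nq0 P (-f) := by
  rw [Nq0, Functor.map_neg]; exact Nq.neg hf

theorem Nq0.sum {I : Type} (t : Finset I) {f : I → (M ⟶ N)} (h : ∀ i ∈ t, Nq0 P (f i)) :
    Nq0 P (∑ i ∈ t, f i) :=
  Finset.sum_induction _ (Nq0 P) (fun _ _ => Nq0.add) (Nq0.zero M N) h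

section
variable {S S' S'' : ShortComplex C} (hS : S.ShortExact) (hS' : S'.ShortExact)
  (hS'' : S''.ShortExact) (φ : S ⟶ S') (ψ : S' ⟶ S'')
include hS hS' hS''

theorem Nq0.ses₂ (h3 : Nq0 P φ.τ₃) (h1 : Nq0 P ψ.τ₁) : Nq0 P (φ.τ₂ ≫ ψ.τ₂) := by
  rw [Nq0, Functor.map_comp]
  exact Nq.tri₂ hS'.singleTriangle_distinguished
    (ShortComplex.ShortExact.singleTriangle.map hS hS' φ)
    (ShortComplex.ShortExact.singleTriangle.map hS' hS'' ψ) h3 h1

theorem Nq0.ses₃ (h1 : Nq0 P φ.τ₁) (h2 : Nq0 P ψ.τ₂) : Nq0 P (φ.τ₃ ≫ ψ.τ₃) := by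
  rw [Nq0, Functor.map_comp]
  exact Nq.tri₃ hS'.singleTriangle_distinguished
    (ShortComplex.ShortExact.singleTriangle.map hS hS' φ)
    (ShortComplex.ShortExact.singleTriangle.map hS' hS'' ψ) h1 h2

theorem Nq0.ses₁ (h2 : Nq0 P φ.τ₂) (h3 : Nq0 P ψ.τ₃) : Nq0 P (φ.τ₁ ≫ ψ.τ₁) := by
  rw [Nq0, Functor.map_comp]
  exact Nq.tri₁ hS'.singleTriangle_distinguished
    (ShortComplex.ShortExact.singleTriangle.map hS hS' φ)
    (ShortComplex.ShortExact.singleTriangle.map hS' hS'' ψ) h2 h3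

end

variable [P.IsStableUnderRetracts]

/-- A class `Q` in which every object has a monomorphism that is zero in the quotient, with cokernel
in `Q`, and on which high extension groups vanish, lies in `P`. -/
theorem InP.of_nul [HasExt.{1} C] (Q : C → Prop)
    (hQ : ∀ M, Q M → ∃ S : ShortComplex C, ∃ _ : S.X₁ ≅ M, S.ShortExact ∧ Nq0 P S.f ∧ Q S.X₃)
    (m : ℕ) (hv : ∀ M M', Q M → Q M' → Subsingleton (Ext M' M m)) (hM : Q M) : InP P M := by
  have key : ∀ r : ℕ, ∃ (M' : C) (x : Ext M' M r), Q M' ∧ EpiP P x.hom := fun r => by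
    induction r with
    | zero =>
      refine ⟨M, Ext.mk₀ (𝟙 _), hM, ?_⟩
      rw [Ext.mk₀_hom, ShiftedHom.mk₀]
      exact EpiP.of_iso _
    | succ r ih =>
      obtain ⟨M', x, hM', hx⟩ := ih
      obtain ⟨S, e, hS, hf, h3⟩ := hQ M' hM'
      refine ⟨S.X₃, hS.extClass.comp ((Ext.mk₀ e.hom).comp x (zero_add _)) (add_comm 1 r), h3, ?_⟩
      rw [Ext.comp_hom, ← Ext.singleFunctor_map_comp_hom, hS.extClass_hom, ShiftedHom.comp]
      exact (EpiP.mor₃ hS.singleTriangle_distinguished hf).comp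
        ((((EpiP.of_iso _).comp hx).shift _).comp (EpiP.of_iso _))
  obtain ⟨M', x, hM', hx⟩ := key m
  have := hv M M' hM hM'
  have h := hx.prop (Nq.of_eq_zero (by rw [Subsingleton.elim x 0, Ext.zero_hom]))
  have h2 : Nq P ((𝟙 ((sg C).obj M))⟦(m : ℤ)⟧') := Nq.of_tgt h _
  exact h2.unshift.prop

theorem InP.bounded' (h : ∀ N : C, InP P N) (Y : DerivedCategory C)
    (hY : DerivedCategory.TStructure.t.bounded Y) : P Y := by
  obtain ⟨⟨a, ha⟩, b, hb⟩ := hY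
  exact InP.bounded h Y ⟨a, b, ha, hb⟩

end Pool.Agent.Lib.MP_d3d358_ag.Bkr
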