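import Pool.Agent.Lib.MP_d3d358_ag.Bkr.B4
import Pool.Agent.Lib.MP_d3d358_ag.Bkr.Lat

/-! From three lattices to all charts: maps, exactness, complexes. -/

set_option autoImplicit false

open CategoryTheory

namespace Pool.Agent.Lib.MP_d3d358_ag.Bkr

open Pool.Agent.Lib.MP_cd184e_ag.T Pool.Agent.Lib.MP_cd184e_ag.T.Coh
open Pool.Agent.Lib.MP_d3d358_ag.K Pool.Agent.Lib.MP_d3d358_ag.K.Cy

variable {k K : Type} [Field k] [Field K] [Algebra k K] {X : ProjVar k K}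

section Gen

variable {V V' V'' : Type} [AddCommGroup V] [Module K V] [AddCommGroup V'] [Module K V']
  [AddCommGroup V''] [Module K V''] {S : Submonoid (Fm X)} {G N M : Coh X}

theorem RLin.of_lin (ψ : V →ₗ[K] V') : RLin X ψ.toAddMonoidHom := fun c _ v => ψ.map_smul c v

theorem Emb.mem_Loc_tw_scale (E : Emb N V) (a : Cy X) {r c : K} (hr : r ≠ 0) (hc : c ≠ 0)
    (T : Submonoid (Fm X)) {v : V} :
    v ∈ (E.tw a (r * c) (mul_ne_zero hr hc)).Loc T ↔ c • v ∈ (E.tw a r hr).Loc T := by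
  refine exists_congr fun ρ => and_congr_right fun _ => forall_congr' fun s => exists_congr fun x => ?_
  rw [Emb.tw_e, Emb.tw_e, smul_comm _ c, ← div_div, div_eq_inv_mul (_ / r), mul_smul,
    inv_smul_eq_iff₀ hc]

theorem Emb.Loc_tw_one (E : Emb N V) (T : Submonoid (Fm X)) :
    (E.tw 1 1 one_ne_zero).Loc T = E.Loc T := by
  ext v
  refine exists_congr fun ρ => and_congr_right fun _ => forall_congr' fun s => exists_congr fun x => ?_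
  rw [Emb.tw_e, one_fp, div_one, one_smul]

theorem Emb.Loc_tw_congr (E : Emb N V) {a b : Cy X} {r r' : K} (hr : r ≠ 0) (hr' : r' ≠ 0)
    (e : a = b) (e' : r = r') (T : Submonoid (Fm X)) : (E.tw a r hr).Loc T = (E.tw b r' hr').Loc T := by
  subst e e'; rfl

theorem Emb.Loc_tw_self (E : Emb N V) {T : Submonoid (Fm X)} {ρ : Fm X} (hT : ρ ∈ T)
    (hρ : ρ.r ≠ 0) : (E.tw ρ.d ρ.r hρ).Loc T = E.Loc T := by
  rw [← E.Loc_tw_one, ← E.Loc_tw_mul 1 one_ne_zero hT hρ]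
  exact E.Loc_tw_congr _ _ (one_mul _).symm (one_mul _).symm T

/-- The form `u` is `σ α` for a generator `α` of the bundle `L`. -/
def Cut (S : Submonoid (Fm X)) (L : Cy X) (u : Fm X) (α : K) : Prop :=
  ∃ σ ∈ S, u.r = α * σ.r ∧ u.d = L * σ.d

theorem Cut.ne {L : Cy X} {u : Fm X} {α : K} (h : Cut S L u α) (hu : u.r ≠ 0) : α ≠ 0 := by
  obtain ⟨σ, -, e, -⟩ := h
  exact left_ne_zero_of_mul (e ▸ hu)

theorem Cut.mem_mul {L : Cy X} {u : Fm X} {α : K} (h : Cut S L u α) (hu : u.r ≠ 0) (E : Emb N V)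
    (a : Cy X) {v : V} : α • v ∈ (E.tw (a * L) 1 one_ne_zero).Lat S u ↔
      v ∈ (E.tw a 1 one_ne_zero).Lat S u := by
  have hα := h.ne hu
  obtain ⟨σ, hσ, e, e'⟩ := h
  have h0 : σ.r ≠ 0 := right_ne_zero_of_mul (e ▸ hu)
  rw [← E.mem_Loc_tw_scale _ one_ne_zero hα, Emb.Lat, ← E.Loc_tw_mul a _ (self_mem_Su S u) hu,
    ← E.Loc_tw_mul (a * L) _ (mem_Su hσ u) h0,
    E.Loc_tw_congr _ _ (show a * L * σ.d = a * u.d by rw [e', mul_assoc])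
      (show 1 * α * σ.r = 1 * u.r by rw [e, mul_assoc])]

theorem Cut.mem_inv {L : Cy X} {u : Fm X} {α : K} (h : Cut S L u α) (hu : u.r ≠ 0) (E : Emb N V)
    {v : V} : v ∈ (E.tw L⁻¹ 1 one_ne_zero).Lat S u ↔ α • v ∈ E.Lat S u := by
  rw [← h.mem_mul hu, Emb.Lat, E.Loc_tw_congr _ one_ne_zero (inv_mul_cancel L) rfl, E.Loc_tw_one]

theorem Cut.mem_tw {L : Cy X} {u : Fm X} {α : K} (h : Cut S L u α) (hu : u.r ≠ 0) (E : Emb N V)
    {v : V} : v ∈ (E.tw L 1 one_ne_zero).Lat S u ↔ α⁻¹ • v ∈ E.Lat S u := by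
  have := h.mem_mul hu E 1 (v := α⁻¹ • v)
  rwa [smul_inv_smul₀ (h.ne hu), Emb.Lat, Emb.Lat, E.Loc_tw_one,
    E.Loc_tw_congr _ one_ne_zero (one_mul L) rfl] at this

/-- Three forms that cut out three charts of the fibre over the point. -/
structure Tr3 (S : Submonoid (Fm X)) (u : Fin 3 → Fm X) : Prop where
  nz : NZ S
  ne : ∀ ν, (u ν).r ≠ 0
  big : ∀ ν, ∃ τ ∈ S, (u ν).d = O1 X * τ.d
  null : ∀ t : ℕ, ∃ σ ∈ S, ∀ s : X.Idx,
    σ.sec s ∈ Ideal.span {(u 0).sec s ^ t, (u 1).sec s ^ t, (u 2).sec s ^ t}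

/-- The sections that are related to a section of `G` after multiplication by `c`. -/
def relSub (E : Emb G V) (E' : Emb N V') (Γ : Submodule (Rat X) (V × V')) (s : X.Idx)
    (c : X.A s.1) : Submodule (X.A s.1) (N.obj s) where
  carrier := {y | ∃ x : G.obj s, (E.e s x, (c : K) • E'.e s y) ∈ Γ}
  zero_mem' := ⟨0, by rw [map_zero, map_zero, smul_zero]; exact Γ.zero_mem⟩
  add_mem' := fun ⟨x, h⟩ ⟨x', h'⟩ => ⟨x + x', by
    rw [map_add, map_add, smul_add]; exact Γ.add_mem h h'⟩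
  smul_mem' a y := fun ⟨x, h⟩ => ⟨a • x, by
    rw [E.smul, E'.smul, smul_comm]; exact Γ.smul_mem ⟨a, coe_mem_Rat a⟩ h⟩

theorem relSub_mul {E : Emb G V} {E' : Emb N V'} {Γ : Submodule (Rat X) (V × V')} {s : X.Idx}
    {c : X.A s.1} (d : X.A s.1) {y : N.obj s} (h : y ∈ relSub E E' Γ s c) :
    y ∈ relSub E E' Γ s (d * c) := by
  obtain ⟨x, h⟩ := h
  exact ⟨d • x, by
    rw [E.smul, MulMemClass.coe_mul, mul_smul]; exact Γ.smul_mem ⟨d, coe_mem_Rat d⟩ h⟩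

theorem relSub_add {E : Emb G V} {E' : Emb N V'} {Γ : Submodule (Rat X) (V × V')} {s : X.Idx}
    {c d : X.A s.1} {y : N.obj s} (h : y ∈ relSub E E' Γ s c) (h' : y ∈ relSub E E' Γ s d) :
    y ∈ relSub E E' Γ s (c + d) := by
  obtain ⟨x, h⟩ := h
  obtain ⟨x', h'⟩ := h'
  exact ⟨x + x', by rw [map_add, AddMemClass.coe_add, add_smul]; exact Γ.add_mem h h'⟩

theorem relSub_unit {E : Emb G V} {E' : Emb N V'} {Γ : Submodule (Rat X) (V × V')} {s : X.Idx}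
    {c d : X.A s.1} (hd : IsUnit d) {y : N.obj s} (h : y ∈ relSub E E' Γ s (d * c)) :
    y ∈ relSub E E' Γ s c := by
  obtain ⟨e, he⟩ := hd.exists_left_inv
  have := relSub_mul e h
  rwa [← mul_assoc, he, one_mul] at this

/-- The sections that lie in a subspace over the function field. -/
def subSec (E' : Emb N V') (Z : Submodule (Rat X) V') (s : X.Idx) :
    Submodule (X.A s.1) (N.obj s) where
  carrier := {y | E'.e s y ∈ Z}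
  zero_mem' := by simp
  add_mem' h h' := by rw [Set.mem_ofPred_eq, map_add]; exact Z.add_mem h h'
  smul_mem' a y h := by rw [Set.mem_ofPred_eq, E'.smul]; exact Z.smul_mem ⟨a, coe_mem_Rat a⟩ h

theorem rel_one (E : Emb G V) (E' : Emb N V') (Γ : Submodule (Rat X) (V × V'))
    (Z : Submodule (Rat X) V') {u : Fm X} (hu : u.r ≠ 0) (hb : ∃ τ ∈ S, u.d = O1 X * τ.d)
    (h : ∀ v ∈ E'.Lat S u, v ∈ Z → ∃ x ∈ E.Lat S u, (x, v) ∈ Γ) :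
    ∃ ρ ∈ Su S u, ∀ s, ∀ y ∈ subSec E' Z s, y ∈ relSub E E' Γ s (ρ.sec s) := by
  obtain ⟨τ, hτ, hd⟩ := hb
  suffices key : ∀ s (y : subSec E' Z s), ∃ ρ ∈ Su S u, y.1 ∈ relSub E E' Γ s (ρ.sec s) by
    obtain ⟨ρ, hρ, H⟩ := unif (Su S u) (fun s => subSec E' Z s)
      (fun s ρ => (relSub E E' Γ s (ρ.sec s)).comap (subSec E' Z s).subtype)
      (fun s ρ ρ' y hy => by
        rw [Submodule.mem_comap, Fm.mul_sec, mul_comm]; exact relSub_mul _ hy) key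
    exact ⟨ρ, hρ, fun s y hy => H s ⟨y, hy⟩⟩
  intro s y
  obtain ⟨a, ha, hv⟩ := E'.exists_den (X.one_le (X.pt_mem s)) (E'.e_mem s y.1)
  obtain ⟨m, hm⟩ := E'.exists_co_pow (X.pt s) hv
  have e : ∀ s', (u.sec s' : K) * (X.fp s * τ.r / u.r) = τ.sec s' * X.co (X.pt s).1 s' := fun s' => by
    have := X.fp_ne s'
    have := τ.d.fp_ne s'
    rw [Fm.coe_sec, Fm.coe_sec, hd, mul_fp, O1_fp, ProjVar.coe_co]
    change _ = _ * (X.fp s / _)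
    field_simp
  have hφ : X.fp s * τ.r / u.r ∈ Rat X := by
    rw [eq_div_of_mul_eq (Fm.sec_ne hu s) ((mul_comm _ _).trans (e s))]
    exact div_mem (mul_mem (coe_mem_Rat _) (coe_mem_Rat _)) (coe_mem_Rat _)
  obtain ⟨x, ⟨ρ, hρ, hx⟩, hΓ⟩ := h ((X.fp s * τ.r / u.r) ^ m • (a : K) • E'.e s y.1)
    ⟨u ^ m, pow_mem (self_mem_Su S u) m, fun s' => by
      rw [Fm.pow_sec, SubmonoidClass.coe_pow, ← mul_smul, ← mul_pow, e, mul_pow, mul_smul]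
      exact Emb.smul_mem (pow_mem (τ.sec s').2 m) (hm s')⟩
    (Z.smul_mem ⟨_, pow_mem hφ m⟩ (Z.smul_mem ⟨_, coe_mem_Rat a⟩ y.2))
  obtain ⟨x', hx'⟩ := hx s
  refine ⟨ρ * τ ^ m, mul_mem hρ (pow_mem (mem_Su hτ u) m), relSub_unit ha ⟨u.sec s ^ m • x', ?_⟩⟩
  have := Γ.smul_mem ⟨_, mul_mem (pow_mem (coe_mem_Rat (u.sec s)) m) (coe_mem_Rat (ρ.sec s))⟩ hΓ
  convert this using 1
  refine Prod.ext ?_ ?_
  · change E.e s _ = ((u.sec s : K) ^ m * ρ.sec s) • x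
    rw [E.smul, hx', mul_smul, SubmonoidClass.coe_pow]
  · change _ • E'.e s y.1 = ((u.sec s : K) ^ m * ρ.sec s) • (X.fp s * τ.r / u.r) ^ m • (a : K) • _
    rw [← mul_smul, ← mul_smul, mul_right_comm _ (ρ.sec s : K), ← mul_pow, e, ProjVar.co_pt]
    congr 1
    simp only [MulMemClass.coe_mul, ProjVar.coe_inc, Fm.mul_sec, Fm.pow_sec,
      SubmonoidClass.coe_pow, OneMemClass.coe_one]
    ring

variable {u : Fin 3 → Fm X}

/-- A relation that can be solved on the three lattices can be solved on all charts up to `S`. -/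
theorem Tr3.rel (T : Tr3 S u) (E : Emb G V) (E' : Emb N V') (Γ : Submodule (Rat X) (V × V'))
    (Z : Submodule (Rat X) V')
    (h : ∀ ν, ∀ v ∈ E'.Lat S (u ν), v ∈ Z → ∃ x ∈ E.Lat S (u ν), (x, v) ∈ Γ) :
    ∃ σ ∈ S, ∀ s (y : N.obj s), E'.e s y ∈ Z →
      ∃ x : G.obj s, (E.e s x, (σ.sec s : K) • E'.e s y) ∈ Γ := by
  choose ρ hρ H using fun ν => rel_one E E' Γ Z (T.ne ν) (T.big ν) (h ν)
  choose σ hσ t e using hρ
  obtain ⟨σ', hσ', hn⟩ := T.null (t 0 + t 1 + t 2)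
  refine ⟨σ' * (σ 0 * σ 1 * σ 2), mul_mem hσ' (mul_mem (mul_mem (hσ 0) (hσ 1)) (hσ 2)),
    fun s y hy => ?_⟩
  obtain ⟨p, z, hz, e0⟩ := Ideal.mem_span_insert.1 (hn s)
  obtain ⟨q, r, rfl⟩ := Ideal.mem_span_pair.1 hz
  have := relSub_add (relSub_add
    (relSub_mul (p * (u 0).sec s ^ (t 1 + t 2) * (σ 1).sec s * (σ 2).sec s) (H 0 s y hy))
    (relSub_mul (q * (u 1).sec s ^ (t 0 + t 2) * (σ 0).sec s * (σ 2).sec s) (H 1 s y hy)))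
    (relSub_mul (r * (u 2).sec s ^ (t 0 + t 1) * (σ 0).sec s * (σ 1).sec s) (H 2 s y hy))
  change y ∈ relSub E E' Γ s _
  convert this using 2
  simp only [e, Fm.mul_sec, Fm.pow_sec, e0]
  ring

/-- A map that keeps the three lattices is a map of sheaves into a twist with the same lattices. -/
theorem Tr3.ext (T : Tr3 S u) (E : Emb G V) (E' : Emb N V') (ψ : V →ₗ[Rat X] V')
    (h : ∀ ν, ∀ v ∈ E.Lat S (u ν), ψ v ∈ E'.Lat S (u ν)) :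
    ∃ σ ∈ S, ∃ (E'' : Emb ((twc σ.d).obj N) V') (n : G ⟶ (twc σ.d).obj N),
      (∀ ν, E''.Lat S (u ν) = E'.Lat S (u ν)) ∧ ∀ s x, E''.e s (n.app s x) = ψ (E.e s x) := by
  obtain ⟨σ, hσ, H⟩ := T.rel E' E (ψ.graph.comap (LinearEquiv.prodComm _ _ _).toLinearMap) ⊤
    fun ν v hv _ => ⟨ψ v, h ν v hv, rfl⟩
  have h0 := T.nz σ hσ
  obtain ⟨n, hn⟩ := Emb.exists_hom E (E'.tw σ.d σ.r h0) (ψ := ψ.toAddMonoidHom)
    (fun c hc v => ψ.map_smul ⟨c, hc⟩ v) fun s x => by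
      obtain ⟨y, hy⟩ := H s x trivial
      have hy' : E'.e s y = (σ.sec s : K) • ψ (E.e s x) :=
        Eq.trans hy (ψ.map_smul ⟨_, coe_mem_Rat (σ.sec s)⟩ _)
      refine ⟨y, ?_⟩
      have := σ.d.fp_ne s
      rw [Emb.tw_e, hy', ← mul_smul, Fm.coe_sec, show σ.d.fp s / σ.r * (σ.r / σ.d.fp s) = 1 by
        field_simp, one_smul]
      rfl
  exact ⟨σ, hσ, _, n, fun ν => E'.Loc_tw_self (mem_Su hσ _) h0, hn⟩

theorem Tr3.almEx (T : Tr3 S u) {E : Emb G V} {E' : Emb N V'} {E'' : Emb M V''}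
    {ψ : V →ₗ[Rat X] V'} {ψ' : V' →ₗ[Rat X] V''} {n : G ⟶ N} {n' : N ⟶ M}
    (hn : ∀ s x, E'.e s (n.app s x) = ψ (E.e s x)) (hn' : ∀ s x, E''.e s (n'.app s x) = ψ' (E'.e s x))
    (h : ∀ ν, ∀ v ∈ E'.Lat S (u ν), ψ' v = 0 → ∃ x ∈ E.Lat S (u ν), ψ x = v) : AlmEx S n n' := by
  obtain ⟨σ, hσ, H⟩ := T.rel E E' ψ.graph (LinearMap.ker ψ')
    fun ν v hv h0 => (h ν v hv h0).imp fun x hx => ⟨hx.1, hx.2.symm⟩
  refine ⟨σ, hσ, fun s y hy => (H s y ?_).imp fun x hx => E'.inj s ?_⟩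
  · rw [LinearMap.mem_ker, ← hn', hy, map_zero]
  · rw [hn, E'.smul]; exact Eq.symm hx

theorem Tr3.almSurj (T : Tr3 S u) {E : Emb G V} {E' : Emb N V'} {ψ : V →ₗ[Rat X] V'} {n : G ⟶ N}
    (hn : ∀ s x, E'.e s (n.app s x) = ψ (E.e s x))
    (h : ∀ ν, ∀ v ∈ E'.Lat S (u ν), ∃ x ∈ E.Lat S (u ν), ψ x = v) : AlmSurj S n := by
  obtain ⟨σ, hσ, H⟩ := T.rel E E' ψ.graph ⊤
    fun ν v hv _ => (h ν v hv).imp fun x hx => ⟨hx.1, hx.2.symm⟩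
  refine ⟨σ, hσ, fun s y => (H s y trivial).imp fun x hx => E'.inj s ?_⟩
  rw [hn, E'.smul]; exact Eq.symm hx

/-- A complex of generic fibres that is exact on the three lattices. -/
theorem Tr3.four (T : Tr3 S u) {V₃ : Type} [AddCommGroup V₃] [Module K V₃] {A B C H : Coh X}
    (EA : Emb A V) (EB : Emb B V') (EC : Emb C V'') (EH : Emb H V₃) (f : V →ₗ[Rat X] V')
    (g : V' →ₗ[Rat X] V'') (h : V'' →ₗ[Rat X] V₃)
    (kf : ∀ ν, ∀ v ∈ EA.Lat S (u ν), f v ∈ EB.Lat S (u ν))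
    (kg : ∀ ν, ∀ v ∈ EB.Lat S (u ν), g v ∈ EC.Lat S (u ν))
    (kh : ∀ ν, ∀ v ∈ EC.Lat S (u ν), h v ∈ EH.Lat S (u ν))
    (w : ∀ v, g (f v) = 0) (w' : ∀ v, h (g v) = 0) (e0 : ∀ v, f v = 0 → v = 0)
    (e1 : ∀ ν, ∀ v ∈ EB.Lat S (u ν), g v = 0 → ∃ x ∈ EA.Lat S (u ν), f x = v)
    (e2 : ∀ ν, ∀ v ∈ EC.Lat S (u ν), h v = 0 → ∃ x ∈ EB.Lat S (u ν), g x = v)
    (e3 : ∀ ν, ∀ v ∈ EH.Lat S (u ν), ∃ x ∈ EC.Lat S (u ν), h x = v) :
    ∃ σ₁ ∈ S, ∃ σ₂ ∈ S, ∃ σ₃ ∈ S,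
      Four S A ((twc σ₁.d).obj B) ((twc σ₂.d).obj C) ((twc σ₃.d).obj H) := by
  obtain ⟨σ₁, h₁, EB', n₁, l₁, m₁⟩ := T.ext EA EB f kf
  obtain ⟨σ₂, h₂, EC', n₂, l₂, m₂⟩ := T.ext EB' EC g fun ν => l₁ ν ▸ kg ν
  obtain ⟨σ₃, h₃, EH', n₃, l₃, m₃⟩ := T.ext EC' EH h fun ν => l₂ ν ▸ kh ν
  refine ⟨σ₁, h₁, σ₂, h₂, σ₃, h₃, n₁, n₂, n₃, hom_ext fun s x => EC'.inj s ?_,
    hom_ext fun s x => EH'.inj s ?_, ⟨1, one_mem _, fun s x hx => EA.inj s ?_⟩,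
    T.almEx m₁ m₂ fun ν => l₁ ν ▸ e1 ν, T.almEx m₂ m₃ fun ν => l₁ ν ▸ l₂ ν ▸ e2 ν,
    T.almSurj m₃ fun ν => l₂ ν ▸ l₃ ν ▸ e3 ν⟩
  · rw [comp_app, m₂, m₁, w, zero_app, map_zero]
  · rw [comp_app, m₃, m₂, w', zero_app, map_zero]
  · rw [Fm.one_sec, one_smul, map_zero]
    exact e0 _ (by rw [← m₁, hx, map_zero])

end Gen

end Pool.Agent.Lib.MP_d3d358_ag.Bkr
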