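import Pool.Agent.Lib.MP_d3d358_ag.Bkr.B2
import Pool.Agent.Lib.MP_d3d358_ag.Bkr.B4

/-! Three forms without common zero near a point; from pointwise killers to a power. -/

set_option autoImplicit false

open CategoryTheory Limits Abelian

namespace Pool.Agent.Lib.MP_d3d358_ag.Bkr

open Pool.Agent.Lib.MP_cd184e_ag.T Pool.Agent.Lib.MP_cd184e_ag.T.Coh
open Pool.Agent.Lib.MP_d3d358_ag.K Pool.Agent.Lib.MP_d3d358_ag.K.Cy

theorem pow_mem_span_three {A : Type} [CommRing A] {a b c x : A} (h : x ∈ Ideal.span {a, b, c})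
    (t : ℕ) : x ^ (3 * t) ∈ Ideal.span {a ^ t, b ^ t, c ^ t} := by
  obtain ⟨p, y, hy, rfl⟩ := Ideal.mem_span_insert.1 h
  obtain ⟨q, r, rfl⟩ := Ideal.mem_span_pair.1 hy
  have h1 : (p * a) ^ t ∈ Ideal.span {a ^ t, b ^ t, c ^ t} := by
    rw [mul_pow]; exact Ideal.mul_mem_left _ _ (Ideal.subset_span (by simp))
  have h2 : (q * b) ^ t ∈ Ideal.span {a ^ t, b ^ t, c ^ t} := by
    rw [mul_pow]; exact Ideal.mul_mem_left _ _ (Ideal.subset_span (by simp))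
  have h3 : (r * c) ^ t ∈ Ideal.span {a ^ t, b ^ t, c ^ t} := by
    rw [mul_pow]; exact Ideal.mul_mem_left _ _ (Ideal.subset_span (by simp))
  have h4 := Ideal.add_pow_mem_of_pow_mem_of_le _ h2 h3 (k := 2 * t) (by omega)
  exact Ideal.add_pow_mem_of_pow_mem_of_le _ h1 h4 (by omega)

variable {k K : Type} [Field k] [Field K] [Algebra k K] {X : ProjVar k K}
  {S : Submonoid (Fm X)} {G N : Coh X}

theorem Fm.inc_sec_one (σ : Fm X) (s : X.Idx) :
    X.inc (X.one_le (X.pt_mem s)) (σ.sec (X.one (X.pt s))) = σ.sec s :=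
  Subtype.ext (by rw [ProjVar.coe_inc, Fm.coe_sec, Fm.coe_sec, fp_one]; rfl)

/-- It is enough to have one form on each of the big charts. -/
theorem null_of_one {u0 u1 u2 : Fm X} (h : ∀ j : X.J, ∃ σ ∈ S, σ.sec (X.one j) ∈
      Ideal.span {u0.sec (X.one j), u1.sec (X.one j), u2.sec (X.one j)}) (t : ℕ) :
    ∃ σ ∈ S, ∀ s : X.Idx, σ.sec s ∈ Ideal.span {u0.sec s ^ t, u1.sec s ^ t, u2.sec s ^ t} := by
  classical
  choose σ hσ hm using h
  refine ⟨(∏ j, σ j) ^ (3 * t), pow_mem (prod_mem fun j _ => hσ j) _, fun s => ?_⟩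
  rw [Fm.pow_sec]
  refine pow_mem_span_three ?_ t
  rw [← Finset.mul_prod_erase _ _ (Finset.mem_univ (X.pt s)), Fm.mul_sec]
  refine Ideal.mul_mem_right _ _ ?_
  have := Ideal.mem_map_of_mem (X.inc (X.one_le (X.pt_mem s))) (hm (X.pt s))
  rwa [Ideal.map_span, Set.image_insert_eq, Set.image_pair, Fm.inc_sec_one, Fm.inc_sec_one,
    Fm.inc_sec_one, Fm.inc_sec_one] at this

theorem ac_eq_zero_iff {i : ℕ} {a : Cy X} (x : Ext G ((twc a).obj N) i) (σ : Fm X) :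
    σ.ac x = 0 ↔ σ.r ∈ killers x (a * σ.d) :=
  ⟨fun h => ⟨_, h⟩, fun ⟨_, h⟩ => h⟩

theorem isIdl_ac {i : ℕ} {a : Cy X} (x : Ext G ((twc a).obj N) i) :
    IsIdl fun σ : Fm X => σ.ac x = 0 where
  mul σ τ h := (ac_eq_zero_iff x _).2
    (mul_mem_killers ((ac_eq_zero_iff x _).1 h) (τ.regAt (mul_assoc _ _ _).symm))
  add σ τ ρ hσ hτ e1 e2 e3 := by
    rw [ac_eq_zero_iff] at hσ hτ ⊢
    rw [e3]
    exact add_mem (e1 ▸ hσ) (e2 ▸ hτ)
  zero ρ h := by
    rw [ac_eq_zero_iff, h]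
    exact zero_mem _

/-- A class that is killed near every point is killed by a power of each `y i`. -/
theorem NS.pow_ac {Wd I : Type} {S : Wd → Submonoid (Fm X)} {y : I → Fm X} (hN : NS S y)
    {i : ℕ} {a : Cy X} (x : Ext G ((twc a).obj N) i) (h : ∀ w, Nul (S w) x) (j : I) :
    ∃ s : ℕ, (y j ^ s).ac x = 0 := hN _ (isIdl_ac x) h j

end Pool.Agent.Lib.MP_d3d358_ag.Bkr
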