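import Pool.Agent.Lib.MP_d3d358_ag.Bkr.Lat
import Pool.Agent.Lib.MP_d3d358_ag.K.Lat

/-! Lattices of the sheaves `lat Y g`: general facts. -/

set_option autoImplicit false

open CategoryTheory

namespace Pool.Agent.Lib.MP_d3d358_ag.Bkr

open Pool.Agent.Lib.MP_cd184e_ag.T Pool.Agent.Lib.MP_cd184e_ag.T.Coh
open Pool.Agent.Lib.MP_d3d358_ag.K Pool.Agent.Lib.MP_d3d358_ag.K.Cy

variable {k K : Type} [Field k] [Field K] [Algebra k K] {X : ProjVar k K}

/-- The functions that become regular after multiplication by a form of `T`. -/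
def locA (T : Submonoid (Fm X)) : Subalgebra k K where
  carrier := (Emb.unit X).Loc T
  mul_mem' ha hb := Emb.smul_mem_Loc ha hb
  add_mem' ha hb := add_mem ha hb
  algebraMap_mem' r := ⟨1, one_mem _, fun s => Emb.mem_unit.2 (by
    rw [Fm.one_sec, OneMemClass.coe_one, one_smul]; exact (X.A s.1).algebraMap_mem r)⟩

theorem mem_locA {T : Submonoid (Fm X)} {c : K} :
    c ∈ locA T ↔ ∃ ρ ∈ T, ∀ s, (ρ.sec s : K) * c ∈ X.A s.1 :=
  exists_congr fun _ => and_congr_right fun _ => forall_congr' fun _ => Emb.mem_unit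

theorem mem_locA_iff {T : Submonoid (Fm X)} {c : K} : c ∈ locA T ↔ c ∈ (Emb.unit X).Loc T := Iff.rfl

theorem locA_mono {T T' : Submonoid (Fm X)} (h : T ≤ T') : locA T ≤ locA T' :=
  fun _ hc => (Emb.unit X).Loc_mono h hc

theorem mul_mem_Loc {N : Coh X} (E : Emb N K) {T : Submonoid (Fm X)} {D : Subalgebra k K}
    (hD : D ≤ locA T) {Z : Submodule k K} (hZ : ∀ z ∈ Z, z ∈ E.Loc T) {v : K}
    (hv : v ∈ D.toSubmodule * Z) : v ∈ E.Loc T :=
  Submodule.mul_induction_on hv (fun _ ha z hz => Emb.smul_mem_Loc (hD ha) (hZ z hz))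
    fun _ _ => add_mem

/-- A family of functions on the charts that is a quotient of two forms of `T`. -/
def TU (T : Submonoid (Fm X)) (c : X.Idx → K) : Prop :=
  ∃ ρ ∈ T, ∃ ρ' ∈ T, ∀ s, (ρ.sec s : K) * c s = ρ'.sec s

variable {T : Submonoid (Fm X)} {c c' : X.Idx → K}

theorem TU.sec {ρ : Fm X} (h : ρ ∈ T) : TU T fun s => ρ.sec s :=
  ⟨1, one_mem _, ρ, h, fun s => by simp⟩

theorem TU.mul (h : TU T c) (h' : TU T c') : TU T fun s => c s * c' s := by
  obtain ⟨a, ha, b, hb, e⟩ := h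
  obtain ⟨a', ha', b', hb', e'⟩ := h'
  refine ⟨a * a', mul_mem ha ha', b * b', mul_mem hb hb', fun s => ?_⟩
  rw [Fm.mul_sec, Fm.mul_sec, MulMemClass.coe_mul, MulMemClass.coe_mul, mul_mul_mul_comm, e, e']

theorem TU.inv (hT : NZ T) (h : TU T c) : TU T fun s => (c s)⁻¹ := by
  obtain ⟨a, ha, b, hb, e⟩ := h
  refine ⟨b, hb, a, ha, fun s => ?_⟩
  have h0 := Fm.sec_ne (hT b hb) s
  rw [← e] at h0 ⊢
  rw [mul_assoc, mul_inv_cancel₀ (right_ne_zero_of_mul h0), mul_one]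

theorem TU.pow (h : TU T c) (m : ℕ) : TU T fun s => c s ^ m := by
  induction m with
  | zero => simpa using TU.sec (one_mem T)
  | succ m ih => simpa only [pow_succ] using ih.mul h

theorem TU.zpow (hT : NZ T) (h : TU T c) (m : ℤ) : TU T fun s => c s ^ m := by
  obtain ⟨m, rfl | rfl⟩ := Int.eq_nat_or_neg m
  · simpa only [zpow_natCast] using h.pow m
  · simpa only [zpow_neg, zpow_natCast] using (h.pow m).inv hT

/-- `D[1 / c]` -/
def Fr (D : Subalgebra k K) (c : D) : Subalgebra k K where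
  carrier := {x | ∃ N : ℕ, (c : K) ^ N * x ∈ D}
  mul_mem' := fun {x y} ⟨N, hx⟩ ⟨M, hy⟩ => ⟨N + M, by
    rw [pow_add, mul_mul_mul_comm]; exact mul_mem hx hy⟩
  add_mem' := fun {x y} ⟨N, hx⟩ ⟨M, hy⟩ => ⟨N + M, by
    rw [show (c : K) ^ (N + M) * (x + y) = c ^ M * (c ^ N * x) + c ^ N * (c ^ M * y) by ring]
    exact add_mem (mul_mem (pow_mem c.2 _) hx) (mul_mem (pow_mem c.2 _) hy)⟩
  algebraMap_mem' r := ⟨0, by rw [pow_zero, one_mul]; exact D.algebraMap_mem r⟩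

theorem le_Fr (D : Subalgebra k K) (c : D) : D ≤ Fr D c := fun _ hx => ⟨0, by simpa using hx⟩

theorem inv_mem_Fr {D : Subalgebra k K} {c : D} {x y : K} (hy : y ∈ D) (h0 : x ≠ 0)
    (e : (c : K) = x * y) : x⁻¹ ∈ Fr D c :=
  ⟨1, by rwa [pow_one, e, mul_right_comm, mul_inv_cancel₀ h0, one_mul]⟩

theorem zpow_mem_of_inv {D : Subalgebra k K} {x : K} (h : x ∈ D) (h' : x⁻¹ ∈ D) (m : ℤ) :
    x ^ m ∈ D := by
  obtain ⟨m, rfl | rfl⟩ := Int.eq_nat_or_neg m
  · rw [zpow_natCast]; exact pow_mem h m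
  · rw [zpow_neg, zpow_natCast, ← inv_pow]; exact pow_mem h' m

theorem exists_pow_of_Fr {D : Subalgebra k K} {c : D} {Y : Submodule k K} {z : K}
    (hz : z ∈ (Fr D c).toSubmodule * Y) : ∃ N : ℕ, (c : K) ^ N * z ∈ D.toSubmodule * Y := by
  refine Submodule.mul_induction_on hz ?_ ?_
  · rintro a ⟨N, ha⟩ y hy
    exact ⟨N, by rw [← mul_assoc]; exact Submodule.mul_mem_mul ha hy⟩
  · rintro x y ⟨N, hx⟩ ⟨M, hy⟩
    refine ⟨N + M, ?_⟩
    rw [show (c : K) ^ (N + M) * (x + y) = c ^ M * (c ^ N * x) + c ^ N * (c ^ M * y) by ring]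
    exact add_mem (mul_mem_self (pow_mem c.2 _) hx) (mul_mem_self (pow_mem c.2 _) hy)

variable {D : Subalgebra k K} {e : K}

theorem A_le_Fr (he : e ≠ 0) (h : ∀ l, X.f l / e ∈ D) (j : X.J) :
    X.A {j.1} ≤ Fr D ⟨_, h j.1⟩ := Algebra.adjoin_le (by
  rintro _ ⟨l, i, hi, rfl⟩
  obtain rfl := Finset.mem_singleton.1 hi
  have := X.ne _ j.2
  exact ⟨1, by
    rw [pow_one, show X.f j.1 / e * (X.f l / X.f j.1) = X.f l / e by field_simp]; exact h l⟩)

theorem Rd_div_mem (h : ∀ l, X.f l / e ∈ D) (m : ℕ) {r : K} (hr : r ∈ X.Rd m) : r / e ^ m ∈ D := by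
  rw [ProjVar.Rd] at hr
  induction hr using Submodule.pow_induction_on_left' with
  | algebraMap r => rw [pow_zero, div_one]; exact D.algebraMap_mem r
  | add x y i _ _ hx hy => rw [add_div]; exact add_mem hx hy
  | mem_mul u hu i x _ hx =>
    rw [pow_succ', ← div_mul_div_comm]
    refine mul_mem ?_ hx
    induction hu using Submodule.span_induction with
    | mem y hy => obtain ⟨l, rfl⟩ := hy; exact h l
    | zero => rw [zero_div]; exact zero_mem _
    | add a b _ _ ha hb => rw [add_div]; exact add_mem ha hb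
    | smul a b _ hb => rw [smul_div_assoc]; exact D.smul_mem hb a

/-- Gluing over the charts. -/
theorem mem_of_charts (h : ∀ l, X.f l / e ∈ D) (h1 : e ∈ D.toSubmodule * X.Rd 1) (he : e ≠ 0)
    {Y : Submodule k K} {v : K}
    (hv : ∀ j : X.J, ∃ N : ℕ, (X.f j.1 / e) ^ N * v ∈ D.toSubmodule * Y) :
    v ∈ D.toSubmodule * Y := by
  let I : Ideal D :=
    { carrier := {a | (a : K) * v ∈ D.toSubmodule * Y}
      zero_mem' := by simp
      add_mem' := fun {a b} ha hb => by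
        change ((a : K) + b) * v ∈ D.toSubmodule * Y
        rw [add_mul]; exact add_mem ha hb
      smul_mem' := fun a b hb => by
        change (a : K) * b * v ∈ D.toSubmodule * Y
        rw [mul_assoc]; exact mul_mem_self a.2 hb }
  let Z : Submodule k K :=
    { carrier := {r | ∃ hr : r ∈ D, (⟨r, hr⟩ : D) ∈ I.radical}
      zero_mem' := ⟨zero_mem _, zero_mem _⟩
      add_mem' := fun ⟨ha, ha'⟩ ⟨hb, hb'⟩ => ⟨add_mem ha hb, add_mem ha' hb'⟩
      smul_mem' := fun a b ⟨hb, hb'⟩ => ⟨D.smul_mem hb a, Submodule.smul_of_tower_mem _ a hb'⟩ }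
  have mulZ : ∀ a ∈ D, ∀ r ∈ Z, a * r ∈ Z := fun a ha r ⟨hr, hr'⟩ =>
    ⟨mul_mem ha hr, Ideal.mul_mem_left _ ⟨a, ha⟩ hr'⟩
  have sp : ∀ B : Set K, (∀ y ∈ B, y / e ∈ Z) → ∀ y ∈ Submodule.span k B, y / e ∈ Z := by
    intro B hB y hy
    induction hy using Submodule.span_induction with
    | mem y hy => exact hB y hy
    | zero => rw [zero_div]; exact zero_mem _
    | add a b _ _ ha hb => rw [add_div]; exact add_mem ha hb
    | smul a b _ hb => rw [smul_div_assoc]; exact Z.smul_mem a hb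
  have hJ : ∀ y ∈ Submodule.span k (X.f '' X.J), y / e ∈ Z := sp _ (by
    rintro _ ⟨j, hj, rfl⟩
    exact ⟨h j, hv ⟨j, hj⟩⟩)
  have hl : ∀ l, X.f l / e ∈ Z := fun l => by
    obtain ⟨m, hm⟩ := X.cover l
    have : X.f l ^ (m + 1) / e ^ (m + 1) ∈ Z := by
      refine Submodule.mul_induction_on (C := fun z => z / e ^ (m + 1) ∈ Z) hm
        (fun a ha b hb => ?_) fun a b ha hb => by rw [add_div]; exact add_mem ha hb
      rw [mul_comm, pow_succ, ← div_mul_div_comm]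
      exact mulZ _ (Rd_div_mem h m hb) _ (hJ a ha)
    obtain ⟨h2, h3⟩ := this
    refine ⟨h l, Ideal.mem_radical_of_pow_mem (m := m + 1) ?_⟩
    rwa [show (⟨_, h l⟩ : D) ^ (m + 1) = ⟨_, h2⟩ from Subtype.ext (div_pow _ _ _)]
  have h2 : e / e ∈ Z := by
    refine Submodule.mul_induction_on (C := fun z => z / e ∈ Z) h1 (fun a ha b hb => ?_)
      fun a b ha hb => by rw [add_div]; exact add_mem ha hb
    rw [mul_div_assoc]
    rw [ProjVar.Rd, pow_one] at hb
    exact mulZ a ha _ (sp _ (by rintro _ ⟨l, rfl⟩; exact hl l) b hb)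
  rw [div_self he] at h2
  obtain ⟨_, N, hN⟩ := h2
  have : ((⟨1, _⟩ : D) ^ N : D).1 * v ∈ D.toSubmodule * Y := hN
  simpa using this

end Pool.Agent.Lib.MP_d3d358_ag.Bkr
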