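import Pool.Agent.Lib.MP_d3d358_ag.Bkr.Fm

/-! The calculus of classes killed by a multiplicative family of forms. -/

set_option autoImplicit false

open CategoryTheory Limits Abelian

namespace Pool.Agent.Lib.MP_d3d358_ag.Bkr

open Pool.Agent.Lib.MP_cd184e_ag.T Pool.Agent.Lib.MP_cd184e_ag.T.Coh
open Pool.Agent.Lib.MP_d3d358_ag.K Pool.Agent.Lib.MP_d3d358_ag.K.Cy

variable {k K : Type} [Field k] [Field K] [Algebra k K] {X : ProjVar k K}

/-- Composition of a class with a morphism. -/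
noncomputable def po {G M N : Coh X} {i : ℕ} (x : Ext G M i) (f : M ⟶ N) : Ext G N i :=
  x.comp (Ext.mk₀ f) (add_zero _)

theorem po_po {G L M N : Coh X} {i : ℕ} (x : Ext G L i) (f : L ⟶ M) (g : M ⟶ N) :
    po (po x f) g = po x (f ≫ g) := by
  rw [po, po, po, Ext.comp_assoc_of_third_deg_zero, Ext.mk₀_comp_mk₀]

theorem po_zero {G M N : Coh X} {i : ℕ} (x : Ext G M i) : po x (0 : M ⟶ N) = 0 := by simp [po]

theorem zero_po {G M N : Coh X} {i : ℕ} (f : M ⟶ N) : po (0 : Ext G M i) f = 0 := by simp [po]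

theorem po_id {G M : Coh X} {i : ℕ} (x : Ext G M i) : po x (𝟙 M) = x := by simp [po]

theorem mk_po {G M N : Coh X} (x : G ⟶ M) (f : M ⟶ N) : po (Ext.mk₀ x) f = Ext.mk₀ (x ≫ f) :=
  Ext.mk₀_comp_mk₀ _ _

theorem Fm.ac_eq (σ : Fm X) {G N : Coh X} {i : ℕ} {a : Cy X} (x : Ext G ((twc a).obj N) i) :
    σ.ac x = po x (σ.mu N rfl) := rfl

theorem Fm.mu_muW (σ τ : Fm X) (N : Coh X) {a b c : Cy X} (h : b = a * σ.d) (h' : c = b * τ.d)
    (h'' : c = a * (σ * τ).d) : σ.mu N h ≫ τ.mu N h' = (σ * τ).mu N h'' :=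
  hom_ext fun s x => by
    rw [comp_app, σ.mu_app, τ.mu_app, Fm.mu_app, Fm.mul_sec, mul_comm, mul_smul]

theorem Fm.mu_comm (σ τ : Fm X) (N : Coh X) {a b b' c : Cy X} (h : b = a * σ.d) (h' : c = b * τ.d)
    (h1 : b' = a * τ.d) (h2 : c = b' * σ.d) : σ.mu N h ≫ τ.mu N h' = τ.mu N h1 ≫ σ.mu N h2 :=
  hom_ext fun s x => by
    rw [comp_app, comp_app, σ.mu_app, τ.mu_app, σ.mu_app, τ.mu_app, smul_comm]

theorem Fm.mu_one (N : Coh X) {a : Cy X} (h : a = a * (1 : Fm X).d) : (1 : Fm X).mu N h = 𝟙 _ :=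
  hom_ext fun s x => by rw [Fm.mu_app, Fm.one_sec, one_smul]; rfl

theorem Fm.mu_natW (σ : Fm X) {M N : Coh X} (ψ : M ⟶ N) {a b : Cy X} (h : b = a * σ.d) :
    (twc a).map ψ ≫ σ.mu N h = σ.mu M h ≫ (twc b).map ψ := muc_nat ψ _

variable {S : Submonoid (Fm X)} {G : Coh X}

theorem Nul.intro {N : Coh X} {i : ℕ} {a b : Cy X} {x : Ext G ((twc a).obj N) i} {σ : Fm X}
    (hσ : σ ∈ S) (h : b = a * σ.d) (e : po x (σ.mu N h) = 0) : Nul S x := by
  subst h; exact ⟨σ, hσ, e⟩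

theorem Fm.po_mu_eq_zero {N : Coh X} {i : ℕ} {a b : Cy X} {x : Ext G ((twc a).obj N) i} {σ : Fm X}
    (e : σ.ac x = 0) (h : b = a * σ.d) : po x (σ.mu N h) = 0 := by
  subst h; exact e

theorem Nul.zero {N : Coh X} {i : ℕ} {a : Cy X} : Nul S (0 : Ext G ((twc a).obj N) i) :=
  ⟨1, one_mem _, zero_po _⟩

theorem Nul.of_mu {N : Coh X} {i : ℕ} {a b : Cy X} {x : Ext G ((twc a).obj N) i} {σ : Fm X}
    (hσ : σ ∈ S) (h : b = a * σ.d) (e : Nul S (po x (σ.mu N h))) : Nul S x := by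
  obtain ⟨τ, hτ, e⟩ := e
  rw [Fm.ac_eq, po_po, σ.mu_muW τ N h rfl (by rw [h, Fm.mul_d, mul_assoc])] at e
  exact Nul.intro (mul_mem hσ hτ) _ e

/-- A graded morphism in a given degree. -/
noncomputable def gat {M N : Coh X} {d : Cy X} (φ : M ⟶ (twc d).obj N) {a b : Cy X}
    (h : b = a * d) : (twc a).obj M ⟶ (twc b).obj N :=
  (twc a).map φ ≫ (twctwc N d a b (by rw [h, mul_comm])).hom

theorem gat_app {M N : Coh X} {d : Cy X} (φ : M ⟶ (twc d).obj N) {a b : Cy X} (h : b = a * d)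
    (s : X.Idx) (x : M.obj s) : (gat φ h).app s x = φ.app s x := rfl

theorem gat_mu {M N : Coh X} {d : Cy X} (φ : M ⟶ (twc d).obj N) (σ : Fm X) {a b a' b' : Cy X}
    (h : b = a * d) (h' : b' = a' * d) (h1 : a' = a * σ.d) (h2 : b' = b * σ.d) :
    gat φ h ≫ σ.mu N h2 = σ.mu M h1 ≫ gat φ h' :=
  hom_ext fun s x => by
    rw [comp_app, comp_app, σ.mu_app, σ.mu_app, gat_app, gat_app]
    exact ((φ.app s).map_smul _ x).symm

theorem Nul.gat {M N : Coh X} {d : Cy X} (φ : M ⟶ (twc d).obj N) {i : ℕ} {a b : Cy X}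
    (h : b = a * d) {x : Ext G ((twc a).obj M) i} (hx : Nul S x) : Nul S (po x (gat φ h)) := by
  obtain ⟨σ, hσ, e⟩ := hx
  refine ⟨σ, hσ, ?_⟩
  rw [Fm.ac_eq, po_po, gat_mu φ σ h (by rw [h, mul_right_comm]) rfl rfl, ← po_po, ← Fm.ac_eq, e,
    zero_po]

/-- Multiplication by a form as a graded morphism. -/
noncomputable def Fm.gm (σ : Fm X) (M : Coh X) : M ⟶ (twc σ.d).obj M :=
  (twc1 M).inv ≫ σ.mu M (one_mul _).symm

theorem Fm.gm_app (σ : Fm X) (M : Coh X) (s : X.Idx) (x : M.obj s) :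
    (σ.gm M).app s x = σ.sec s • x := σ.mu_app M (one_mul _).symm s x

theorem exists_quot {M N : Coh X} {d : Cy X} (φ : M ⟶ (twc d).obj N) :
    ∃ (Q : Coh X) (ψ : N ⟶ Q), (∀ s, Function.Surjective (ψ.app s)) ∧
      ∀ (s : X.Idx) (y : N.obj s), ψ.app s y = 0 ↔ ∃ x, φ.app s x = y :=
  ⟨(range (gat φ (inv_mul_cancel d).symm)).quot, (twc1 N).inv ≫ (range _).π,
    fun _ => Submodule.mkQ_surjective _, fun _ _ => Submodule.Quotient.mk_eq_zero _⟩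

/-- A graded short exact sequence. -/
structure GSes {L M N : Coh X} {d : Cy X} (φ : L ⟶ (twc d).obj M) (ψ : M ⟶ N) : Prop where
  inj : ∀ s, Function.Injective (φ.app s)
  ex : ∀ (s : X.Idx) (y : M.obj s), ψ.app s y = 0 ↔ ∃ x, φ.app s x = y
  surj : ∀ s, Function.Surjective (ψ.app s)

namespace GSes

variable {L M N : Coh X} {d : Cy X} {φ : L ⟶ (twc d).obj M} {ψ : M ⟶ N}

theorem w (E : GSes φ ψ) {a b : Cy X} (h : b = a * d) : gat φ h ≫ (twc b).map ψ = 0 :=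
  hom_ext fun s x => (E.ex s _).2 ⟨x, rfl⟩

theorem se (E : GSes φ ψ) {a b : Cy X} (h : b = a * d) :
    (ShortComplex.mk _ _ (E.w h)).ShortExact :=
  shortExact_of _ _ _ E.inj (fun s y hy => (E.ex s y).1 hy) E.surj

/-- The connecting map. -/
noncomputable def δ (E : GSes φ ψ) {a b : Cy X} (h : b = a * d) {i : ℕ}
    (y : Ext G ((twc b).obj N) i) : Ext G ((twc a).obj L) (i + 1) := y.comp (E.se h).extClass rfl

theorem δ_mu (E : GSes φ ψ) (σ : Fm X) {a b a' b' : Cy X} (h : b = a * d) (h' : b' = a' * d)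
    (h1 : a' = a * σ.d) (h2 : b' = b * σ.d) {i : ℕ} (y : Ext G ((twc b).obj N) i) :
    po (E.δ h y) (σ.mu L h1) = E.δ h' (po y (σ.mu N h2)) := by
  have e := (E.se h).extClass_naturality (E.se h')
    ⟨σ.mu L h1, σ.mu M h2, σ.mu N h2, (gat_mu φ σ h h' h1 h2).symm, (σ.mu_natW ψ h2).symm⟩
  rw [po, po, δ, δ, Ext.comp_assoc_of_third_deg_zero, Ext.comp_assoc_of_second_deg_zero]
  exact congrArg (fun z => y.comp z rfl) e

theorem δ_po (E : GSes φ ψ) {a b : Cy X} (h : b = a * d) {i : ℕ} (z : Ext G ((twc b).obj M) i) :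
    E.δ h (po z ((twc b).map ψ)) = 0 := by
  rw [po, δ, Ext.comp_assoc_of_second_deg_zero]
  exact (congrArg (fun w => z.comp w rfl) (E.se h).comp_extClass).trans (Ext.comp_zero _ _ _ _ _)

theorem ex1 (E : GSes φ ψ) {a b : Cy X} (h : b = a * d) {i : ℕ}
    (x : Ext G ((twc a).obj L) (i + 1)) (hx : po x (gat φ h) = 0) : ∃ y, E.δ h y = x :=
  Ext.covariant_sequence_exact₁ G (E.se h) x hx rfl

theorem ex3 (E : GSes φ ψ) {a b : Cy X} (h : b = a * d) {i : ℕ}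
    (y : Ext G ((twc b).obj N) i) (hy : E.δ h y = 0) : ∃ z, po z ((twc b).map ψ) = y :=
  Ext.covariant_sequence_exact₃ G (E.se h) y rfl hy

end GSes

/-- The map `ψ` is onto on classes of degree `i` and twist `b`, up to the family `S`. -/
def Onto (S : Submonoid (Fm X)) (G : Coh X) {M N : Coh X} (ψ : M ⟶ N) (i : ℕ) (b : Cy X) : Prop :=
  ∀ y : Ext G ((twc b).obj N) i, ∃ σ ∈ S, ∃ z : Ext G ((twc (b * σ.d)).obj M) i,
    σ.ac y = po z ((twc _).map ψ)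

theorem Onto.of_nul {M N : Coh X} (ψ : M ⟶ N) {i : ℕ} {b : Cy X}
    (h : ∀ y : Ext G ((twc b).obj N) i, Nul S y) : Onto S G ψ i b := fun y => by
  obtain ⟨σ, hσ, e⟩ := h y
  exact ⟨σ, hσ, 0, e.trans (zero_po _).symm⟩

theorem GSes.nul {L M N : Coh X} {d : Cy X} {φ : L ⟶ (twc d).obj M} {ψ : M ⟶ N} (E : GSes φ ψ)
    {i : ℕ} {a b : Cy X} (h : b = a * d) (ho : ∀ σ ∈ S, Onto S G ψ i (a * σ.d * d))
    (x : Ext G ((twc a).obj L) (i + 1)) (hx : Nul S (po x (gat φ h))) : Nul S x := by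
  obtain ⟨σ, hσ, e⟩ := hx
  have h2 : a * σ.d * d = b * σ.d := by rw [h, mul_right_comm]
  obtain ⟨y, hy⟩ := E.ex1 (rfl : a * σ.d * d = _) (po x (σ.mu L rfl)) (by
    rw [po_po, ← gat_mu φ σ h rfl rfl h2, ← po_po, Fm.po_mu_eq_zero e])
  obtain ⟨τ, hτ, z, hz⟩ := ho σ hσ y
  refine Nul.of_mu hσ rfl ⟨τ, hτ, ?_⟩
  rw [← hy, Fm.ac_eq, E.δ_mu τ rfl (mul_right_comm _ _ _) rfl rfl, ← Fm.ac_eq, hz, E.δ_po]

/-- Multiplication by `u` is injective on classes up to `S`. -/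
theorem nul_of_mul (u : Fm X) {M Q : Coh X} (ψ : M ⟶ Q) (hs : ∀ s, Function.Surjective (ψ.app s))
    (he : ∀ (s : X.Idx) (y : M.obj s), ψ.app s y = 0 ↔ ∃ x, u.sec s • x = y)
    (hk : ∃ τ ∈ S, ∀ (s : X.Idx) (x : M.obj s), u.sec s • x = 0 → τ.sec s • x = 0)
    {i : ℕ} {a b : Cy X} (h : b = a * u.d) (ho : ∀ σ ∈ S, Onto S G ψ i (a * σ.d * u.d))
    (x : Ext G ((twc a).obj M) (i + 1)) (hx : Nul S (po x (u.mu M h))) : Nul S x := by
  obtain ⟨τ, hτ, hk⟩ := hk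
  let Z : M.Sub := ker (u.gm M)
  let φ : Z.quot ⟶ (twc u.d).obj M := Z.desc (u.gm M) fun _ _ hx => hx
  let θ : Z.quot ⟶ (twc τ.d).obj M := Z.desc (τ.gm M) fun s x hx =>
    (τ.gm_app M s x).trans (hk s x ((u.gm_app M s x).symm.trans hx))
  have E : GSes φ ψ := by
    refine ⟨fun s => ?_, fun s y => (he s y).trans ⟨?_, ?_⟩, hs⟩
    · rw [injective_iff_map_eq_zero]
      intro x hx
      obtain ⟨x, rfl⟩ := Submodule.Quotient.mk_surjective _ x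
      exact (Submodule.Quotient.mk_eq_zero _).2 hx
    · rintro ⟨x, rfl⟩
      exact ⟨Submodule.Quotient.mk x, u.gm_app M s x⟩
    · rintro ⟨x, rfl⟩
      obtain ⟨x, rfl⟩ := Submodule.Quotient.mk_surjective _ x
      exact ⟨x, (u.gm_app M s x).symm⟩
  have e1 : (twc a).map Z.π ≫ gat φ h = u.mu M h :=
    hom_ext fun s x => (u.gm_app M s x).trans (u.mu_app M h s x).symm
  have e2 : (twc a).map Z.π ≫ gat θ rfl = τ.mu M rfl :=
    hom_ext fun s x => (τ.gm_app M s x).trans (τ.mu_app M rfl s x).symm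
  have h1 := E.nul h ho (po x ((twc a).map Z.π)) (by rwa [po_po, e1])
  have h2 := h1.gat θ rfl
  rw [po_po, e2] at h2
  exact Nul.of_mu hτ rfl h2

/-- If moreover powers of `u` kill all classes, then all classes are killed by `S`. -/
theorem nul_step {u : Fm X} (hu : Kills G u) {M Q : Coh X} (ψ : M ⟶ Q)
    (hs : ∀ s, Function.Surjective (ψ.app s))
    (he : ∀ (s : X.Idx) (y : M.obj s), ψ.app s y = 0 ↔ ∃ x, u.sec s • x = y)
    (hk : ∃ τ ∈ S, ∀ (s : X.Idx) (x : M.obj s), u.sec s • x = 0 → τ.sec s • x = 0)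
    (D : Cy X → Prop) (hS : ∀ a, D a → ∀ σ ∈ S, D (a * σ.d)) (hD : ∀ a, D a → D (a * u.d))
    {i : ℕ} (ho : ∀ a, D a → Onto S G ψ i (a * u.d)) {a : Cy X} (ha : D a)
    (x : Ext G ((twc a).obj M) (i + 1)) : Nul S x := by
  obtain ⟨t, ht⟩ := hu M a i x
  induction t generalizing a with
  | zero => exact ⟨u ^ 0, by rw [pow_zero]; exact one_mem S, ht⟩
  | succ t ih =>
    refine nul_of_mul u ψ hs he hk rfl (fun σ hσ => ho _ (hS a ha σ hσ)) x (ih (hD a ha) _ ?_)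
    have h3 : a * u.d * (u ^ t).d = a * (u * u ^ t).d := by rw [Fm.mul_d, mul_assoc]
    rw [Fm.ac_eq, po_po, u.mu_muW (u ^ t) M rfl rfl h3]
    rw [pow_succ'] at ht
    exact Fm.po_mu_eq_zero ht h3

/-- A morphism to a quotient lifts after multiplication by a power of `u`. -/
theorem exists_lift {u : Fm X} (hu : Kills G u) {M Q : Coh X} (ψ : M ⟶ Q)
    (hs : ∀ s, Function.Surjective (ψ.app s)) {b : Cy X} (y : G ⟶ (twc b).obj Q) :
    ∃ t0 : ℕ, ∀ t, t0 ≤ t → ∃ n : G ⟶ (twc (b * u.d ^ t)).obj M, ∀ (s : X.Idx) (x : G.obj s),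
      ψ.app s (n.app s x) = u.sec s ^ t • (show Q.obj s from y.app s x) := by
  have E : GSes ((ker ψ).ι ≫ (twc1 M).inv) ψ :=
    ⟨fun _ => Subtype.val_injective, fun s y => ⟨fun h => ⟨⟨y, h⟩, rfl⟩, by
      rintro ⟨x, rfl⟩; exact x.2⟩, hs⟩
  obtain ⟨t0, ht⟩ := hu _ b 0 (E.δ (mul_one b).symm (Ext.mk₀ y))
  refine ⟨t0, fun t hle => ?_⟩
  obtain ⟨m, rfl⟩ := Nat.exists_eq_add_of_le hle
  have h1 : b * u.d ^ (t0 + m) = b * (u ^ (t0 + m)).d := by rw [Fm.pow_d]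
  have h0 : po (E.δ (mul_one b).symm (Ext.mk₀ y)) ((u ^ (t0 + m)).mu _ h1) = 0 := by
    have h2 : b * u.d ^ (t0 + m) = b * (u ^ t0).d * (u ^ m).d := by simp [pow_add, mul_assoc]
    have h3 : (u ^ t0).mu (ker ψ).sub rfl ≫ (u ^ m).mu _ h2 = (u ^ (t0 + m)).mu _ h1 :=
      hom_ext fun s x => by
        rw [comp_app, Fm.mu_app, Fm.mu_app, Fm.mu_app, ← mul_smul, ← Fm.mul_sec, ← pow_add,
          add_comm]
    rw [← h3, ← po_po, ← Fm.ac_eq, ht, zero_po]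
  rw [E.δ_mu _ _ (mul_one _).symm h1 h1] at h0
  obtain ⟨z, hz⟩ := E.ex3 _ _ h0
  obtain ⟨n, rfl⟩ := (Ext.mk₀_bijective _ _).2 z
  rw [mk_po, mk_po] at hz
  refine ⟨n, fun s x => ?_⟩
  have := congrArg (fun f => Hom.app f s x) ((Ext.mk₀_bijective _ _).1 hz)
  rw [← Fm.pow_sec, ← (u ^ (t0 + m)).mu_app Q h1]
  exact this

end Pool.Agent.Lib.MP_d3d358_ag.Bkr
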